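import Pool.Agent.Lib.MP_e3f158_nt.G.Defs

/-!
# MP_e3f158_nt, type (a,0) in residue classes (project CL): definitions
-/

set_option autoImplicit false

namespace Pool.Agent.Lib.MP_e3f158_nt.CL

open Finset

/-- The elements `r` of `R` such that `h - r` is coprime to `Q`. -/
def Sh (R : Finset ℕ) (Q h : ℕ) : Finset ℕ := R.filter fun r => Int.gcd ((h : ℤ) - r) Q = 1

/-- `∏ (1 - 1/p)` -/
noncomputable def VP (P : Finset ℕ) : ℝ := ∏ p ∈ P, (1 - 1 / (p : ℝ))

/-- The number of `r ∈ S` such that no prime of `P` divides `n - r`. -/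
def TT (P S : Finset ℕ) (n : ℕ) : ℕ := (S.filter fun r => ∀ p ∈ P, ¬ p ∣ n - r).card

/-- The integers of `(X, 2X]` in the class `h` mod `Q`. -/
def NC (X Q h : ℕ) : Finset ℕ := (Ioc X (2 * X)).filter fun n => n ≡ h [MOD Q]

/-- The error term of the sieve. -/
noncomputable def Er (X Q : ℕ) (P : Finset ℕ) (R : ℕ) : ℝ :=
  (X : ℝ) / Q * (10 * Real.exp (6 * (∑ p ∈ P, (1 : ℝ) / p) - R)) + 2 * (1 + 2 * (P.card : ℝ)) ^ R

end Pool.Agent.Lib.MP_e3f158_nt.CL
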