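import Pool.Agent.Lib.MP_e3f158_nt.U.L2
import Pool.Agent.Lib.MP_e3f158_nt.CL.Defs

/-!
# MP_e3f158_nt, project CL: primes and model agree for almost all n (module CLX-Ana)
-/

set_option autoImplicit false

namespace Pool.Agent.Lib.MP_e3f158_nt.CL

open Finset U Pool.MP_dd84fd_nt.E2

theorem ana (A K : ℕ) : ∃ D : ℕ, 1 ≤ D ∧ ∃ X0 : ℕ, ∀ X : ℕ, X0 ≤ X → ∀ R : Finset ℕ,
    R ⊆ Icc 1 (X / 2) →
    (((Ioc X (2 * X)).filter fun n => (X : ℝ) / (Real.log X) ^ A <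
      |RA R n - Rz (wX D (2 * X)) R n|).card : ℝ) ≤ (X : ℝ) / (Real.log X) ^ K := by
  obtain ⟨D0, hD0⟩ := l2_primes (A + K + 1)
  obtain ⟨X0, hX0⟩ := hD0 (max D0 1) (le_max_left _ _)
  refine ⟨max D0 1, le_max_right _ _, max X0 ⌈Real.exp 2⌉₊, fun X hX R hR => ?_⟩
  have hX1 : X0 ≤ 2 * X := by
    have := (le_max_left _ _).trans hX
    omega
  have hXe : Real.exp 2 ≤ (X : ℝ) := Nat.ceil_le.mp ((le_max_right _ _).trans hX)
  have hXp : (0 : ℝ) < X := lt_of_lt_of_le (Real.exp_pos 2) hXe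
  set L : ℝ := Real.log X with hL
  have hL2 : 2 ≤ L := by
    rw [hL, Real.le_log_iff_exp_le hXp]
    exact hXe
  have hL0 : 0 < L := by linarith
  have hR2 : R ⊆ Icc 1 (2 * X) := fun r hr => by
    have := mem_Icc.1 (hR hr)
    exact mem_Icc.2 (by omega)
  have h1 := hX0 (2 * X) hX1 R hR2
  have hRc : (R.card : ℝ) ≤ X := by
    have h2 := card_le_card hR
    rw [Nat.card_Icc] at h2
    exact_mod_cast (by omega : R.card ≤ X)
  set F := (Ioc X (2 * X)).filter fun n => (X : ℝ) / L ^ A <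
      |RA R n - Rz (wX (max D0 1) (2 * X)) R n| with hF
  have h3 : (F.card : ℝ) * ((X : ℝ) / L ^ A) ^ 2 ≤
      ∑ n ∈ Icc 1 (2 * X), (RA R n - Rz (wX (max D0 1) (2 * X)) R n) ^ 2 := by
    calc (F.card : ℝ) * ((X : ℝ) / L ^ A) ^ 2 = ∑ n ∈ F, ((X : ℝ) / L ^ A) ^ 2 := by
          rw [sum_const, nsmul_eq_mul]
      _ ≤ ∑ n ∈ F, (RA R n - Rz (wX (max D0 1) (2 * X)) R n) ^ 2 := by
          refine sum_le_sum fun n hn => ?_
          rw [← sq_abs (RA R n - Rz (wX (max D0 1) (2 * X)) R n)]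
          have h4 := (mem_filter.1 hn).2
          exact pow_le_pow_left₀ (by positivity) h4.le 2
      _ ≤ _ := by
          refine sum_le_sum_of_subset_of_nonneg ?_ fun _ _ _ => by positivity
          intro n hn
          have h4 := mem_Ioc.1 (mem_filter.1 hn).1
          exact mem_Icc.2 (by omega)
  have h5 : ((2 * X : ℕ) : ℝ) / (Real.log ((2 * X : ℕ) : ℝ)) ^ (A + K + 1) ≤
      2 * X / L ^ (A + K + 1) := by
    have h6 : L ≤ Real.log ((2 * X : ℕ) : ℝ) := by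
      apply Real.log_le_log hXp
      push_cast
      linarith
    push_cast at h6 ⊢
    exact div_le_div_of_nonneg_left (by positivity) (by positivity)
      (pow_le_pow_left₀ hL0.le h6 _)
  have h6 : (F.card : ℝ) * ((X : ℝ) / L ^ A) ^ 2 ≤ (2 * X / L ^ (A + K + 1)) ^ 2 * X := by
    refine h3.trans (h1.trans ?_)
    have h7 : 0 ≤ ((2 * X : ℕ) : ℝ) / (Real.log ((2 * X : ℕ) : ℝ)) ^ (A + K + 1) := by positivity
    exact mul_le_mul (pow_le_pow_left₀ h7 h5 2) hRc (by positivity) (by positivity)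
  have h7 : (F.card : ℝ) * (L ^ K * L ^ (K + 2)) ≤ 4 * X := by
    have h8 : (0 : ℝ) < L ^ (2 * (A + K + 1)) / X ^ 2 := by positivity
    have h9 := mul_le_mul_of_nonneg_right h6 h8.le
    have e1 : (F.card : ℝ) * ((X : ℝ) / L ^ A) ^ 2 * (L ^ (2 * (A + K + 1)) / X ^ 2) =
        (F.card : ℝ) * (L ^ K * L ^ (K + 2)) := by
      have : L ^ (2 * (A + K + 1)) = L ^ A * L ^ A * (L ^ K * L ^ (K + 2)) := by
        rw [← pow_add, ← pow_add, ← pow_add]
        congr 1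
        ring
      rw [this]
      field_simp
    have e2 : (2 * X / L ^ (A + K + 1)) ^ 2 * (X : ℝ) * (L ^ (2 * (A + K + 1)) / X ^ 2) = 4 * X := by
      have : L ^ (2 * (A + K + 1)) = (L ^ (A + K + 1)) ^ 2 := by
        rw [← pow_mul, mul_comm]
      rw [this]
      field_simp
      norm_num
    rw [e1, e2] at h9
    exact h9
  have h8 : (4 : ℝ) ≤ L ^ (K + 2) := by
    calc (4 : ℝ) = 2 ^ 2 := by norm_num
      _ ≤ L ^ 2 := pow_le_pow_left₀ (by norm_num) hL2 2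
      _ ≤ L ^ (K + 2) := pow_le_pow_right₀ (by linarith) (by omega)
  rw [le_div_iff₀ (by positivity)]
  have h9 : (F.card : ℝ) * L ^ K * 4 ≤ (F.card : ℝ) * L ^ K * L ^ (K + 2) :=
    mul_le_mul_of_nonneg_left h8 (by positivity)
  linarith

end Pool.Agent.Lib.MP_e3f158_nt.CL
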