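import Pool.Agent.Lib.MP_e3f158_nt.CL.Defs

/-!
# MP_e3f158_nt, project CL: counting classes; trivial bounds for products (module CLX-Cls)

PROOFS.
`Sh_modEq`: `gcd (n - r) Q = gcd (h - r) Q` for `n ≡ h mod Q` (`Int.gcd` depends on the class only).
`Sh_nat`: for `r ≤ n`, `Int.gcd ((n:ℤ) - r) Q = Nat.gcd (n - r) Q`.
`sum_Sh`: exchange the sums; for each `r` the map `h ↦ h - r mod Q` permutes the classes, so
   `#{h < Q : gcd (h - r) Q = 1} = φ(Q)` (or: `Nat.filter_coprime_Ico_eq_totient`, periodicity).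
`many`: let `G` be the set on the right. `φ(Q) |R| = ∑_h N_h ≤ |G| |R| + ∑_{h ∉ G} N_h
   ≤ |G| |R| + Q * δ φ(Q) |R| / Q`; divide by `|R|`.
`VP_ge`: the primes of `(z, w]` are among the integers `2..w` : `∏ (1 - 1/p) ≥ ∏_{m=2}^{w} (1 - 1/m) = 1/w`.
`tot_ge`: `φ(primorial z) / primorial z = ∏_{p ≤ z} (1 - 1/p) ≥ 1/z` in the same way.
`tot_mul`: `primorial w = primorial z * ∏_{p ∈ prs z w} p`, coprime factors; so
   `φ(primorial w)/primorial w = φ(primorial z)/primorial z * VP (prs z w)`.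
`sum_inv`: `∑_{p ∈ prs z w} 1/p ≤ ∑_{m=1}^{w} 1/m ≤ 1 + log w`.
-/

set_option autoImplicit false

namespace Pool.Agent.Lib.MP_e3f158_nt.CL

open Finset

private theorem gcd_congr' {a b : ℤ} {Q : ℕ} (h : a ≡ b [ZMOD Q]) : Int.gcd a Q = Int.gcd b Q := by
  obtain ⟨k, hk⟩ := h.dvd
  have : b = a + Q * k := by linarith
  rw [this]
  simp

theorem Sh_modEq (R : Finset ℕ) (Q n h : ℕ) (hn : n ≡ h [MOD Q]) : Sh R Q n = Sh R Q h := by
  unfold Sh
  refine filter_congr fun r _ => ?_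
  have h1 : ((n : ℤ) - r) ≡ ((h : ℤ) - r) [ZMOD Q] :=
    Int.ModEq.sub_right _ ((Int.natCast_modEq_iff).2 hn)
  rw [gcd_congr' h1]

theorem Sh_nat (R : Finset ℕ) (Q n : ℕ) (hR : ∀ r ∈ R, r ≤ n) :
    Sh R Q n = R.filter fun r => Nat.Coprime (n - r) Q := by
  unfold Sh
  refine filter_congr fun r hr => ?_
  have h1 : ((n : ℤ) - r) = ((n - r : ℕ) : ℤ) := by
    rw [Nat.cast_sub (hR r hr)]
  rw [h1, Int.gcd_natCast_natCast, Nat.Coprime]

private theorem card_cls (Q r : ℕ) (hQ : 0 < Q) :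
    ((range Q).filter fun h : ℕ => Int.gcd ((h : ℤ) - r) Q = 1).card = Nat.totient Q := by
  rw [← Nat.filter_coprime_Ico_eq_totient Q ((Q - 1) * r)]
  refine card_bij (fun h _ => h + (Q - 1) * r) ?_ ?_ ?_
  · intro h hh
    rw [mem_filter, mem_range] at hh
    rw [mem_filter, mem_Ico]
    refine ⟨⟨by omega, by omega⟩, ?_⟩
    have h1 : ((h : ℤ) - r) ≡ ((h + (Q - 1) * r : ℕ) : ℤ) [ZMOD Q] := by
      rw [Int.modEq_iff_dvd]
      refine ⟨r, ?_⟩
      push_cast [Nat.cast_sub hQ]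
      ring
    have h2 := hh.2
    rw [gcd_congr' h1, Int.gcd_natCast_natCast] at h2
    exact Nat.Coprime.symm h2
  · intro a _ b _ h
    simpa using h
  · intro b hb
    rw [mem_filter, mem_Ico] at hb
    refine ⟨b - (Q - 1) * r, ?_, by omega⟩
    rw [mem_filter, mem_range]
    refine ⟨by omega, ?_⟩
    have h1 : (((b - (Q - 1) * r : ℕ) : ℤ) - r) ≡ (b : ℤ) [ZMOD Q] := by
      rw [Int.modEq_iff_dvd]
      refine ⟨r, ?_⟩
      push_cast [Nat.cast_sub hQ, Nat.cast_sub hb.1.1]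
      ring
    rw [gcd_congr' h1, Int.gcd_natCast_natCast]
    exact Nat.Coprime.symm hb.2

theorem sum_Sh (R : Finset ℕ) (Q : ℕ) (hQ : 0 < Q) :
    ∑ h ∈ range Q, (Sh R Q h).card = Nat.totient Q * R.card := by
  simp only [Sh, card_filter]
  rw [sum_comm]
  simp only [← card_filter]
  have h1 : ∀ r ∈ R, ((range Q).filter fun h : ℕ => Int.gcd ((h : ℤ) - r) Q = 1).card =
      Nat.totient Q := fun r _ => card_cls Q r hQ
  rw [sum_congr rfl h1, sum_const, smul_eq_mul, mul_comm]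

theorem many (R : Finset ℕ) (Q : ℕ) (hQ : 0 < Q) (hR : R.Nonempty) (δ : ℝ) (hδ : 0 ≤ δ) :
    (1 - δ) * (Nat.totient Q : ℝ) ≤ (((range Q).filter fun h =>
      δ * (Nat.totient Q : ℝ) * (R.card : ℝ) ≤ (Q : ℝ) * ((Sh R Q h).card : ℝ)).card : ℝ) := by
  set G := (range Q).filter fun h =>
      δ * (Nat.totient Q : ℝ) * (R.card : ℝ) ≤ (Q : ℝ) * ((Sh R Q h).card : ℝ) with hG
  have hR0 : (0 : ℝ) < R.card := by exact_mod_cast hR.card_pos
  have hQ0 : (0 : ℝ) < Q := by exact_mod_cast hQ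
  have h1 : (Nat.totient Q : ℝ) * R.card = ∑ h ∈ range Q, ((Sh R Q h).card : ℝ) := by
    rw [← Nat.cast_sum, sum_Sh R Q hQ]
    push_cast
    ring
  have h2 : ∀ h ∈ range Q, ((Sh R Q h).card : ℝ) ≤
      (if h ∈ G then (R.card : ℝ) else 0) + δ * (Nat.totient Q : ℝ) * (R.card : ℝ) / Q := by
    intro h hh
    by_cases hg : h ∈ G
    · rw [if_pos hg]
      have h3 : ((Sh R Q h).card : ℝ) ≤ R.card := by
        exact_mod_cast card_filter_le _ _
      have h4 : 0 ≤ δ * (Nat.totient Q : ℝ) * (R.card : ℝ) / Q := by positivity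
      linarith
    · rw [if_neg hg, zero_add, le_div_iff₀ hQ0]
      rw [hG, mem_filter, not_and, not_le] at hg
      linarith [hg hh]
  have h5 := sum_le_sum h2
  rw [← h1, sum_add_distrib, sum_const, card_range, nsmul_eq_mul] at h5
  have h6 : ∑ h ∈ range Q, (if h ∈ G then (R.card : ℝ) else 0) = (G.card : ℝ) * R.card := by
    rw [← sum_filter]
    have : (range Q).filter (fun h => h ∈ G) = G := by
      ext h
      rw [mem_filter]
      exact ⟨fun h => h.2, fun h => ⟨(mem_filter.1 h).1, h⟩⟩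
    rw [this, sum_const, nsmul_eq_mul]
  rw [h6] at h5
  have h7 : (Q : ℝ) * (δ * (Nat.totient Q : ℝ) * (R.card : ℝ) / Q) =
      δ * (Nat.totient Q : ℝ) * (R.card : ℝ) := by
    field_simp
  rw [h7] at h5
  by_contra hc
  rw [not_le] at hc
  have := mul_lt_mul_of_pos_right hc hR0
  nlinarith

private theorem prod_Icc (w : ℕ) (hw : 1 ≤ w) :
    ∏ m ∈ Icc 2 w, (1 - 1 / (m : ℝ)) = 1 / w := by
  induction w, hw using Nat.le_induction with
  | base => simp
  | succ n hn ih =>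
    rw [prod_Icc_succ_top (by omega), ih]
    have : (0 : ℝ) < n := by exact_mod_cast hn
    push_cast
    field_simp
    ring

private theorem fac {p : ℕ} (hp : 1 ≤ p) : (0 : ℝ) ≤ 1 - 1 / (p : ℝ) ∧ 1 - 1 / (p : ℝ) ≤ 1 := by
  have h1 : (1 : ℝ) ≤ p := by exact_mod_cast hp
  have h2 : 1 / (p : ℝ) ≤ 1 := by
    rw [div_le_one (by linarith)]
    exact h1
  have h3 : 0 ≤ 1 / (p : ℝ) := by positivity
  constructor <;> linarith

theorem VP_ge (z w : ℕ) (hw : 1 ≤ w) : 1 / (w : ℝ) ≤ VP (G.prs z w) := by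
  have hsub : G.prs z w ⊆ Icc 2 w := by
    intro p hp
    rw [G.mem_prs] at hp
    rw [mem_Icc]
    exact ⟨hp.2.2.two_le, hp.2.1⟩
  rw [← prod_Icc w hw, VP, ← prod_sdiff hsub]
  have h1 : ∏ p ∈ Icc 2 w \ G.prs z w, (1 - 1 / (p : ℝ)) ≤ 1 := by
    refine prod_le_one (fun p hp => ?_) (fun p hp => ?_)
    · have := mem_Icc.1 (mem_sdiff.1 hp).1
      exact (fac (by omega)).1
    · have := mem_Icc.1 (mem_sdiff.1 hp).1
      exact (fac (by omega)).2
  have h2 : 0 ≤ ∏ p ∈ G.prs z w, (1 - 1 / (p : ℝ)) := by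
    refine prod_nonneg fun p hp => ?_
    have := mem_Icc.1 (hsub hp)
    exact (fac (by omega)).1
  calc _ ≤ 1 * ∏ p ∈ G.prs z w, (1 - 1 / (p : ℝ)) := mul_le_mul_of_nonneg_right h1 h2
    _ = _ := one_mul _

theorem VP_le (z w : ℕ) : VP (G.prs z w) ≤ 1 := by
  rw [VP]
  refine prod_le_one (fun p hp => ?_) (fun p hp => ?_)
  · exact (fac (G.mem_prs.1 hp).2.2.one_le).1
  · exact (fac (G.mem_prs.1 hp).2.2.one_le).2

private theorem tot_eq (z : ℕ) :
    (Nat.totient (primorial z) : ℝ) = primorial z * VP (G.prs 0 z) := by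
  have h := Nat.totient_eq_mul_prod_factors (primorial z)
  have h1 : (primorial z).primeFactors = G.prs 0 z := by
    rw [primeFactors_primorial]
    ext p
    rw [Nat.mem_primesLE, G.mem_prs]
    exact ⟨fun h => ⟨h.2.pos, h.1, h.2⟩, fun h => ⟨h.2.1, h.2.2⟩⟩
  rw [h1] at h
  have h2 : ((Nat.totient (primorial z) : ℚ) : ℝ) =
      (((primorial z : ℚ) * ∏ p ∈ G.prs 0 z, (1 - (p : ℚ)⁻¹) : ℚ) : ℝ) := by rw [h]
  push_cast at h2
  rw [h2, VP]
  simp only [one_div]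

theorem tot_ge (z : ℕ) (hz : 1 ≤ z) :
    (primorial z : ℝ) ≤ z * (Nat.totient (primorial z) : ℝ) := by
  rw [tot_eq]
  have h1 := VP_ge 0 z hz
  have hz0 : (0 : ℝ) < z := by exact_mod_cast hz
  have hp : (0 : ℝ) < primorial z := by exact_mod_cast primorial_pos z
  rw [div_le_iff₀ hz0] at h1
  nlinarith

theorem tot_mul (z w : ℕ) (hzw : z ≤ w) :
    (Nat.totient (primorial w) : ℝ) / primorial w =
      (Nat.totient (primorial z) : ℝ) / primorial z * VP (G.prs z w) := by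
  have hpz : (primorial z : ℝ) ≠ 0 := by exact_mod_cast (primorial_pos z).ne'
  have hpw : (primorial w : ℝ) ≠ 0 := by exact_mod_cast (primorial_pos w).ne'
  rw [tot_eq, tot_eq, mul_div_cancel_left₀ _ hpz, mul_div_cancel_left₀ _ hpw]
  unfold VP
  rw [← prod_union]
  · refine prod_congr ?_ fun _ _ => rfl
    ext p
    simp only [mem_union, G.mem_prs]
    constructor
    · rintro ⟨h1, h2, h3⟩
      by_cases h : p ≤ z
      · exact Or.inl ⟨h1, h, h3⟩
      · exact Or.inr ⟨by omega, h2, h3⟩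
    · rintro (⟨h1, h2, h3⟩ | ⟨h1, h2, h3⟩)
      · exact ⟨h1, by omega, h3⟩
      · exact ⟨h3.pos, h2, h3⟩
  · rw [disjoint_left]
    intro p hp hp'
    rw [G.mem_prs] at hp hp'
    omega

theorem sum_inv (z w : ℕ) (hw : 1 ≤ w) :
    ∑ p ∈ G.prs z w, (1 : ℝ) / p ≤ 1 + Real.log w := by
  have _ := hw
  have h1 := harmonic_le_one_add_log w
  rw [harmonic_eq_sum_Icc] at h1
  push_cast at h1
  refine le_trans ?_ h1
  simp_rw [one_div]
  refine sum_le_sum_of_subset_of_nonneg ?_ fun _ _ _ => by positivity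
  intro p hp
  rw [G.mem_prs] at hp
  rw [mem_Icc]
  exact ⟨hp.2.2.one_le, hp.2.1⟩

end Pool.Agent.Lib.MP_e3f158_nt.CL
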