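import Pool.Agent.Lib.MP_e3f158_nt.CL.Var
import Pool.Agent.Lib.MP_e3f158_nt.CL.Cls

/-!
# MP_e3f158_nt, project CL: almost all n of a class (module CLX-Cheb)

Write `L = log X`, `l = log L` (so `L = exp l`), `Q = primorial z ≤ 4^z ≤ X^(0.4622)` (as
`z ≤ L/3`, `log 4 < 1.3863`; `primorial_le_four_pow`), `P = prs z w`, `V = VP P`, `t = (log (X/|S|)+3)/z ≤ (A l + 3)/z`.
PROOF. Case `t > 1`, i.e. `z < A l + 3 ≤ (A+1) l` (`l ≥ 3`): the right side is `≥ 4 X/Q ≥ #NC` (`card_NC`).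
Case `t ≤ 1`: `exp t - 1 ≤ 2 t` (`t ≤ 1`). Chebyshev with `variance`, `R0 = ⌈(8D+10)(l+2)⌉`:
`# * (δ |S| V)^2 ≤ ∑ (T - |S|V)^2`, so
`# ≤ (X/Q) / δ^2 * (2 t + 1/(|S| V^2) + 4 Er / (V^2 X/Q))`.
`V ≥ 1/w ≥ exp (-D (l+1))` if `w ≥ 1` (`VP_ge`, `log (2X) ≤ e L`; if `w = 0` then `P = ∅`, `V = 1`),
`|S| ≥ X / L^A`, `σ = ∑ 1/p ≤ 1 + log w ≤ 1 + D (l+1)` (`sum_inv`):
`1/(|S| V^2) ≤ exp (A l + 2 D (l+1)) / X`;
`4 Er/(V^2 X/Q) = 40 exp (6σ - R0)/V^2 + 8 (Q/X) (1 + 2|P|)^R0 / V^2`, where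
`exp (6σ - R0)/V^2 ≤ exp (6 + 8 D (l+1) - R0) ≤ exp (-2 l - 6)`, and `1 + 2|P| ≤ 3 w`,
`(3w)^R0 ≤ exp (R0 (2 + D (l+1)))`, `R0 ≤ (8D+10)(l+2)+1`, so `(Q/X) (..)^R0 / V^2 ≤ exp (-0.53 L + c (l+2)^2)`.
All these are `≤ 1/(2z)` together for `X` large (`z ≤ L`), and
`2 t + 1/z ≤ (2 A l + 7)/z ≤ 4 (A+1) l / z`.
-/

set_option autoImplicit false

namespace Pool.Agent.Lib.MP_e3f158_nt.CL

open Finset

private theorem cheb_exp (C : ℝ) : ∀ᶠ l : ℝ in Filter.atTop, C * (l + 2) ^ 2 ≤ Real.exp l / 2 := by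
  have h1 := Real.tendsto_pow_mul_exp_neg_atTop_nhds_zero 2
  have h2 : Filter.Tendsto (fun l : ℝ => (l + 2) ^ 2 * Real.exp (-(l + 2))) Filter.atTop (nhds 0) :=
    h1.comp (Filter.tendsto_atTop_add_const_right _ 2 Filter.tendsto_id)
  have hK : 0 < 1 / (2 * (|C| + 1) * Real.exp 2) := by positivity
  filter_upwards [h2.eventually_lt_const hK] with l hl
  have h3 : (l + 2) ^ 2 < 1 / (2 * (|C| + 1) * Real.exp 2) * Real.exp (l + 2) := by
    have h4 := mul_lt_mul_of_pos_right hl (Real.exp_pos (l + 2))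
    rw [mul_assoc, ← Real.exp_add, neg_add_cancel, Real.exp_zero, mul_one] at h4
    exact h4
  have h5 : 1 / (2 * (|C| + 1) * Real.exp 2) * Real.exp (l + 2) * (|C| + 1) = Real.exp l / 2 := by
    rw [Real.exp_add]
    field_simp
  have h6 : C * (l + 2) ^ 2 ≤ (|C| + 1) * (l + 2) ^ 2 :=
    mul_le_mul_of_nonneg_right (by linarith [le_abs_self C]) (by positivity)
  have h7 : (l + 2) ^ 2 * (|C| + 1) ≤ 1 / (2 * (|C| + 1) * Real.exp 2) * Real.exp (l + 2) * (|C| + 1) :=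
    mul_le_mul_of_nonneg_right h3.le (by positivity)
  rw [h5] at h7
  linarith

private theorem cheb_large (C : ℝ) : ∃ X0 : ℕ, ∀ X : ℕ, X0 ≤ X → 3 ≤ Real.log (Real.log X) ∧
    C * (Real.log (Real.log X) + 2) ^ 2 ≤ Real.log X / 2 ∧ 0 < Real.log X ∧ 1 ≤ X := by
  have h1 : Filter.Tendsto (fun X : ℕ => Real.log (Real.log X)) Filter.atTop Filter.atTop :=
    Real.tendsto_log_atTop.comp (Real.tendsto_log_atTop.comp tendsto_natCast_atTop_atTop)
  have h2 := h1.eventually (cheb_exp C)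
  have h3 := h1.eventually (Filter.eventually_ge_atTop (3 : ℝ))
  obtain ⟨X0, hX0⟩ := Filter.eventually_atTop.1 (h2.and (h3.and (Filter.eventually_ge_atTop (1 : ℕ))))
  refine ⟨X0, fun X hX => ?_⟩
  obtain ⟨h4, h5, h6⟩ := hX0 X hX
  have h7 : 0 < Real.log X := by
    rcases (Real.log_natCast_nonneg X).lt_or_eq with h | h
    · exact h
    · rw [← h, Real.log_zero] at h5
      linarith
  refine ⟨h5, ?_, h7, h6⟩
  rw [Real.exp_log h7] at h4
  exact h4

private theorem cheb_arith (A D : ℕ) (l R : ℝ) (hl : 3 ≤ l) (hR1 : R ≤ (8 * D + 10) * (l + 2) + 1) :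
    A * l + 2 * (D * (l + 1)) + 2 + l ≤
      (A + (8 * D + 11) * (D + 1) + 2 * D + 3) * (l + 2) ^ 2 ∧
    R * (2 + D * (l + 1)) + 2 * (D * (l + 1)) + 6 + l ≤
      (A + (8 * D + 11) * (D + 1) + 2 * D + 3) * (l + 2) ^ 2 := by
  have hA : (0 : ℝ) ≤ A := Nat.cast_nonneg A
  have hD : (0 : ℝ) ≤ D := Nat.cast_nonneg D
  obtain ⟨y, hy⟩ : ∃ y : ℝ, y = l + 2 := ⟨_, rfl⟩
  have hly : l = y - 2 := by linarith
  have hy5 : 5 ≤ y := by linarith
  rw [← hy] at hR1 ⊢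
  have hyy : y ≤ y ^ 2 := by nlinarith
  have hAy : A * y ≤ A * y ^ 2 := mul_le_mul_of_nonneg_left hyy hA
  have hDy : D * y ≤ D * y ^ 2 := mul_le_mul_of_nonneg_left hyy hD
  have hB : 0 ≤ (8 * (D : ℝ) + 11) * (D + 1) * y ^ 2 := by positivity
  have e1 : (A + (8 * (D : ℝ) + 11) * (D + 1) + 2 * D + 3) * y ^ 2 =
      A * y ^ 2 + (8 * (D : ℝ) + 11) * (D + 1) * y ^ 2 + 2 * (D * y ^ 2) + 3 * y ^ 2 := by ring
  rw [e1]
  constructor
  · rw [hly]
    nlinarith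
  · have h1 : R ≤ (8 * D + 11) * y := by nlinarith
    have h2 : 2 + D * (l + 1) ≤ (D + 1) * y := by
      rw [hly]
      nlinarith
    have h3 : 0 ≤ 2 + D * (l + 1) := by positivity
    have h4 : R * (2 + D * (l + 1)) ≤ (8 * D + 11) * y * ((D + 1) * y) := by
      calc R * (2 + D * (l + 1)) ≤ (8 * D + 11) * y * (2 + D * (l + 1)) :=
            mul_le_mul_of_nonneg_right h1 h3
        _ ≤ (8 * D + 11) * y * ((D + 1) * y) := mul_le_mul_of_nonneg_left h2 (by positivity)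
    have e2 : (8 * (D : ℝ) + 11) * y * ((D + 1) * y) = (8 * (D : ℝ) + 11) * (D + 1) * y ^ 2 := by ring
    rw [e2] at h4
    have h5 : 2 * (D * (l + 1)) ≤ 2 * (D * y) := by
      have : D * (l + 1) ≤ D * y := mul_le_mul_of_nonneg_left (by linarith) hD
      linarith
    nlinarith

private theorem cheb_three : (3 : ℝ) ≤ Real.exp 2 := by
  have := Real.add_one_le_exp (2 : ℝ)
  linarith

/-- bounds for the primes of `(z, w]` -/
private theorem cheb_primes (z w : ℕ) (W : ℝ) (hW : 0 ≤ W) (hw : (w : ℝ) ≤ Real.exp W) :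
    Real.exp (-W) ≤ VP (G.prs z w) ∧ ∑ p ∈ G.prs z w, (1 : ℝ) / p ≤ 1 + W ∧
      1 + 2 * ((G.prs z w).card : ℝ) ≤ Real.exp (2 + W) := by
  have hc : ((G.prs z w).card : ℝ) ≤ w := by
    have h1 : (G.prs z w).card ≤ (Ioc z w).card := Finset.card_filter_le _ _
    rw [Nat.card_Ioc] at h1
    have h2 : (G.prs z w).card ≤ w := by omega
    exact_mod_cast h2
  have h1W : 1 ≤ Real.exp W := Real.one_le_exp hW
  refine ⟨?_, ?_, ?_⟩
  · rcases Nat.eq_zero_or_pos w with h0 | h0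
    · have h1 : G.prs z w = ∅ := by
        rw [← Finset.card_eq_zero]
        rw [h0, Nat.cast_zero] at hc
        have h2 : ((G.prs z 0).card : ℝ) = 0 := le_antisymm hc (Nat.cast_nonneg _)
        rw [h0]
        exact_mod_cast h2
      rw [h1]
      unfold VP
      rw [Finset.prod_empty]
      exact Real.exp_le_one_iff.2 (by linarith)
    · refine le_trans ?_ (VP_ge z w h0)
      have hw0 : (0 : ℝ) < w := by exact_mod_cast h0
      rw [Real.exp_neg, ← one_div]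
      exact one_div_le_one_div_of_le hw0 hw
  · rcases Nat.eq_zero_or_pos w with h0 | h0
    · have h1 : G.prs z w = ∅ := by
        rw [← Finset.card_eq_zero]
        rw [h0, Nat.cast_zero] at hc
        have h2 : ((G.prs z 0).card : ℝ) = 0 := le_antisymm hc (Nat.cast_nonneg _)
        rw [h0]
        exact_mod_cast h2
      rw [h1, Finset.sum_empty]
      linarith
    · refine (sum_inv z w h0).trans ?_
      have hw0 : (0 : ℝ) < w := by exact_mod_cast h0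
      have h1 : Real.log w ≤ W := by
        rw [← Real.log_exp W]
        exact Real.log_le_log hw0 hw
      linarith
  · rw [Real.exp_add]
    have h3 := cheb_three
    have h4 : 3 * Real.exp W ≤ Real.exp 2 * Real.exp W := mul_le_mul_of_nonneg_right h3 (Real.exp_pos W).le
    linarith

theorem cheb (A D : ℕ) : ∃ X0 : ℕ, ∀ X : ℕ, X0 ≤ X → ∀ z w : ℕ, 1 ≤ z →
    (z : ℝ) ≤ Real.log X / 3 → (w : ℝ) ≤ (Real.log ((2 * X : ℕ) : ℝ)) ^ D →
    ∀ h : ℕ, ∀ S : Finset ℕ, S ⊆ Icc 1 X → (X : ℝ) / (Real.log X) ^ A ≤ S.card →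
    ∀ δ : ℝ, 0 < δ → δ ≤ 1 →
    (((NC X (primorial z) h).filter fun n =>
      ¬ |(TT (G.prs z w) S n : ℝ) - S.card * VP (G.prs z w)| ≤
        δ * (S.card * VP (G.prs z w))).card : ℝ) ≤
      4 * (A + 1) * Real.log (Real.log X) / (δ ^ 2 * z) * ((X : ℝ) / primorial z) := by
  obtain ⟨X0, hX0⟩ := cheb_large (A + (8 * D + 11) * (D + 1) + 2 * D + 3)
  refine ⟨X0, fun X hX z w hz hzL hw h S hS hcard δ hδ hδ1 => ?_⟩
  obtain ⟨hl3, hCl, hL0, hX1⟩ := hX0 X hX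
  obtain ⟨L, hL⟩ : ∃ L : ℝ, L = Real.log X := ⟨_, rfl⟩
  obtain ⟨l, hl⟩ : ∃ l : ℝ, l = Real.log L := ⟨_, rfl⟩
  rw [← hL] at hl3 hCl hL0 hzL hcard ⊢
  rw [← hl] at hl3 hCl ⊢
  have hLe : L = Real.exp l := by rw [hl, Real.exp_log hL0]
  have hX0' : (0 : ℝ) < X := by exact_mod_cast hX1
  have hXe : (X : ℝ) = Real.exp L := by rw [hL, Real.exp_log hX0']
  have hA0 : (0 : ℝ) ≤ A := Nat.cast_nonneg A
  have hD0 : (0 : ℝ) ≤ D := Nat.cast_nonneg D
  have hz1 : (1 : ℝ) ≤ z := by exact_mod_cast hz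
  have hz0 : (0 : ℝ) < z := by linarith
  have hL4 : 4 ≤ L := by
    have := Real.add_one_le_exp l
    linarith
  -- the modulus
  obtain ⟨Q, hQ⟩ : ∃ Q : ℕ, Q = primorial z := ⟨_, rfl⟩
  have hQpos : 0 < Q := by rw [hQ]; exact primorial_pos z
  have hQ0 : (0 : ℝ) < Q := by exact_mod_cast hQpos
  have hQe : (Q : ℝ) ≤ Real.exp (L / 2) := by
    have h1 : (Q : ℝ) ≤ (4 : ℝ) ^ z := by
      rw [hQ]
      exact_mod_cast primorial_le_four_pow z
    have h2 : (4 : ℝ) ^ z = Real.exp (z * Real.log 4) := by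
      rw [← Real.log_pow, Real.exp_log (by positivity)]
    rw [h2] at h1
    refine h1.trans (Real.exp_le_exp.2 ?_)
    have h3 : Real.log 4 ≤ 3 / 2 := by
      have h4 : Real.log 4 = 2 * Real.log 2 := by
        rw [show (4 : ℝ) = 2 ^ 2 by norm_num, Real.log_pow]
        norm_num
      have := Real.log_two_lt_d9
      rw [h4]
      linarith
    have h5 : (z : ℝ) * Real.log 4 ≤ z * (3 / 2) := mul_le_mul_of_nonneg_left h3 hz0.le
    linarith
  obtain ⟨Y, hY⟩ : ∃ Y : ℝ, Y = (X : ℝ) / Q := ⟨_, rfl⟩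
  have hYe : Real.exp (L / 2) ≤ Y := by
    rw [hY, le_div_iff₀ hQ0, hXe]
    calc Real.exp (L / 2) * Q ≤ Real.exp (L / 2) * Real.exp (L / 2) :=
          mul_le_mul_of_nonneg_left hQe (Real.exp_pos _).le
      _ = Real.exp L := by
          rw [← Real.exp_add]
          congr 1
          ring
  have hY1 : 1 ≤ Y := (Real.one_le_exp (by linarith)).trans hYe
  have hY0 : 0 < Y := by linarith
  rw [← hQ, ← hY]
  obtain ⟨P, hP⟩ : ∃ P : Finset ℕ, P = G.prs z w := ⟨_, rfl⟩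
  obtain ⟨V, hV⟩ : ∃ V : ℝ, V = VP P := ⟨_, rfl⟩
  rw [← hP, ← hV]
  obtain ⟨B, hB⟩ : ∃ B : Finset ℕ, B = (NC X Q h).filter fun n =>
      ¬ |(TT P S n : ℝ) - S.card * V| ≤ δ * (S.card * V) := ⟨_, rfl⟩
  rw [← hB]
  have hδz : 0 < δ ^ 2 * z := by positivity
  -- the case of small z
  rcases lt_or_ge (z : ℝ) (A * l + 3) with hcase | hcase
  · have h1 : (B.card : ℝ) ≤ (NC X Q h).card := by
      rw [hB]
      exact_mod_cast Finset.card_filter_le _ _
    have h2 := abs_le.1 (card_NC X Q h hQpos)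
    rw [← hY] at h2
    have h3 : (B.card : ℝ) ≤ 3 * Y := by linarith [h2.2]
    refine h3.trans (mul_le_mul_of_nonneg_right ?_ hY0.le)
    rw [le_div_iff₀ hδz]
    have h4 : δ ^ 2 * z ≤ 1 * z := mul_le_mul_of_nonneg_right (pow_le_one₀ hδ.le hδ1) hz0.le
    have h5 : 0 ≤ A * l := mul_nonneg hA0 (by linarith)
    have h6 : 4 * ((A : ℝ) + 1) * l = 4 * (A * l) + 4 * l := by ring
    rw [h6]
    linarith
  -- the sieve
  obtain ⟨s, hs⟩ : ∃ s : ℝ, s = (S.card : ℝ) := ⟨_, rfl⟩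
  rw [← hs] at hcard
  have hLA : L ^ A = Real.exp (A * l) := by
    rw [hLe, ← Real.exp_nat_mul]
  have hse : Real.exp (L - A * l) ≤ s := by
    rw [Real.exp_sub, ← hXe, ← hLA]
    exact hcard
  have hs0 : 0 < s := (Real.exp_pos _).trans_le hse
  have hne : S.Nonempty := by
    rw [← Finset.card_pos]
    rw [hs] at hs0
    exact_mod_cast hs0
  obtain ⟨W, hW⟩ : ∃ W : ℝ, W = D * (l + 1) := ⟨_, rfl⟩
  have hW0 : 0 ≤ W := by
    rw [hW]
    exact mul_nonneg hD0 (by linarith)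
  have hwW : (w : ℝ) ≤ Real.exp W := by
    refine hw.trans ?_
    rw [hW, Real.exp_nat_mul]
    have h1 : Real.log ((2 * X : ℕ) : ℝ) = Real.log 2 + L := by
      push_cast
      rw [Real.log_mul (by norm_num) hX0'.ne', hL]
    have h2 := Real.log_two_lt_d9
    have h3 := Real.log_two_gt_d9
    have h4 : Real.log ((2 * X : ℕ) : ℝ) ≤ Real.exp (l + 1) := by
      rw [h1, Real.exp_add, ← hLe]
      have h5 := mul_le_mul_of_nonneg_left (Real.add_one_le_exp (1 : ℝ)) hL0.le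
      linarith
    exact pow_le_pow_left₀ (by rw [h1]; linarith) h4 D
  obtain ⟨hVe, hσ, hPc⟩ := cheb_primes z w W hW0 hwW
  rw [← hP] at hVe hσ hPc
  rw [← hV] at hVe
  obtain ⟨m, hm⟩ : ∃ m : ℝ, m = 1 + 2 * (P.card : ℝ) := ⟨_, rfl⟩
  have hm0 : 0 ≤ m := by
    rw [hm]
    have : (0 : ℝ) ≤ (P.card : ℝ) := Nat.cast_nonneg _
    linarith
  rw [← hm] at hPc
  have hV0 : 0 < V := (Real.exp_pos _).trans_le hVe
  have hV2 : Real.exp (-(2 * W)) ≤ V ^ 2 := by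
    have h1 : Real.exp (-(2 * W)) = Real.exp (-W) ^ 2 := by
      rw [pow_two, ← Real.exp_add]
      congr 1
      ring
    rw [h1]
    exact pow_le_pow_left₀ (Real.exp_pos _).le hVe 2
  obtain ⟨R, hR⟩ : ∃ R : ℕ, R = ⌈(8 * (D : ℝ) + 10) * (l + 2)⌉₊ := ⟨_, rfl⟩
  have hR1 : (8 * (D : ℝ) + 10) * (l + 2) ≤ R := by
    rw [hR]
    exact Nat.le_ceil _
  have hR2 : (R : ℝ) ≤ (8 * (D : ℝ) + 10) * (l + 2) + 1 := by
    rw [hR]
    exact (Nat.ceil_lt_add_one (mul_nonneg (by linarith) (by linarith))).le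
  obtain ⟨hc1, hc2⟩ := cheb_arith A D l R hl3 hR2
  rw [← hW] at hc1 hc2
  have hc1' := hc1.trans hCl
  have hc2' := hc2.trans hCl
  have h3L : Real.exp (-(2 + l)) ≤ 1 / (3 * L) := by
    rw [Real.exp_neg, ← one_div, Real.exp_add, ← hLe]
    exact one_div_le_one_div_of_le (by positivity) (mul_le_mul_of_nonneg_right cheb_three hL0.le)
  -- the three error terms
  have hi : 1 ≤ s * V ^ 2 * (1 / (3 * L)) := by
    calc (1 : ℝ) ≤ Real.exp (L - A * l + -(2 * W) + -(2 + l)) := Real.one_le_exp (by linarith)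
      _ = Real.exp (L - A * l) * Real.exp (-(2 * W)) * Real.exp (-(2 + l)) := by
          rw [Real.exp_add, Real.exp_add]
      _ ≤ s * V ^ 2 * (1 / (3 * L)) := by gcongr
  have hii : 40 * Real.exp (6 * (∑ p ∈ P, (1 : ℝ) / p) - R) ≤ V ^ 2 * (1 / (3 * L)) := by
    have h40 : (40 : ℝ) ≤ Real.exp 8 := by
      have h1 : Real.exp 8 = Real.exp 2 ^ 4 := by
        rw [← Real.exp_nat_mul]
        congr 1
        norm_num
      rw [h1]
      calc (40 : ℝ) ≤ 3 ^ 4 := by norm_num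
        _ ≤ Real.exp 2 ^ 4 := pow_le_pow_left₀ (by norm_num) cheb_three 4
    have hRR : 8 * W + 8 * D + 10 * l + 20 ≤ R := by
      rw [hW]
      linarith
    calc 40 * Real.exp (6 * (∑ p ∈ P, (1 : ℝ) / p) - R)
        ≤ Real.exp 8 * Real.exp (6 * (1 + W) - R) := by gcongr
      _ = Real.exp (8 + (6 * (1 + W) - R)) := by rw [← Real.exp_add]
      _ ≤ Real.exp (-(2 * W) + -(2 + l)) := Real.exp_le_exp.2 (by linarith)
      _ = Real.exp (-(2 * W)) * Real.exp (-(2 + l)) := Real.exp_add _ _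
      _ ≤ V ^ 2 * (1 / (3 * L)) := by gcongr
  have hiii : 8 * m ^ R ≤ V ^ 2 * Y * (1 / (3 * L)) := by
    have h8 : (8 : ℝ) ≤ Real.exp 4 := by
      have h1 : Real.exp 4 = Real.exp 2 ^ 2 := by
        rw [← Real.exp_nat_mul]
        congr 1
        norm_num
      rw [h1]
      calc (8 : ℝ) ≤ 3 ^ 2 := by norm_num
        _ ≤ Real.exp 2 ^ 2 := pow_le_pow_left₀ (by norm_num) cheb_three 2
    have hPR : m ^ R ≤ Real.exp (2 + W) ^ R := pow_le_pow_left₀ hm0 hPc R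
    calc 8 * m ^ R ≤ Real.exp 4 * Real.exp (2 + W) ^ R :=
          mul_le_mul h8 hPR (pow_nonneg hm0 R) (Real.exp_pos 4).le
      _ = Real.exp (4 + R * (2 + W)) := by rw [← Real.exp_nat_mul, ← Real.exp_add]
      _ ≤ Real.exp (-(2 * W) + L / 2 + -(2 + l)) := Real.exp_le_exp.2 (by linarith)
      _ = Real.exp (-(2 * W)) * Real.exp (L / 2) * Real.exp (-(2 + l)) := by
          rw [Real.exp_add, Real.exp_add]
      _ ≤ V ^ 2 * Y * (1 / (3 * L)) := by gcongr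
  -- the variance
  have hPp : ∀ p ∈ P, p.Prime ∧ z < p := fun p hp => by
    rw [hP, G.mem_prs] at hp
    exact ⟨hp.2.2, hp.1⟩
  have hcop : ∀ p ∈ P, Nat.Coprime Q p := fun p hp => by
    obtain ⟨h1, h2⟩ := hPp p hp
    rw [Nat.coprime_comm, Nat.Prime.coprime_iff_not_dvd h1, hQ, G.dvd_primorial_iff h1]
    omega
  have hvar := variance X z Q h R hX1 hz hQpos P hPp hcop S hS hne
  rw [← hY, ← hV, ← hs] at hvar
  have hEr : Er X Q P R = Y * (10 * Real.exp (6 * (∑ p ∈ P, (1 : ℝ) / p) - R)) +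
      2 * m ^ R := by
    rw [hY, hm]
    rfl
  obtain ⟨t, ht⟩ : ∃ t : ℝ, t = (A * l + 3) / z := ⟨_, rfl⟩
  have ht0 : 0 ≤ t := by
    rw [ht]
    have : 0 ≤ A * l := mul_nonneg hA0 (by linarith)
    positivity
  have ht1 : t ≤ 1 := by
    rw [ht, div_le_one hz0]
    exact hcase
  have hexp : Real.exp ((Real.log ((X : ℝ) / s) + 3) / z) - 1 ≤ 2 * t := by
    have h1 : Real.log ((X : ℝ) / s) ≤ A * l := by
      rw [hXe, Real.log_div (Real.exp_pos L).ne' hs0.ne', Real.log_exp]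
      have h2 : L - A * l ≤ Real.log s := by
        rw [← Real.log_exp (L - A * l)]
        exact Real.log_le_log (Real.exp_pos _) hse
      linarith
    have h2 : (Real.log ((X : ℝ) / s) + 3) / z ≤ t := by
      rw [ht]
      gcongr
    have h3 := Real.exp_le_exp.2 h2
    have h4 := Real.abs_exp_sub_one_le (x := t) (by rw [abs_of_nonneg ht0]; exact ht1)
    rw [abs_of_nonneg ht0] at h4
    have h5 := (abs_le.1 h4).2
    linarith
  have hcheb : (B.card : ℝ) * (δ * (s * V)) ^ 2 ≤ ∑ n ∈ NC X Q h, ((TT P S n : ℝ) - s * V) ^ 2 := by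
    have h1 : ∀ n ∈ B, (δ * (s * V)) ^ 2 ≤ ((TT P S n : ℝ) - s * V) ^ 2 := by
      intro n hn
      rw [hB, Finset.mem_filter, ← hs] at hn
      rw [← sq_abs ((TT P S n : ℝ) - s * V)]
      exact pow_le_pow_left₀ (by positivity) (not_le.1 hn.2).le 2
    have h2 := Finset.card_nsmul_le_sum B _ _ h1
    rw [nsmul_eq_mul] at h2
    refine h2.trans (Finset.sum_le_sum_of_subset_of_nonneg ?_ fun _ _ _ => by positivity)
    rw [hB]
    exact Finset.filter_subset _ _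
  have hsv0 : 0 < (s * V) ^ 2 := by positivity
  have hfin : (B.card : ℝ) * δ ^ 2 * (s * V) ^ 2 ≤ Y * (2 * t + 1 / L) * (s * V) ^ 2 := by
    have h1 : Y * (s * V) ^ 2 * (Real.exp ((Real.log ((X : ℝ) / s) + 3) / z) - 1) ≤
        Y * (s * V) ^ 2 * (2 * t) := mul_le_mul_of_nonneg_left hexp (by positivity)
    have h2 : Y * s ≤ Y * (s * V) ^ 2 * (1 / (3 * L)) := by
      have h3 := mul_le_mul_of_nonneg_left hi (by positivity : 0 ≤ Y * s)
      calc Y * s = Y * s * 1 := (mul_one _).symm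
        _ ≤ Y * s * (s * V ^ 2 * (1 / (3 * L))) := h3
        _ = Y * (s * V) ^ 2 * (1 / (3 * L)) := by ring
    have h3 : 4 * s ^ 2 * Er X Q P R ≤ 2 * (Y * (s * V) ^ 2 * (1 / (3 * L))) := by
      have h4 := mul_le_mul_of_nonneg_left hii (by positivity : 0 ≤ Y * s ^ 2)
      have h5 := mul_le_mul_of_nonneg_left hiii (by positivity : 0 ≤ s ^ 2)
      rw [hEr]
      calc 4 * s ^ 2 * (Y * (10 * Real.exp (6 * (∑ p ∈ P, (1 : ℝ) / p) - R)) +
            2 * m ^ R)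
          = Y * s ^ 2 * (40 * Real.exp (6 * (∑ p ∈ P, (1 : ℝ) / p) - R)) +
            s ^ 2 * (8 * m ^ R) := by ring
        _ ≤ Y * s ^ 2 * (V ^ 2 * (1 / (3 * L))) + s ^ 2 * (V ^ 2 * Y * (1 / (3 * L))) := add_le_add h4 h5
        _ = 2 * (Y * (s * V) ^ 2 * (1 / (3 * L))) := by ring
    have h4 : 3 * (1 / (3 * L)) = 1 / L := by
      field_simp
    calc (B.card : ℝ) * δ ^ 2 * (s * V) ^ 2 = (B.card : ℝ) * (δ * (s * V)) ^ 2 := by ring
      _ ≤ Y * (s * V) ^ 2 * (2 * t) + Y * (s * V) ^ 2 * (1 / (3 * L)) +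
          2 * (Y * (s * V) ^ 2 * (1 / (3 * L))) := by linarith
      _ = Y * (2 * t + 3 * (1 / (3 * L))) * (s * V) ^ 2 := by ring
      _ = Y * (2 * t + 1 / L) * (s * V) ^ 2 := by rw [h4]
  have hfin2 : (B.card : ℝ) * δ ^ 2 ≤ Y * (2 * t + 1 / L) := le_of_mul_le_mul_right hfin hsv0
  have h1L : 1 / L ≤ 1 / z := one_div_le_one_div_of_le hz0 (by linarith)
  have h2t : 2 * t + 1 / L ≤ 4 * (A + 1) * l / z := by
    calc 2 * t + 1 / L ≤ 2 * ((A * l + 3) / z) + 1 / z := by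
          rw [ht]
          linarith
      _ = (2 * (A * l + 3) + 1) / z := by ring
      _ ≤ 4 * (A + 1) * l / z := by
          refine div_le_div_of_nonneg_right ?_ hz0.le
          have h5 : 0 ≤ A * l := mul_nonneg hA0 (by linarith)
          have h6 : 4 * ((A : ℝ) + 1) * l = 4 * (A * l) + 4 * l := by ring
          rw [h6]
          linarith
  have hfin3 := hfin2.trans (mul_le_mul_of_nonneg_left h2t hY0.le)
  have e1 : 4 * (A + 1) * l / (δ ^ 2 * z) * Y = Y * (4 * (A + 1) * l / z) / δ ^ 2 := by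
    field_simp
  rw [e1, le_div_iff₀ (by positivity)]
  exact hfin3

end Pool.Agent.Lib.MP_e3f158_nt.CL
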