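import Pool.Agent.Lib.MP_e3f158_nt.CL.Cls

/-!
# MP_e3f158_nt, project CL: the model (module CLX-Model)

PROOF. All `r ∈ R` satisfy `r ≤ X/2 < n`, so the filter `r < n` is all of `R`, and
`X/2 ≤ n - r ≤ 2X`, so `log (X/2) ≤ log (n - r) ≤ log (2X)`, both positive (`X ≥ 16`).
`Coprime (n - r) (primorial w)` iff `Coprime (n - r) (primorial z)` and no prime of `prs z w` divides
`n - r` (`G.coprime_primorial_iff`, `G.mem_prs`), i.e. iff `r ∈ Sh R (primorial z) n = Sh R (primorial z) h`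
(`Sh_nat`, `Sh_modEq`) and `∀ p ∈ prs z w, ¬ p ∣ n - r`. So the sum `Z` has `T` non-zero terms
`(primorial w / φ(primorial w)) / log (n - r)`, and `primorial w / φ(primorial w) =
(primorial z / φ(primorial z)) / VP (prs z w)` (`tot_mul`).
-/

set_option autoImplicit false

namespace Pool.Agent.Lib.MP_e3f158_nt.CL

open Finset

theorem model (X z w h n : ℕ) (hX : 16 ≤ X) (hzw : z ≤ w) (R : Finset ℕ)
    (hR : R ⊆ Icc 1 (X / 2)) (hn : n ∈ NC X (primorial z) h) (T V q Z : ℝ)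
    (hT : T = (TT (G.prs z w) (Sh R (primorial z) h) n : ℝ)) (hV : V = VP (G.prs z w))
    (hq : q = (primorial z : ℝ) / (Nat.totient (primorial z) : ℝ))
    (hZ : Z = ∑ r ∈ R.filter (fun r => r < n), (if Nat.Coprime (n - r) (primorial w) then
      (primorial w : ℝ) / (Nat.totient (primorial w) : ℝ) else 0) / Real.log ((n - r : ℕ) : ℝ)) :
    q * (T / V) / Real.log ((2 * X : ℕ) : ℝ) ≤ Z ∧ Z ≤ q * (T / V) / Real.log ((X : ℝ) / 2) := by
  classical
  unfold NC at hn
  rw [mem_filter, mem_Ioc] at hn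
  obtain ⟨⟨hn1, hn2⟩, hnh⟩ := hn
  have hr : ∀ r ∈ R, 1 ≤ r ∧ r ≤ X / 2 := fun r hr => mem_Icc.1 (hR hr)
  have hf : R.filter (fun r => r < n) = R := by
    apply filter_true_of_mem
    intro r h
    have := hr r h
    omega
  rw [hf] at hZ
  obtain ⟨c, hc⟩ : ∃ c : ℝ, c = (primorial w : ℝ) / (Nat.totient (primorial w) : ℝ) := ⟨_, rfl⟩
  have hc0 : 0 ≤ c := by rw [hc]; positivity
  have hcq : c = q / V := by
    have h1 := tot_mul z w hzw
    rw [hc, hq, hV, ← inv_div, h1, mul_inv, inv_div]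
    exact (div_eq_mul_inv _ _).symm
  have hS : R.filter (fun r => Nat.Coprime (n - r) (primorial w)) =
      (Sh R (primorial z) h).filter fun r => ∀ p ∈ G.prs z w, ¬ p ∣ n - r := by
    rw [← Sh_modEq R (primorial z) n h hnh, Sh_nat R (primorial z) n (fun r h => by have := hr r h; omega),
      filter_filter]
    apply filter_congr
    intro r _
    rw [G.coprime_primorial_iff, G.coprime_primorial_iff]
    constructor
    · intro h1
      refine ⟨fun p hp hpz => h1 p hp (hpz.trans hzw), fun p hp => ?_⟩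
      rw [G.mem_prs] at hp
      exact h1 p hp.2.2 hp.2.1
    · rintro ⟨h1, h2⟩ p hp hpw
      rcases le_or_gt p z with h3 | h3
      · exact h1 p hp h3
      · exact h2 p (G.mem_prs.2 ⟨h3, hpw, hp⟩)
  have hTc : T = ((R.filter (fun r => Nat.Coprime (n - r) (primorial w))).card : ℝ) := by
    rw [hT, hS]
    rfl
  have hZ2 : Z = ∑ r ∈ R.filter (fun r => Nat.Coprime (n - r) (primorial w)),
      c / Real.log ((n - r : ℕ) : ℝ) := by
    rw [hZ, sum_filter]
    refine sum_congr rfl fun r _ => ?_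
    split_ifs
    · rw [hc]
    · simp
  have hX2 : (16 : ℝ) ≤ X := by exact_mod_cast hX
  have hlow : ∀ r ∈ R, (X : ℝ) / 2 ≤ ((n - r : ℕ) : ℝ) ∧ ((n - r : ℕ) : ℝ) ≤ ((2 * X : ℕ) : ℝ) := by
    intro r h
    have h1 := hr r h
    constructor
    · have h2 : X ≤ 2 * (n - r) := by omega
      have h3 : (X : ℝ) ≤ 2 * ((n - r : ℕ) : ℝ) := by exact_mod_cast h2
      linarith
    · have h2 : n - r ≤ 2 * X := by omega
      exact_mod_cast h2
  have hlog0 : 0 < Real.log ((X : ℝ) / 2) := Real.log_pos (by linarith)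
  have hterm : ∀ r ∈ R, c / Real.log ((2 * X : ℕ) : ℝ) ≤ c / Real.log ((n - r : ℕ) : ℝ) ∧
      c / Real.log ((n - r : ℕ) : ℝ) ≤ c / Real.log ((X : ℝ) / 2) := by
    intro r h
    obtain ⟨h1, h2⟩ := hlow r h
    have h3 : Real.log ((X : ℝ) / 2) ≤ Real.log ((n - r : ℕ) : ℝ) :=
      Real.log_le_log (by linarith) h1
    have h4 : Real.log ((n - r : ℕ) : ℝ) ≤ Real.log ((2 * X : ℕ) : ℝ) :=
      Real.log_le_log (by linarith) h2
    exact ⟨div_le_div_of_nonneg_left hc0 (by linarith) h4,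
      div_le_div_of_nonneg_left hc0 hlog0 h3⟩
  have hqT : ∀ L : ℝ, q * (T / V) / L = ∑ _r ∈ R.filter (fun r => Nat.Coprime (n - r) (primorial w)),
      c / L := by
    intro L
    rw [sum_const, nsmul_eq_mul, ← hTc, hcq]
    ring
  rw [hqT, hqT, hZ2]
  exact ⟨sum_le_sum fun r h => (hterm r (mem_of_mem_filter r h)).1,
    sum_le_sum fun r h => (hterm r (mem_of_mem_filter r h)).2⟩

end Pool.Agent.Lib.MP_e3f158_nt.CL
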