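import Pool.Agent.Lib.MP_e3f158_nt.CL.Ana
import Pool.Agent.Lib.MP_e3f158_nt.CL.Cheb
import Pool.Agent.Lib.MP_e3f158_nt.CL.Model

/-!
# MP_e3f158_nt, project CL: almost all n of all but few classes (module CLX-Core)
-/

set_option autoImplicit false

namespace Pool.Agent.Lib.MP_e3f158_nt.CL

open Finset Filter U Pool.MP_dd84fd_nt.E2

/-- The expected number of representations. -/
noncomputable def Mh (R : Finset ℕ) (X Q h : ℕ) : ℝ :=
  (Q : ℝ) * ((Sh R Q h).card : ℝ) / ((Nat.totient Q : ℝ) * Real.log X)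

/-- The algebra of the error terms. -/
theorem alg (δ M L l2 RAn RZ q T V S e : ℝ) (hδ : 0 < δ) (hδ1 : δ ≤ 1) (hM : 0 < M)
    (hq : 0 < q) (hV : 0 < V) (hS : 0 < S) (hL : 0 < L) (hMd : M = q * S / L)
    (hl2 : 0 < l2) (hLδ : 8 * l2 ≤ δ * (L - l2)) (hLl : 0 < L - l2)
    (hlo : q * (T / V) / (L + l2) ≤ RZ) (hup : RZ ≤ q * (T / V) / (L - l2))
    (hT : |T - S * V| ≤ δ / 4 * (S * V)) (he : |RAn - RZ| ≤ e) (heM : e ≤ δ / 8 * M) :
    |RAn - M| ≤ δ * M := by
  have hSV : 0 < S * V := mul_pos hS hV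
  obtain ⟨hT1, hT2⟩ := abs_le.1 hT
  obtain ⟨he1, he2⟩ := abs_le.1 he
  have hTV1 : T / V ≤ S * (1 + δ / 4) := by
    rw [div_le_iff₀ hV]
    nlinarith
  have hTV2 : S * (1 - δ / 4) ≤ T / V := by
    rw [le_div_iff₀ hV]
    nlinarith
  have hML : M * L = q * S := by rw [hMd]; field_simp
  -- upper bound
  have hu1 : q * (T / V) / (L - l2) ≤ M * (1 + δ / 4) * (1 + δ / 8) := by
    rw [div_le_iff₀ hLl]
    have h1 : q * (T / V) ≤ q * (S * (1 + δ / 4)) := mul_le_mul_of_nonneg_left hTV1 hq.le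
    have h2 : q * (S * (1 + δ / 4)) = M * L * (1 + δ / 4) := by rw [hML]; ring
    have h3 : L ≤ (1 + δ / 8) * (L - l2) := by nlinarith
    have h4 : M * (1 + δ / 4) * L ≤ M * (1 + δ / 4) * ((1 + δ / 8) * (L - l2)) :=
      mul_le_mul_of_nonneg_left h3 (by positivity)
    calc q * (T / V) ≤ M * L * (1 + δ / 4) := by rw [← h2]; exact h1
      _ = M * (1 + δ / 4) * L := by ring
      _ ≤ _ := h4
      _ = _ := by ring
  have hl1 : M * (1 - δ / 4) * (1 - δ / 8) ≤ q * (T / V) / (L + l2) := by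
    rw [le_div_iff₀ (by linarith)]
    have h1 : q * (S * (1 - δ / 4)) ≤ q * (T / V) := mul_le_mul_of_nonneg_left hTV2 hq.le
    have h2 : q * (S * (1 - δ / 4)) = M * L * (1 - δ / 4) := by rw [hML]; ring
    have h3 : (1 - δ / 8) * (L + l2) ≤ L := by nlinarith
    have h4 : M * (1 - δ / 4) * ((1 - δ / 8) * (L + l2)) ≤ M * (1 - δ / 4) * L :=
      mul_le_mul_of_nonneg_left h3 (mul_nonneg hM.le (by linarith))
    calc M * (1 - δ / 4) * (1 - δ / 8) * (L + l2) = M * (1 - δ / 4) * ((1 - δ / 8) * (L + l2)) := by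
          ring
      _ ≤ _ := h4
      _ = M * L * (1 - δ / 4) := by ring
      _ ≤ _ := by rw [← h2]; exact h1
  have hδM : 0 < δ * M := mul_pos hδ hM
  have hδδM : δ * (δ * M) ≤ δ * M := by nlinarith
  rw [abs_le]
  constructor
  · nlinarith
  · nlinarith

theorem bad_arith (b X Q L : ℝ) (B : ℕ) (hX : 0 < X) (hQ : 0 < Q) (hL : 0 < L)
    (h : b * (X / Q / L ^ 2) ≤ X / L ^ (B + 2)) : b ≤ Q / L ^ B := by
  have h3 := mul_le_mul_of_nonneg_right h (show (0 : ℝ) ≤ Q * L ^ 2 / X by positivity)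
  have e1 : b * (X / Q / L ^ 2) * (Q * L ^ 2 / X) = b := by
    field_simp
  have e2 : X / L ^ (B + 2) * (Q * L ^ 2 / X) = Q / L ^ B := by
    rw [pow_add]
    field_simp
  rw [e1, e2] at h3
  exact h3

theorem mh_arith (s X q φ L : ℝ) (A : ℕ) (hX : 0 < X) (hq : 0 < q) (hφ : 0 < φ) (hφq : φ ≤ q)
    (hL : 0 < L) (hs : X / L ^ A ≤ s) :
    q * s / (φ * L) = q / φ * s / L ∧ 0 < q * s / (φ * L) ∧ X / L ^ (A + 1) ≤ q * s / (φ * L) := by
  have hs0 : 0 < s := lt_of_lt_of_le (by positivity) hs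
  refine ⟨by field_simp, by positivity, ?_⟩
  have h1 : 1 ≤ q / φ := by rw [le_div_iff₀ hφ, one_mul]; exact hφq
  calc X / L ^ (A + 1) = X / L ^ A / L := by rw [pow_succ]; field_simp
    _ ≤ s / L := by gcongr
    _ = 1 * s / L := by ring
    _ ≤ q / φ * s / L := by gcongr
    _ = q * s / (φ * L) := by field_simp

theorem aux1 (δ z L l A : ℝ) (hδL : δ ^ 2 * L < 1) (hz : z ≤ L / 3) (hl : 3 ≤ l) (hA : 0 ≤ A) :
    3 * (δ ^ 2 * z) ≤ 65 * (A + 1) * l := by
  have h1 : δ ^ 2 * z ≤ δ ^ 2 * (L / 3) := mul_le_mul_of_nonneg_left hz (sq_nonneg δ)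
  have h2 : δ ^ 2 * (L / 3) = δ ^ 2 * L / 3 := by ring
  have h3 : 0 ≤ A * l := mul_nonneg hA (by linarith)
  have h4 : 65 * (A + 1) * l = 65 * (A * l) + 65 * l := by ring
  linarith

theorem aux2 (δ L : ℝ) (hδ : 0 < δ) (hL : 100 ≤ L) (hδL : 1 ≤ δ ^ 2 * L) : 10 ≤ δ * L := by
  have h1 : 1 * L ≤ δ ^ 2 * L * L := mul_le_mul_of_nonneg_right hδL (by linarith)
  have h2 : 10 ^ 2 ≤ (δ * L) ^ 2 := by
    have : (δ * L) ^ 2 = δ ^ 2 * L * L := by ring
    rw [this]
    linarith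
  exact le_of_sq_le_sq h2 (mul_nonneg hδ.le (by linarith))

theorem aux3 (δ L l2 : ℝ) (hδ1 : δ ≤ 1) (hδL : 10 ≤ δ * L) (hl2 : 0.69 < l2)
    (hl2' : l2 < 0.7) : 8 * l2 ≤ δ * (L - l2) := by
  have h1 : δ * l2 ≤ 1 * l2 := mul_le_mul_of_nonneg_right hδ1 (by linarith)
  have h2 : δ * (L - l2) = δ * L - δ * l2 := by ring
  rw [h2]
  linarith

theorem aux4 (δ L : ℝ) (hL : 100 ≤ L) (hδL : 10 ≤ δ * L) : 1 ≤ δ / 8 * L ^ 2 := by
  have h1 : 10 * L ≤ δ * L * L := mul_le_mul_of_nonneg_right hδL (by linarith)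
  have h2 : δ / 8 * L ^ 2 = δ * L * L / 8 := by ring
  rw [h2]
  linarith

theorem aux5 (δ z L l : ℝ) (hδ : 0 < δ) (hδ1 : δ ≤ 1) (hz0 : 0 ≤ z) (hz : z ≤ L) (hL : 1 ≤ L)
    (hl : 1 ≤ l) : δ ^ 2 * z ≤ l * L ^ 2 := by
  have h1 : δ ^ 2 ≤ 1 := by
    calc δ ^ 2 ≤ 1 ^ 2 := pow_le_pow_left₀ hδ.le hδ1 2
      _ = 1 := one_pow 2
  have h2 : δ ^ 2 * z ≤ 1 * L := mul_le_mul h1 hz hz0 (by norm_num)
  have h3 : L * 1 ≤ L * L := mul_le_mul_of_nonneg_left hL (by linarith)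
  have h4 : 1 * (L * L) ≤ l * (L * L) := mul_le_mul_of_nonneg_right hl (by positivity)
  have h5 : l * L ^ 2 = l * (L * L) := by ring
  rw [h5]
  linarith

theorem aux6 (A l : ℝ) (hA : 0 ≤ A) (hl : 0 < l) : 64 * (A + 1) * l + l ≤ 65 * (A + 1) * l := by
  have h3 : 0 ≤ A * l := mul_nonneg hA hl.le
  have h4 : 65 * (A + 1) * l = 65 * (A * l) + 65 * l := by ring
  have h5 : 64 * (A + 1) * l = 64 * (A * l) + 64 * l := by ring
  linarith

/-- Facts about large `X`. -/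
theorem large (A : ℕ) : ∃ X0 : ℕ, ∀ X : ℕ, X0 ≤ X → 16 ≤ X ∧ 100 ≤ Real.log X ∧
    3 ≤ Real.log (Real.log X) ∧ (X : ℝ) = Real.exp (Real.log X) ∧
    2 * (Real.log X) ^ A ≤ X ∧ 2 ≤ (X : ℝ) := by
  have h1 : ∀ᶠ x : ℝ in atTop, 2 * x ^ A ≤ Real.exp x := by
    filter_upwards [(Real.tendsto_exp_div_pow_atTop A).eventually_ge_atTop 2,
      eventually_gt_atTop 0] with x h2 h3
    rw [le_div_iff₀ (by positivity)] at h2
    exact h2
  have hL : Tendsto (fun X : ℕ => Real.log X) atTop atTop :=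
    Real.tendsto_log_atTop.comp tendsto_natCast_atTop_atTop
  have hl : Tendsto (fun X : ℕ => Real.log (Real.log X)) atTop atTop :=
    Real.tendsto_log_atTop.comp hL
  obtain ⟨X0, hX0⟩ := eventually_atTop.1 ((eventually_ge_atTop 16).and
    ((hL.eventually_ge_atTop 100).and ((hl.eventually_ge_atTop 3).and (hL.eventually h1))))
  refine ⟨X0, fun X hX => ?_⟩
  obtain ⟨h3, h4, h5, h6⟩ := hX0 X hX
  have hXp : (0 : ℝ) < X := by
    have : (16 : ℝ) ≤ X := by exact_mod_cast h3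
    linarith
  have he : (X : ℝ) = Real.exp (Real.log X) := (Real.exp_log hXp).symm
  refine ⟨h3, h4, h5, he, ?_, ?_⟩
  · rw [← he] at h6
    exact h6
  · have : (16 : ℝ) ≤ X := by exact_mod_cast h3
    linarith

theorem primorial_le (X z : ℕ) (hX : 1 ≤ X) (hz : (z : ℝ) ≤ Real.log X / 3) :
    (primorial z : ℝ) ≤ X := by
  have h1 : (primorial z : ℝ) ≤ 4 ^ z := by exact_mod_cast primorial_le_four_pow z
  have hXp : (0 : ℝ) < X := by exact_mod_cast hX
  have h2 : (4 : ℝ) ^ z ≤ X := by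
    have h3 : (4 : ℝ) ^ z = Real.exp (z * Real.log 4) := by
      rw [← Real.log_pow, Real.exp_log (by positivity)]
    have h4 : Real.log 4 ≤ 2 := by
      have : Real.log 4 = 2 * Real.log 2 := by
        rw [show (4 : ℝ) = 2 ^ 2 by norm_num, Real.log_pow]
        norm_num
      have := Real.log_two_lt_d9
      linarith
    have hz0 : (0 : ℝ) ≤ z := by positivity
    have h5 : (z : ℝ) * Real.log 4 ≤ Real.log X := by nlinarith
    rw [h3]
    calc Real.exp (z * Real.log 4) ≤ Real.exp (Real.log X) := Real.exp_le_exp.2 h5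
      _ = X := Real.exp_log hXp
  exact h1.trans h2

theorem card_NC_le (X Q h : ℕ) (hQ : 0 < Q) (hQX : (Q : ℝ) ≤ X) :
    ((NC X Q h).card : ℝ) ≤ 3 * ((X : ℝ) / Q) := by
  have h1 := (abs_le.1 (card_NC X Q h hQ)).2
  have hQ' : (0 : ℝ) < Q := by exact_mod_cast hQ
  have h2 : 1 ≤ (X : ℝ) / Q := by rw [le_div_iff₀ hQ', one_mul]; exact hQX
  linarith

theorem core (A B : ℕ) : ∃ X0 : ℕ, ∀ X : ℕ, X0 ≤ X → ∀ R : Finset ℕ, R ⊆ Icc 1 (X / 2) →
    ∀ z : ℕ, 1 ≤ z → (z : ℝ) ≤ Real.log X / 3 →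
    ∃ Bad : Finset ℕ, Bad ⊆ range (primorial z) ∧
      (Bad.card : ℝ) ≤ (primorial z : ℝ) / (Real.log X) ^ B ∧
      ∀ h ∈ range (primorial z), h ∉ Bad →
        (X : ℝ) / (Real.log X) ^ A ≤ ((Sh R (primorial z) h).card : ℝ) →
        ∀ δ : ℝ, 0 < δ → δ ≤ 1 →
          (((NC X (primorial z) h).filter fun n => ¬ |RA R n - Mh R X (primorial z) h| ≤
            δ * Mh R X (primorial z) h).card : ℝ) ≤
          65 * (A + 1) * Real.log (Real.log X) / (δ ^ 2 * z) * ((X : ℝ) / primorial z) := by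
  classical
  obtain ⟨D, hD1, X1, hX1⟩ := ana (A + 3) (B + 2)
  obtain ⟨X2, hX2⟩ := cheb A D
  obtain ⟨X3, hX3⟩ := large A
  refine ⟨max X1 (max X2 X3), fun X hX R hR z hz1 hz => ?_⟩
  have hX1' : X1 ≤ X := (le_max_left _ _).trans hX
  have hX2' : X2 ≤ X := (le_max_left _ _).trans ((le_max_right _ _).trans hX)
  have hX3' : X3 ≤ X := (le_max_right _ _).trans ((le_max_right _ _).trans hX)
  obtain ⟨h16, hL100, hl3, -, hXA, hX2r⟩ := hX3 X hX3'
  have hAna := hX1 X hX1' R hR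
  have hCheb := hX2 X hX2'
  set L : ℝ := Real.log X with hL
  set l : ℝ := Real.log L with hl
  obtain ⟨Q, hQdef⟩ : ∃ Q : ℕ, Q = primorial z := ⟨_, rfl⟩
  rw [← hQdef]
  set w : ℕ := wX D (2 * X) with hw
  have hL0 : 0 < L := by linarith
  have hXp : (0 : ℝ) < X := by linarith
  have hQ0 : 0 < Q := by rw [hQdef]; exact primorial_pos z
  have hQr : (0 : ℝ) < Q := by exact_mod_cast hQ0
  have hQX : (Q : ℝ) ≤ X := by rw [hQdef]; exact primorial_le X z (by omega) hz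
  have hXQ : 0 < (X : ℝ) / Q := by positivity
  have hzr : (1 : ℝ) ≤ z := by exact_mod_cast hz1
  have hlog2X : Real.log ((2 * X : ℕ) : ℝ) = L + Real.log 2 := by
    push_cast
    rw [Real.log_mul (by norm_num) hXp.ne', add_comm]
  have hl2 := Real.log_two_gt_d9
  have hl2' := Real.log_two_lt_d9
  have hwle : (w : ℝ) ≤ (Real.log ((2 * X : ℕ) : ℝ)) ^ D := by
    rw [hw]
    unfold wX
    apply Nat.floor_le
    rw [hlog2X]
    have : 0 < L + Real.log 2 := by linarith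
    positivity
  have hzw : z ≤ w := by
    rw [hw]
    unfold wX
    apply Nat.le_floor
    rw [hlog2X]
    have h1 : (1 : ℝ) ≤ L + Real.log 2 := by linarith
    calc (z : ℝ) ≤ L + Real.log 2 := by linarith
      _ = (L + Real.log 2) ^ 1 := (pow_one _).symm
      _ ≤ (L + Real.log 2) ^ D := pow_le_pow_right₀ h1 hD1
  -- analytic exceptional set
  set F := (Ioc X (2 * X)).filter fun n => (X : ℝ) / L ^ (A + 3) < |RA R n - Rz w R n| with hF
  set Bad : Finset ℕ := (range Q).filter fun h => (X : ℝ) / Q / L ^ 2 <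
    (((NC X Q h).filter fun n => n ∈ F).card : ℝ) with hBad
  have hBadc : (Bad.card : ℝ) ≤ Q / L ^ B := by
    have h1 : ∑ h ∈ range Q, (((NC X Q h).filter fun n => n ∈ F).card : ℝ) ≤ F.card := by
      have h2 : ∑ h ∈ range Q, ((NC X Q h).filter fun n => n ∈ F).card =
          ((range Q).biUnion fun h => (NC X Q h).filter fun n => n ∈ F).card := by
        rw [card_biUnion]
        intro h1 hh1 h2 hh2 hne
        rw [Function.onFun, Finset.disjoint_left]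
        intro n hn hn'
        have e1 := (mem_filter.1 (mem_filter.1 hn).1).2
        have e2 := (mem_filter.1 (mem_filter.1 hn').1).2
        have e3 : h1 ≡ h2 [MOD Q] := e1.symm.trans e2
        have hh1' := mem_range.1 hh1
        have hh2' := mem_range.1 hh2
        rw [Nat.ModEq, Nat.mod_eq_of_lt hh1', Nat.mod_eq_of_lt hh2'] at e3
        exact hne e3
      rw [← Nat.cast_sum, h2]
      exact_mod_cast card_le_card (by
        intro n hn
        obtain ⟨h, _, hn'⟩ := mem_biUnion.1 hn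
        exact (mem_filter.1 hn').2)
    have h2 : (Bad.card : ℝ) * ((X : ℝ) / Q / L ^ 2) ≤ (X : ℝ) / L ^ (B + 2) := by
      calc (Bad.card : ℝ) * ((X : ℝ) / Q / L ^ 2) = ∑ h ∈ Bad, (X : ℝ) / Q / L ^ 2 := by
            rw [sum_const, nsmul_eq_mul]
        _ ≤ ∑ h ∈ Bad, (((NC X Q h).filter fun n => n ∈ F).card : ℝ) :=
            sum_le_sum fun h hh => (mem_filter.1 hh).2.le
        _ ≤ ∑ h ∈ range Q, (((NC X Q h).filter fun n => n ∈ F).card : ℝ) :=
            sum_le_sum_of_subset_of_nonneg (filter_subset _ _) fun _ _ _ => Nat.cast_nonneg _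
        _ ≤ F.card := h1
        _ ≤ _ := hAna
    exact bad_arith _ _ _ _ B hXp hQr hL0 h2
  refine ⟨Bad, filter_subset _ _, hBadc, fun h hh hhB hSh δ hδ hδ1 => ?_⟩
  set S := Sh R Q h with hS
  have hS0 : 0 < (S.card : ℝ) := lt_of_lt_of_le (by positivity) hSh
  have hSR : S ⊆ R := filter_subset _ _
  have hS1 : S ⊆ Icc 1 X := fun r hr => by
    have := mem_Icc.1 (hR (hSR hr))
    exact mem_Icc.2 (by omega)
  have hl0 : 0 < l := by linarith
  by_cases hδL : δ ^ 2 * L < 1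
  · -- trivial case
    have h1 := card_NC_le X Q h hQ0 hQX
    have h2 : (((NC X Q h).filter fun n => ¬ |RA R n - Mh R X Q h| ≤ δ * Mh R X Q h).card : ℝ) ≤
        ((NC X Q h).card : ℝ) := by exact_mod_cast card_le_card (filter_subset _ _)
    refine h2.trans (h1.trans ?_)
    apply mul_le_mul_of_nonneg_right _ hXQ.le
    rw [le_div_iff₀ (by positivity)]
    have hA0 : (0 : ℝ) ≤ A := Nat.cast_nonneg _
    exact aux1 δ z L l A hδL hz hl3 hA0
  push Not at hδL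
  -- main case
  have hfin : ((NC X Q h).filter fun n => ¬ |RA R n - Mh R X Q h| ≤ δ * Mh R X Q h) ⊆
      ((NC X Q h).filter fun n => ¬ |(TT (G.prs z w) S n : ℝ) - S.card * VP (G.prs z w)| ≤
        δ / 4 * (S.card * VP (G.prs z w))) ∪ ((NC X Q h).filter fun n => n ∈ F) := by
    intro n hn
    rw [mem_union]
    by_contra hcon
    rw [not_or, mem_filter, mem_filter] at hcon
    obtain ⟨hc1, hc2⟩ := hcon
    have hnNC := (mem_filter.1 hn).1
    have hnb := (mem_filter.1 hn).2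
    have hc1' : |(TT (G.prs z w) S n : ℝ) - S.card * VP (G.prs z w)| ≤
        δ / 4 * (S.card * VP (G.prs z w)) := by
      by_contra h1
      exact hc1 ⟨hnNC, h1⟩
    have hnI : n ∈ Ioc X (2 * X) := (mem_filter.1 hnNC).1
    have hc2' : |RA R n - Rz w R n| ≤ (X : ℝ) / L ^ (A + 3) := by
      by_contra h1
      push Not at h1
      exact hc2 ⟨hnNC, mem_filter.2 ⟨hnI, h1⟩⟩
    apply hnb
    have hmod := model X z w h n h16 hzw R hR (by rw [← hQdef]; exact hnNC)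
      (TT (G.prs z w) S n : ℝ) (VP (G.prs z w))
      ((Q : ℝ) / (Nat.totient Q : ℝ)) (Rz w R n) (by rw [hS, hQdef]) rfl (by rw [hQdef]) rfl
    have hφ : (0 : ℝ) < (Nat.totient Q : ℝ) := by exact_mod_cast Nat.totient_pos.2 hQ0
    have hlogh : Real.log ((X : ℝ) / 2) = L - Real.log 2 := by
      rw [Real.log_div hXp.ne' (by norm_num)]
    rw [hlog2X, hlogh] at hmod
    have hVpos : 0 < VP (G.prs z w) := by
      have hw1 : 1 ≤ w := hz1.trans hzw
      have hwr : (0 : ℝ) < w := by exact_mod_cast (by omega : 0 < w)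
      exact lt_of_lt_of_le (by positivity) (VP_ge z w hw1)
    obtain ⟨hMd', hMpos', hMge'⟩ := mh_arith (S.card : ℝ) X Q (Nat.totient Q : ℝ) L A hXp hQr hφ
      (by exact_mod_cast Nat.totient_le Q) hL0 hSh
    have hMM : Mh R X Q h = (Q : ℝ) * (S.card : ℝ) / ((Nat.totient Q : ℝ) * L) := rfl
    have hMd : Mh R X Q h = (Q : ℝ) / (Nat.totient Q : ℝ) * S.card / L := by rw [hMM]; exact hMd'
    have hMpos : 0 < Mh R X Q h := by rw [hMM]; exact hMpos'
    have hMge : (X : ℝ) / L ^ (A + 1) ≤ Mh R X Q h := by rw [hMM]; exact hMge'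
    have hqpos : 0 < (Q : ℝ) / (Nat.totient Q : ℝ) := div_pos hQr hφ
    have hδL2 : 10 ≤ δ * L := aux2 δ L hδ hL100 hδL
    refine alg δ (Mh R X Q h) L (Real.log 2) (RA R n) (Rz w R n) ((Q : ℝ) / (Nat.totient Q : ℝ))
      (TT (G.prs z w) S n : ℝ) (VP (G.prs z w)) S.card ((X : ℝ) / L ^ (A + 3)) hδ hδ1 hMpos
      hqpos hVpos hS0 hL0 hMd (by linarith)
      (aux3 δ L (Real.log 2) hδ1 hδL2 (by linarith) (by linarith)) (by linarith)
      hmod.1 hmod.2 hc1' hc2' ?_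
    have h2 : (X : ℝ) / L ^ (A + 3) = (X : ℝ) / L ^ (A + 1) / L ^ 2 := by
      rw [show A + 3 = (A + 1) + 2 by ring, pow_add]
      field_simp
    rw [h2, div_le_iff₀ (by positivity)]
    have h3 : 1 ≤ δ / 8 * L ^ 2 := aux4 δ L hL100 hδL2
    calc (X : ℝ) / L ^ (A + 1) ≤ Mh R X Q h := hMge
      _ = Mh R X Q h * 1 := (mul_one _).symm
      _ ≤ Mh R X Q h * (δ / 8 * L ^ 2) := mul_le_mul_of_nonneg_left h3 hMpos.le
      _ = _ := by ring
  have h1 : (((NC X Q h).filter fun n => ¬ |RA R n - Mh R X Q h| ≤ δ * Mh R X Q h).card : ℝ) ≤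
      (((NC X Q h).filter fun n => ¬ |(TT (G.prs z w) S n : ℝ) - S.card * VP (G.prs z w)| ≤
        δ / 4 * (S.card * VP (G.prs z w))).card : ℝ) +
      (((NC X Q h).filter fun n => n ∈ F).card : ℝ) := by
    exact_mod_cast (card_le_card hfin).trans (card_union_le _ _)
  have h2 := hCheb z w hz1 hz hwle h S hS1 hSh (δ / 4) (by positivity) (by linarith)
  rw [← hQdef] at h2
  have h3 : (((NC X Q h).filter fun n => n ∈ F).card : ℝ) ≤ (X : ℝ) / Q / L ^ 2 := by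
    by_contra h4
    push Not at h4
    exact hhB (mem_filter.2 ⟨hh, h4⟩)
  have h4 : (X : ℝ) / Q / L ^ 2 ≤ l / (δ ^ 2 * z) * ((X : ℝ) / Q) := by
    rw [div_eq_mul_one_div ((X : ℝ) / Q), mul_comm]
    apply mul_le_mul_of_nonneg_right _ hXQ.le
    rw [div_le_div_iff₀ (by positivity) (by positivity), one_mul]
    exact aux5 δ z L l hδ hδ1 (by linarith) (by linarith) (by linarith) (by linarith)
  refine h1.trans ((add_le_add h2 (h3.trans h4)).trans ?_)
  rw [← add_mul]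
  apply mul_le_mul_of_nonneg_right _ hXQ.le
  have e1 : 4 * ((A : ℝ) + 1) * l / ((δ / 4) ^ 2 * z) = 64 * (A + 1) * l / (δ ^ 2 * z) := by
    field_simp
    ring
  rw [e1, ← add_div]
  apply div_le_div_of_nonneg_right _ (by positivity)
  exact aux6 A l (Nat.cast_nonneg _) hl0

end Pool.Agent.Lib.MP_e3f158_nt.CL
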