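import Pool.Agent.Lib.MP_e3f158_nt.CL.Defs
import Pool.Agent.Lib.MP_e3f158_nt.CL.Sieve

/-!
# MP_e3f158_nt, project CL: pairs of shifts (module CLX-Count)

PROOF of `count2`. For `n > X ≥ r`: `p ∣ n - r ↔ n % p = r % p`. The set is
`{n < 2X+1 : n ≡ h, ∀ p ∈ P, n % p ∉ B p}` minus `{n < X+1 : ...}` with `B p = {r % p, r' % p}`,
`|B p| = 1` or `2`. Apply `sieve2` with `j = 2` to `N = 2X+1` and to `N = X+1` and subtract; main
term `((2X+1) - (X+1))/Q = X/Q`; errors `(3X+2)/Q * 2 exp(..) ≤ 10 X/Q exp(..)`.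
PROOF of `card_NC`: the same for `P = ∅` (or directly with `card_class` of `Brun.lean`).
-/

set_option autoImplicit false

namespace Pool.Agent.Lib.MP_e3f158_nt.CL

open Finset

private theorem Count_sdiff (X Q h : ℕ) (q : ℕ → Prop) [DecidablePred q] :
    (((NC X Q h).filter q).card : ℝ) =
      (((range (2 * X + 1)).filter fun n => n ≡ h [MOD Q] ∧ q n).card : ℝ) -
      (((range (X + 1)).filter fun n => n ≡ h [MOD Q] ∧ q n).card : ℝ) := by
  have h1 : (range (X + 1)).filter (fun n => n ≡ h [MOD Q] ∧ q n) ⊆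
      (range (2 * X + 1)).filter fun n => n ≡ h [MOD Q] ∧ q n := by
    intro n hn
    rw [mem_filter, mem_range] at hn ⊢
    exact ⟨by omega, hn.2⟩
  have h2 : (NC X Q h).filter q = ((range (2 * X + 1)).filter fun n => n ≡ h [MOD Q] ∧ q n) \
      (range (X + 1)).filter fun n => n ≡ h [MOD Q] ∧ q n := by
    ext n
    unfold NC
    rw [mem_filter, mem_filter, mem_Ioc, mem_sdiff, mem_filter, mem_filter, mem_range, mem_range]
    constructor
    · rintro ⟨⟨⟨a1, a2⟩, a3⟩, a4⟩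
      exact ⟨⟨by omega, a3, a4⟩, fun a5 => by omega⟩
    · rintro ⟨⟨a1, a2, a3⟩, a4⟩
      refine ⟨⟨⟨?_, by omega⟩, a2⟩, a3⟩
      by_contra a5
      exact a4 ⟨by omega, a2, a3⟩
  rw [h2, cast_card_sdiff h1]

theorem card_NC (X Q h : ℕ) (hQ : 0 < Q) : |((NC X Q h).card : ℝ) - (X : ℝ) / Q| ≤ 2 := by
  have h1 := card_class (2 * X + 1) Q h hQ
  have h2 := card_class (X + 1) Q h hQ
  have h3 := Count_sdiff X Q h (fun _ => True)
  simp only [filter_true, and_true] at h3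
  rw [h3]
  have hQ' : (0 : ℝ) < Q := by exact_mod_cast hQ
  have e : (X : ℝ) / Q = ((2 * X + 1 : ℕ) : ℝ) / Q - ((X + 1 : ℕ) : ℝ) / Q := by
    push_cast
    field_simp
    ring
  rw [e]
  rw [abs_le] at h1 h2 ⊢
  constructor <;> linarith [h1.1, h1.2, h2.1, h2.2]

theorem count2 (X Q h : ℕ) (hQ : 0 < Q) (hX : 1 ≤ X) (P : Finset ℕ) (hP : ∀ p ∈ P, p.Prime)
    (hcop : ∀ p ∈ P, Nat.Coprime Q p) (r r' : ℕ) (hr : r ≤ X) (hr' : r' ≤ X) (R : ℕ) :
    |(((NC X Q h).filter fun n => ∀ p ∈ P, ¬ p ∣ n - r ∧ ¬ p ∣ n - r').card : ℝ) -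
      (X : ℝ) / Q * ∏ p ∈ P, (1 - (if r % p = r' % p then (1 : ℝ) else 2) / (p : ℝ))| ≤
      Er X Q P R := by
  classical
  have hQ' : (0 : ℝ) < Q := by exact_mod_cast hQ
  have hX' : (1 : ℝ) ≤ X := by exact_mod_cast hX
  let B : ℕ → Finset ℕ := fun p => {r % p, r' % p}
  have hBc : ∀ p, ((B p).card : ℝ) = if r % p = r' % p then (1 : ℝ) else 2 := by
    intro p
    by_cases hh : r % p = r' % p
    · simp [B, hh]
    · simp only [B, if_neg hh]
      rw [card_pair hh]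
      norm_num
  have hB : ∀ p ∈ P, B p ⊆ range p := by
    intro p hp x hx
    have hp0 := (hP p hp).pos
    simp only [B, mem_insert, mem_singleton] at hx
    rw [mem_range]
    rcases hx with rfl | rfl
    · exact Nat.mod_lt _ hp0
    · exact Nat.mod_lt _ hp0
  have hBj : ∀ p ∈ P, (B p).card ≤ 2 := fun p _ => card_le_two
  have hset : (NC X Q h).filter (fun n => ∀ p ∈ P, ¬ p ∣ n - r ∧ ¬ p ∣ n - r') =
      (NC X Q h).filter fun n => ∀ p ∈ P, n % p ∉ B p := by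
    refine filter_congr fun n hn => ?_
    unfold NC at hn
    rw [mem_filter, mem_Ioc] at hn
    have key : ∀ p s : ℕ, s ≤ X → (p ∣ n - s ↔ n % p = s % p) := by
      intro p s hs
      rw [← Nat.modEq_iff_dvd' (show s ≤ n by omega)]
      exact ⟨fun a => a.symm, fun a => a.symm⟩
    refine forall₂_congr fun p _ => ?_
    simp only [B, mem_insert, mem_singleton, not_or, key p r hr, key p r' hr']
  have h1 := sieve2 (2 * X + 1) P hP B 2 hB hBj Q h hQ hcop R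
  have h2 := sieve2 (X + 1) P hP B 2 hB hBj Q h hQ hcop R
  have hprod : ∏ p ∈ P, (1 - (if r % p = r' % p then (1 : ℝ) else 2) / (p : ℝ)) =
      ∏ p ∈ P, (1 - ((B p).card : ℝ) / p) := prod_congr rfl fun p _ => by rw [hBc p]
  rw [hset, Count_sdiff, hprod]
  unfold Er
  set W : ℝ := ∏ p ∈ P, (1 - ((B p).card : ℝ) / p) with hW
  set σ : ℝ := ∑ p ∈ P, (1 : ℝ) / p with hσ
  have e0 : (3 * ((2 : ℕ) : ℝ) * σ - R) = 6 * σ - R := by push_cast; ring
  rw [e0] at h1 h2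
  have e1 : (1 + ((2 : ℕ) : ℝ) * P.card) = 1 + 2 * (P.card : ℝ) := by push_cast; ring
  rw [e1] at h1 h2
  set T : ℝ := Real.exp (6 * σ - R) with hT
  have hT0 : 0 < T := Real.exp_pos _
  set Z : ℝ := (1 + 2 * (P.card : ℝ)) ^ R with hZ
  have e2 : (X : ℝ) / Q * W = ((2 * X + 1 : ℕ) : ℝ) / Q * W - ((X + 1 : ℕ) : ℝ) / Q * W := by
    push_cast
    field_simp
    ring
  have e3 : ((2 * X + 1 : ℕ) : ℝ) / Q * (2 * T) + ((X + 1 : ℕ) : ℝ) / Q * (2 * T) ≤
      (X : ℝ) / Q * (10 * T) := by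
    rw [← add_mul, ← add_div, div_mul_eq_mul_div, div_mul_eq_mul_div]
    refine div_le_div_of_nonneg_right ?_ hQ'.le
    push_cast
    nlinarith
  rw [e2]
  rw [abs_le] at h1 h2 ⊢
  constructor <;> linarith [h1.1, h1.2, h2.1, h2.2]

end Pool.Agent.Lib.MP_e3f158_nt.CL
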