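import Pool.Agent.Lib.MP_e3f158_nt.CL.WinMain
import Pool.Agent.Lib.MP_e3f158_nt.Main

/-!
# MP_e3f158_nt, project CL: the final statements (module CLX-Fin)
-/

set_option autoImplicit false

namespace Pool.Agent.Lib.MP_e3f158_nt.CL

open Finset Filter

open Classical in
/-- The `a`-primes in `[3, Y]`. -/
noncomputable def aPrimes (a Y : ℕ) : Finset ℕ :=
  (Icc 3 Y).filter fun r => ∃ x : ℕ, 1 ≤ x ∧ ipr a x = r

/-- The number of `r ∈ R` such that `h - r` is coprime to `Q`. -/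
def cop (R : Finset ℕ) (Q h : ℕ) : ℕ := (Sh R Q h).card

/-- The number of representations `n = r + p` with `r ∈ R` and `p` prime. -/
def rep (R : Finset ℕ) (n : ℕ) : ℕ := (R.filter fun r => r < n ∧ (n - r).Prime).card

theorem RA_eq (R : Finset ℕ) (n : ℕ) : U.RA R n = rep R n := by
  unfold U.RA rep
  rw [sum_boole, filter_filter]

theorem aPrimes_le (a Y r : ℕ) (hr : r ∈ aPrimes a Y) : 3 ≤ r ∧ r ≤ Y ∧ r.Prime ∧
    ∃ x : ℕ, 1 ≤ x ∧ ipr a x = r := by
  classical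
  unfold aPrimes at hr
  rw [mem_filter, mem_Icc] at hr
  obtain ⟨⟨h1, h2⟩, x, hx, hxr⟩ := hr
  exact ⟨h1, h2, hxr ▸ ipr_prime a x, x, hx, hxr⟩

theorem card_aPrimes (a Y : ℕ) : pic (a + 1) Y ≤ (aPrimes a Y).card + 1 := by
  classical
  have h1 : ((Icc 1 (pic (a + 1) Y)).image fun y => ipr a y).card = pic (a + 1) Y := by
    rw [card_image_of_injOn, Nat.card_Icc, Nat.add_sub_cancel]
    intro z hz z' hz' h
    rw [mem_coe, mem_Icc] at hz hz'
    have h' : pr^[a + 1] z = pr^[a + 1] z' := h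
    rcases lt_trichotomy z z' with h1 | h1 | h1
    · have := iter_strictMono (a + 1) z z' (by omega) h1
      omega
    · exact h1
    · have := iter_strictMono (a + 1) z' z (by omega) h1
      omega
  have h2 : ((Icc 1 (pic (a + 1) Y)).image fun y => ipr a y) ⊆ insert 2 (aPrimes a Y) := by
    intro r hr
    obtain ⟨y, hy, rfl⟩ := mem_image.1 hr
    rw [mem_Icc] at hy
    have h3 : ipr a y ≤ Y := (iter_le_iff (a + 1) y Y hy.1).2 hy.2
    have h4 := (ipr_prime a y).two_le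
    rw [mem_insert]
    by_cases h5 : ipr a y = 2
    · exact Or.inl h5
    · right
      unfold aPrimes
      rw [mem_filter, mem_Icc]
      exact ⟨by omega, y, hy.1, rfl⟩
  have h3 := card_le_card h2
  rw [h1] at h3
  exact h3.trans (card_insert_le _ _)

theorem ipr_zero_surj (p : ℕ) (hp : p.Prime) : ∃ y, 1 ≤ y ∧ ipr 0 y = p := by
  refine ⟨Nat.count Nat.Prime p + 1, by omega, ?_⟩
  show pr^[0 + 1] (Nat.count Nat.Prime p + 1) = p
  rw [Function.iterate_succ_apply, Function.iterate_zero, id, pr]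
  simp only [Nat.add_sub_cancel]
  exact Nat.nth_count hp

theorem rep_pos (a X n : ℕ) (hn : X < n) (h : 0 < rep (aPrimes a (X / 2)) n) :
    Even n ∧ HasRep a 0 n := by
  unfold rep at h
  obtain ⟨r, hr⟩ := card_pos.1 h
  obtain ⟨h1, h2, h3⟩ := mem_filter.1 hr
  obtain ⟨h4, h5, h6, x, hx, hxr⟩ := aPrimes_le a _ r h1
  obtain ⟨y, hy, hyp⟩ := ipr_zero_surj _ h3
  have h7 : Odd r := h6.odd_of_ne_two (by omega)
  have h8 : Odd (n - r) := h3.odd_of_ne_two (by omega)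
  refine ⟨?_, x, y, hx, hy, ?_, ?_⟩
  · have h9 : n = r + (n - r) := by omega
    rw [h9]
    exact h7.add_odd h8
  · rw [hxr, hyp]; omega
  · rw [hxr, hyp]; omega

/-- There are many `a`-primes. -/
theorem many_aPrimes (a : ℕ) : ∀ᶠ X : ℕ in atTop,
    (X : ℝ) / (Real.log X) ^ (a + 2) ≤ ((aPrimes a (X / 2)).card : ℝ) := by
  have hL : Tendsto (fun X : ℕ => Real.log X) atTop atTop :=
    Real.tendsto_log_atTop.comp tendsto_natCast_atTop_atTop
  have hdiv : Tendsto (fun X : ℕ => X / 2) atTop atTop :=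
    Nat.tendsto_div_const_atTop (by norm_num)
  obtain ⟨X0, hX0⟩ := large (a + 2)
  filter_upwards [hdiv.eventually (pic_ge (a + 1)), eventually_ge_atTop X0,
    hL.eventually_ge_atTop (6 * 2 ^ (a + 1)), eventually_ge_atTop 16] with X h1 h2 h3 h4
  obtain ⟨-, hL100, -, -, hXA, -⟩ := hX0 X h2
  set L : ℝ := Real.log X with hLd
  have hL0 : 0 < L := by linarith
  have hX16 : (16 : ℝ) ≤ X := by exact_mod_cast h4
  have h5 : (X : ℝ) / 3 ≤ ((X / 2 : ℕ) : ℝ) := by
    have : X ≤ 3 * (X / 2) := by omega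
    have : (X : ℝ) ≤ 3 * ((X / 2 : ℕ) : ℝ) := by exact_mod_cast this
    linarith
  have h6 : Real.log ((X / 2 : ℕ) : ℝ) ≤ L := by
    apply Real.log_le_log (by linarith)
    exact_mod_cast Nat.div_le_self X 2
  have h6' : 0 < Real.log ((X / 2 : ℕ) : ℝ) := Real.log_pos (by linarith)
  have h7 : (X : ℝ) / 3 / (2 * L) ^ (a + 1) ≤ (pic (a + 1) (X / 2) : ℝ) := by
    refine le_trans ?_ h1
    apply div_le_div₀ (by positivity) h5 (by positivity)
    exact pow_le_pow_left₀ (by positivity) (by linarith) _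
  have h8 : (pic (a + 1) (X / 2) : ℝ) ≤ ((aPrimes a (X / 2)).card : ℝ) + 1 := by
    exact_mod_cast card_aPrimes a (X / 2)
  have h9 : 2 * ((X : ℝ) / L ^ (a + 2)) ≤ (X : ℝ) / 3 / (2 * L) ^ (a + 1) := by
    rw [mul_pow, div_div, mul_div_assoc', div_le_div_iff₀ (by positivity) (by positivity), pow_succ]
    have : X * L ^ (a + 1) * (6 * 2 ^ (a + 1)) ≤ X * L ^ (a + 1) * L :=
      mul_le_mul_of_nonneg_left h3 (by positivity)
    calc 2 * (X : ℝ) * (3 * (2 ^ (a + 1) * L ^ (a + 1))) = X * L ^ (a + 1) * (6 * 2 ^ (a + 1)) := by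
          ring
      _ ≤ X * L ^ (a + 1) * L := this
      _ = X * (L ^ (a + 1) * L) := by ring
  have h10 : 1 ≤ (X : ℝ) / L ^ (a + 2) := by
    rw [le_div_iff₀ (by positivity), one_mul]
    have : 0 < L ^ (a + 2) := by positivity
    linarith
  linarith

open Classical in
/-- The number of `a`-primes `r`, `3 ≤ r ≤ X / 2`, such that `h - r` is coprime to `Q`. -/
noncomputable def Nh (a X Q h : ℕ) : ℕ :=
  ((Icc 3 (X / 2)).filter fun r : ℕ => (∃ x : ℕ, 1 ≤ x ∧ ipr a x = r) ∧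
    Int.gcd ((h : ℤ) - r) Q = 1).card

open Classical in
/-- The number of representations `n = r + p` with a prime `p` and an `a`-prime `r`,
`3 ≤ r ≤ X / 2`. -/
noncomputable def reps (a X n : ℕ) : ℕ :=
  ((Icc 3 (X / 2)).filter fun r => (∃ x : ℕ, 1 ≤ x ∧ ipr a x = r) ∧ (n - r).Prime).card

theorem Nh_eq (a X Q h : ℕ) : Nh a X Q h = cop (aPrimes a (X / 2)) Q h := by
  classical
  unfold Nh cop Sh aPrimes
  rw [filter_filter]

theorem Nh_one (a X : ℕ) : Nh a X 1 0 = (aPrimes a (X / 2)).card := by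
  classical
  unfold Nh aPrimes
  congr 1
  apply filter_congr
  intro r _
  constructor
  · exact fun h => h.1
  · intro h
    refine ⟨h, ?_⟩
    rw [Nat.cast_one, Int.gcd_one]

theorem reps_eq (a X n : ℕ) (hn : X < n) : reps a X n = rep (aPrimes a (X / 2)) n := by
  classical
  unfold reps rep aPrimes
  rw [filter_filter]
  congr 1
  apply filter_congr
  intro r hr
  rw [mem_Icc] at hr
  constructor
  · rintro ⟨h1, h2⟩
    exact ⟨h1, by omega, h2⟩
  · rintro ⟨h1, _, h2⟩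
    exact ⟨h1, h2⟩

/-- The expected number of representations. -/
noncomputable def EE (a X Q h : ℕ) : ℝ :=
  (Q : ℝ) * (Nh a X Q h : ℝ) / ((Nat.totient Q : ℝ) * Real.log X)

theorem EE_eq (a X Q h : ℕ) : EE a X Q h = Mh (aPrimes a (X / 2)) X Q h := by
  unfold EE Mh
  rw [Nh_eq]
  rfl

/-- All but few residue classes. -/
theorem classes (a A : ℕ) : ∃ C : ℝ, 0 < C ∧ ∀ B : ℕ, ∀ᶠ X : ℕ in atTop,
    ∀ z : ℕ, 1 ≤ z → (z : ℝ) ≤ Real.log X / 3 →
    ∃ S : Finset ℕ, (S.card : ℝ) ≤ (primorial z : ℝ) / (Real.log X) ^ B ∧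
      ∀ h : ℕ, h < primorial z → h ∉ S → (X : ℝ) / (Real.log X) ^ A ≤ Nh a X (primorial z) h →
        ∀ δ : ℝ, 0 < δ → δ < 1 →
        (Set.ncard {n : ℕ | X < n ∧ n ≤ 2 * X ∧ n ≡ h [MOD primorial z] ∧ ¬ (Even n ∧ HasRep a 0 n ∧
          |(reps a X n : ℝ) - EE a X (primorial z) h| ≤ δ * EE a X (primorial z) h)} : ℝ) ≤
          C * Real.log (Real.log X) / (δ ^ 2 * z) * ((X : ℝ) / primorial z) := by
  classical
  refine ⟨65 * (A + 1), by positivity, fun B => ?_⟩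
  obtain ⟨X0, hX0⟩ := core A B
  filter_upwards [eventually_ge_atTop X0, eventually_ge_atTop 16] with X hX h16 z hz1 hz
  obtain ⟨S, -, hB1, hB2⟩ := hX0 X hX (aPrimes a (X / 2)) (fun r hr => by
    obtain ⟨h3, h4, -⟩ := aPrimes_le a _ r hr
    exact mem_Icc.2 (by omega)) z hz1 hz
  refine ⟨S, hB1, fun h hh hhB hN δ hδ hδ1 => ?_⟩
  rw [Nh_eq] at hN
  refine le_trans ?_ (hB2 h (mem_range.2 hh) hhB hN δ hδ hδ1.le)
  rw [← Set.ncard_coe_finset]
  have hX16 : (16 : ℝ) ≤ X := by exact_mod_cast h16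
  have hlog : 0 < Real.log X := Real.log_pos (by linarith)
  have hpos : 0 < Mh (aPrimes a (X / 2)) X (primorial z) h := by
    have hφ : (0 : ℝ) < (Nat.totient (primorial z) : ℝ) := by
      exact_mod_cast Nat.totient_pos.2 (primorial_pos z)
    have hQ : (0 : ℝ) < (primorial z : ℝ) := by exact_mod_cast primorial_pos z
    have hS : (0 : ℝ) < (cop (aPrimes a (X / 2)) (primorial z) h : ℝ) :=
      lt_of_lt_of_le (div_pos (by linarith) (pow_pos hlog _)) hN
    unfold Mh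
    exact div_pos (mul_pos hQ hS) (mul_pos hφ hlog)
  have hsub : {n : ℕ | X < n ∧ n ≤ 2 * X ∧ n ≡ h [MOD primorial z] ∧ ¬ (Even n ∧ HasRep a 0 n ∧
          |(reps a X n : ℝ) - EE a X (primorial z) h| ≤ δ * EE a X (primorial z) h)} ⊆
      (((NC X (primorial z) h).filter fun n =>
          ¬ |U.RA (aPrimes a (X / 2)) n - Mh (aPrimes a (X / 2)) X (primorial z) h| ≤
            δ * Mh (aPrimes a (X / 2)) X (primorial z) h : Finset ℕ) : Set ℕ) := by
    rintro n ⟨h3, h4, h5, h6⟩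
    rw [mem_coe, mem_filter]
    refine ⟨mem_filter.2 ⟨mem_Ioc.2 ⟨h3, h4⟩, h5⟩, fun h7 => h6 ?_⟩
    rw [RA_eq] at h7
    have h9 : 0 < rep (aPrimes a (X / 2)) n := by
      have h8 := (abs_le.1 h7).1
      have h11 : 0 < (1 - δ) * Mh (aPrimes a (X / 2)) X (primorial z) h :=
        mul_pos (by linarith) hpos
      have h10 : (0 : ℝ) < (rep (aPrimes a (X / 2)) n : ℝ) := by linarith
      exact_mod_cast h10
    obtain ⟨h10, h11⟩ := rep_pos a X n h3 h9
    refine ⟨h10, h11, ?_⟩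
    rw [reps_eq a X n h3, EE_eq]
    exact h7
  exact_mod_cast Set.ncard_le_ncard hsub (Finset.finite_toSet _)

/-- Most classes prime to the modulus contain many differences. -/
theorem many_classes (a X Q : ℕ) (hQ : 0 < Q) (δ : ℝ) (hδ : 0 ≤ δ) :
    (1 - δ) * (Nat.totient Q : ℝ) ≤ (Set.ncard {h : ℕ | h < Q ∧
      δ * (Nat.totient Q : ℝ) * (Nh a X 1 0 : ℝ) ≤ (Q : ℝ) * (Nh a X Q h : ℝ)} : ℝ) := by
  classical
  have heq : {h : ℕ | h < Q ∧
      δ * (Nat.totient Q : ℝ) * (Nh a X 1 0 : ℝ) ≤ (Q : ℝ) * (Nh a X Q h : ℝ)} =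
      (((range Q).filter fun h => δ * (Nat.totient Q : ℝ) * ((aPrimes a (X / 2)).card : ℝ) ≤
        (Q : ℝ) * ((Sh (aPrimes a (X / 2)) Q h).card : ℝ) : Finset ℕ) : Set ℕ) := by
    ext h
    rw [mem_coe, mem_filter, mem_range, Set.mem_ofPred_eq, Nh_one, Nh_eq]
    rfl
  rw [heq, Set.ncard_coe_finset]
  rcases (aPrimes a (X / 2)).eq_empty_or_nonempty with h0 | h0
  · rw [h0]
    have h1 : ((range Q).filter fun h => δ * (Nat.totient Q : ℝ) * (((∅ : Finset ℕ).card : ℕ) : ℝ) ≤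
        (Q : ℝ) * ((Sh ∅ Q h).card : ℝ)) = range Q := by
      apply filter_true_of_mem
      intro h _
      rw [card_empty, Nat.cast_zero, mul_zero]
      positivity
    rw [h1, card_range]
    have h2 : (Nat.totient Q : ℝ) ≤ Q := by exact_mod_cast Nat.totient_le Q
    have h3 : (0 : ℝ) ≤ (Nat.totient Q : ℝ) := Nat.cast_nonneg _
    nlinarith
  · exact many (aPrimes a (X / 2)) Q hQ h0 δ hδ

theorem windows_a : ∃ C : ℝ, 0 < C ∧ ∀ a : ℕ, ∀ᶠ X : ℕ in atTop, ∀ W : ℕ, 1 ≤ W →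
    (W : ℝ) ≤ Real.log (Real.log X) →
    (Set.ncard {n : ℕ | X < n ∧ n ≤ 2 * X ∧ ¬ ∃ m : ℕ, n < m ∧ m ≤ n + W ∧ Even m ∧
      HasRep a 0 m} : ℝ) ≤ C * Real.log (Real.log (Real.log X)) / W * X := by
  classical
  obtain ⟨C, hC, hwin⟩ := windows
  refine ⟨C, hC, fun a => ?_⟩
  obtain ⟨X0, hX0⟩ := hwin (a + 2)
  obtain ⟨X1, hX1⟩ := large2 1 C one_pos hC
  filter_upwards [eventually_ge_atTop X0, many_aPrimes a, eventually_ge_atTop X1] with X hX h2 hX1' W hW1 hWl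
  obtain ⟨-, g2, g3, -⟩ := hX1 X hX1'
  have hWr : (1 : ℝ) ≤ W := by exact_mod_cast hW1
  set l : ℝ := Real.log (Real.log X) with hl
  set l3 : ℝ := Real.log l with hl3
  have hfin : {n : ℕ | X < n ∧ n ≤ 2 * X ∧ ¬ ∃ m : ℕ, n < m ∧ m ≤ n + W ∧ Even m ∧
      HasRep a 0 m}.Finite :=
    (Set.finite_Icc 0 (2 * X)).subset fun n hn => ⟨Nat.zero_le _, hn.2.1⟩
  have hsubI : hfin.toFinset ⊆ Ioc X (2 * X) := fun n hn => by
    have := (Set.Finite.mem_toFinset hfin).1 hn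
    exact mem_Ioc.2 ⟨this.1, this.2.1⟩
  rw [Set.ncard_eq_toFinset_card _ hfin]
  by_cases hWC : (W : ℝ) ≤ C * l3
  · have h3 : (hfin.toFinset.card : ℝ) ≤ X := by
      have h4 := card_le_card hsubI
      rw [Nat.card_Ioc] at h4
      exact_mod_cast (by omega : hfin.toFinset.card ≤ X)
    have h5 : 1 ≤ C * l3 / W := by
      rw [le_div_iff₀ (by linarith)]
      linarith
    calc (hfin.toFinset.card : ℝ) ≤ 1 * X := by rw [one_mul]; exact h3
      _ ≤ C * l3 / W * X := mul_le_mul_of_nonneg_right h5 (Nat.cast_nonneg _)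
  push Not at hWC
  have hl30 : 0 < l3 := by linarith
  have hWpos : (0 : ℝ) < W := by linarith
  have h1 : 1 ≤ C * l3 := by
    have h3 := mul_le_mul_of_nonneg_left g3 hC.le
    have h4 : C * (2 / C) = 2 := by field_simp
    linarith
  have hl0 : 0 < l := by linarith
  refine hX0 X hX (C * l3 / W) (by positivity) ?_ ?_ (aPrimes a (X / 2)) (fun r hr => ?_) h2 _ hsubI
    (fun n hn m hm1 hm2 hpos => ?_)
  · rw [div_mul_eq_mul_div, le_div_iff₀ hWpos, one_mul]
    have := mul_le_mul_of_nonneg_right h1 hl0.le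
    linarith
  · rw [div_lt_one hWpos]
    exact hWC
  · obtain ⟨h3, h4, -⟩ := aPrimes_le a _ r hr
    exact mem_Icc.2 (by omega)
  · have h3 := (Set.Finite.mem_toFinset hfin).1 hn
    rw [RA_eq] at hpos
    have h4 : 0 < rep (aPrimes a (X / 2)) m := by exact_mod_cast hpos
    obtain ⟨h5, h6⟩ := rep_pos a X m (by have := h3.1; omega) h4
    have h7 : C / (C * l3 / W) * l3 = W := by field_simp
    rw [h7] at hm2
    exact h3.2.2 ⟨m, hm1, by exact_mod_cast hm2, h5, h6⟩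

end Pool.Agent.Lib.MP_e3f158_nt.CL
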