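import Mathlib

/-!
# MP_e3f158_nt, project CL: reduced residues in short intervals (module CLX-Hs)

The inequality of Hausman and Shapiro for the second moment, elementary proof.
PROOF. `U h = #{j ∈ [1,W] : gcd (h+j, Q) = 1}`. For `d ≥ 0` let `a d = #{h < Q : gcd (h,Q) = gcd (h+d,Q) = 1}`.
(1) `a d = ∏_{p ∣ Q} (p - ν_p)`, `ν_p = 1` if `p ∣ d`, else `2` (Chinese remainder theorem; or prove
    `a` multiplicative in `Q` by induction over the primes of `Q`). In particular `a 0 = φ(Q)`.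
(2) `∏_{p ∣ Q} ((p-2) + 1[p ∣ d]) = ∑_{D ∣ Q, D ∣ d} ∏_{p ∣ Q/D} (p-2)`, all terms `≥ 0`, so for every `x`:
    `∑_{d=1}^{x} a d = ∑_{D ∣ Q} ⌊x/D⌋ ∏_{p ∣ Q/D} (p-2) ≤ x ∏_{p ∣ Q} (p - 2 + 1/p) = x ∏ (p-1)^2/p = x φ(Q)^2/Q`.
(3) `∑_{h < Q} U(h)^2 = ∑_{j,j'} a(|j-j'|) = W φ(Q) + 2 ∑_{d=1}^{W-1} (W-d) a d
    = W φ(Q) + 2 ∑_{x=1}^{W-1} ∑_{d=1}^{x} a d ≤ W φ(Q) + W (W-1) φ(Q)^2/Q` (shift `h` by `j`: periodic mod `Q`).
(4) `∑_h U(h) = W φ(Q)`, so the left side is `∑ U^2 - W^2 φ(Q)^2/Q ≤ W φ(Q)`.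
-/

set_option autoImplicit false

namespace Pool.Agent.Lib.MP_e3f158_nt.CL

open Finset

/-- the number of the `h` mod `Q` for which `h` and `h + d` are coprime to `Q` -/
private noncomputable def hsA (Q d : ℕ) : ℕ := Nat.card {h : ZMod Q // IsUnit h ∧ IsUnit (h + (d : ZMod Q))}

private theorem hsA_mul (m n d : ℕ) (h : m.Coprime n) : hsA (m * n) d = hsA m d * hsA n d := by
  unfold hsA
  rw [← Nat.card_prod]
  refine Nat.card_congr ?_
  have key : ∀ x : ZMod (m * n), (IsUnit x ∧ IsUnit (x + (d : ZMod (m * n)))) ↔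
      (IsUnit ((ZMod.chineseRemainder h) x).1 ∧ IsUnit (((ZMod.chineseRemainder h) x).1 + (d : ZMod m))) ∧
      (IsUnit ((ZMod.chineseRemainder h) x).2 ∧ IsUnit (((ZMod.chineseRemainder h) x).2 + (d : ZMod n))) := by
    intro x
    have h1 : ∀ y : ZMod (m * n), IsUnit y ↔ IsUnit ((ZMod.chineseRemainder h) y).1 ∧
        IsUnit ((ZMod.chineseRemainder h) y).2 := by
      intro y
      rw [← Prod.isUnit_iff]
      exact (isUnit_map_iff (ZMod.chineseRemainder h) y).symm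
    rw [h1 x, h1 (x + d), map_add, map_natCast]
    simp only [Prod.fst_add, Prod.snd_add, Prod.fst_natCast, Prod.snd_natCast]
    tauto
  exact ((ZMod.chineseRemainder h).toEquiv.subtypeEquiv key).trans
    (Equiv.subtypeProdEquivProd (p := fun y : ZMod m => IsUnit y ∧ IsUnit (y + (d : ZMod m)))
      (q := fun y : ZMod n => IsUnit y ∧ IsUnit (y + (d : ZMod n))))

private theorem hsA_prime (p d : ℕ) (hp : p.Prime) :
    (hsA p d : ℝ) = (p : ℝ) - 2 + (if p ∣ d then 1 else 0) := by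
  classical
  have : Fact p.Prime := ⟨hp⟩
  have h1 : hsA p d = #((univ : Finset (ZMod p)) \ {0, -(d : ZMod p)}) := by
    unfold hsA
    rw [Nat.card_eq_fintype_card, Fintype.card_subtype]
    congr 1
    ext x
    simp only [Finset.mem_filter, Finset.mem_univ, true_and, Finset.mem_sdiff, Finset.mem_insert,
      Finset.mem_singleton, isUnit_iff_ne_zero, not_or]
    rw [Ne, Ne, add_eq_zero_iff_eq_neg]
  have h2 : #((univ : Finset (ZMod p)) \ {0, -(d : ZMod p)}) + #({0, -(d : ZMod p)} : Finset (ZMod p)) = p := by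
    rw [Finset.card_sdiff_add_card_eq_card (Finset.subset_univ _), Finset.card_univ, ZMod.card]
  by_cases h3 : p ∣ d
  · rw [if_pos h3]
    have h4 : (d : ZMod p) = 0 := (ZMod.natCast_eq_zero_iff d p).2 h3
    have h5 : #({0, -(d : ZMod p)} : Finset (ZMod p)) = 1 := by
      rw [h4, neg_zero, Finset.pair_eq_singleton, Finset.card_singleton]
    rw [h5, ← h1] at h2
    have h6 : (hsA p d : ℝ) + 1 = p := by exact_mod_cast h2
    linarith
  · rw [if_neg h3]
    have h4 : (d : ZMod p) ≠ 0 := fun h => h3 ((ZMod.natCast_eq_zero_iff d p).1 h)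
    have h5 : #({0, -(d : ZMod p)} : Finset (ZMod p)) = 2 :=
      Finset.card_pair fun h => h4 (neg_eq_zero.1 h.symm)
    rw [h5, ← h1] at h2
    have h6 : (hsA p d : ℝ) + 2 = p := by exact_mod_cast h2
    linarith

private theorem hsA_one (d : ℕ) : hsA 1 d = 1 := by
  unfold hsA
  rw [Nat.card_eq_one_iff_unique]
  constructor
  · exact ⟨fun a b => Subtype.ext (Subsingleton.elim _ _)⟩
  · exact ⟨⟨0, isUnit_of_subsingleton _, isUnit_of_subsingleton _⟩⟩

private theorem hsA_sum (Q : ℕ) : Squarefree Q → ∀ m : ℕ, 0 < m → m.Coprime Q → ∀ x : ℕ,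
    ∑ d ∈ (Ioc 0 x).filter (fun d => m ∣ d), (hsA Q d : ℝ) ≤
      (x : ℝ) / m * ((Nat.totient Q : ℝ) ^ 2 / Q) := by
  induction Q using induction_on_primes with
  | zero => exact fun h => absurd h not_squarefree_zero
  | one =>
    intro _ m hm _ x
    have h1 : ∑ d ∈ (Ioc 0 x).filter (fun d => m ∣ d), (hsA 1 d : ℝ) = ((x / m : ℕ) : ℝ) := by
      rw [← Nat.Ioc_filter_dvd_card_eq_div x m, Finset.card_eq_sum_ones]
      push_cast
      refine Finset.sum_congr rfl fun d _ => ?_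
      rw [hsA_one, Nat.cast_one]
    rw [h1, Nat.totient_one]
    push_cast
    rw [one_pow, div_one, mul_one]
    exact Nat.cast_div_le
  | prime_mul p a hp ih =>
    intro hsq m hm hc x
    have hpa : Nat.Coprime p a := Nat.coprime_of_squarefree_mul hsq
    have ha : Squarefree a := hsq.squarefree_of_dvd (Dvd.intro_left _ rfl)
    have ha0 : 0 < a := Nat.pos_of_ne_zero ha.ne_zero
    have hmp : Nat.Coprime m p := Nat.Coprime.coprime_mul_right_right hc
    have hma : Nat.Coprime m a := Nat.Coprime.coprime_mul_left_right hc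
    have h1 := ih ha m hm hma x
    have h2 := ih ha (m * p) (Nat.mul_pos hm hp.pos) (Nat.Coprime.mul_left hma hpa) x
    have hp2 : (2 : ℝ) ≤ p := by exact_mod_cast hp.two_le
    have hp0 : (0 : ℝ) < p := by linarith
    have ha0' : (0 : ℝ) < a := by exact_mod_cast ha0
    have hm0' : (0 : ℝ) < m := by exact_mod_cast hm
    have e1 : ∑ d ∈ (Ioc 0 x).filter (fun d => m ∣ d), (hsA (p * a) d : ℝ) =
        ((p : ℝ) - 2) * (∑ d ∈ (Ioc 0 x).filter (fun d => m ∣ d), (hsA a d : ℝ)) +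
        ∑ d ∈ (Ioc 0 x).filter (fun d => m * p ∣ d), (hsA a d : ℝ) := by
      have e2 : (Ioc 0 x).filter (fun d => m * p ∣ d) =
          ((Ioc 0 x).filter (fun d => m ∣ d)).filter (fun d => p ∣ d) := by
        rw [Finset.filter_filter]
        refine Finset.filter_congr fun d _ => ?_
        exact ⟨fun h => ⟨(Dvd.intro _ rfl).trans h, (Dvd.intro_left _ rfl).trans h⟩,
          fun h => hmp.mul_dvd_of_dvd_of_dvd h.1 h.2⟩
      rw [e2, Finset.sum_filter (fun d => p ∣ d), Finset.mul_sum, ← Finset.sum_add_distrib]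
      refine Finset.sum_congr rfl fun d _ => ?_
      rw [hsA_mul p a d hpa, Nat.cast_mul, hsA_prime p d hp]
      split_ifs <;> ring
    rw [e1, Nat.totient_mul hpa, Nat.totient_prime hp]
    have e3 : (((p - 1) * Nat.totient a : ℕ) : ℝ) = ((p : ℝ) - 1) * Nat.totient a := by
      rw [Nat.cast_mul, Nat.cast_sub hp.one_le, Nat.cast_one]
    rw [e3]
    have h3 := mul_le_mul_of_nonneg_left h1 (by linarith : (0 : ℝ) ≤ (p : ℝ) - 2)
    refine (add_le_add h3 h2).trans (le_of_eq ?_)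
    push_cast
    field_simp
    ring

/-- the indicator function of the units -/
private noncomputable def hsI (Q : ℕ) (x : ZMod Q) : ℝ := by
  classical exact if IsUnit x then 1 else 0

private theorem hsI_pos {Q : ℕ} {x : ZMod Q} (h : IsUnit x) : hsI Q x = 1 := by
  unfold hsI
  exact if_pos h

private theorem hsI_neg {Q : ℕ} {x : ZMod Q} (h : ¬ IsUnit x) : hsI Q x = 0 := by
  unfold hsI
  exact if_neg h

open Classical in
private theorem hsI_mul {Q : ℕ} (x y : ZMod Q) : hsI Q x * hsI Q y = if IsUnit x ∧ IsUnit y then 1 else 0 := by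
  by_cases h : IsUnit x
  · by_cases h' : IsUnit y
    · rw [hsI_pos h, hsI_pos h', if_pos ⟨h, h'⟩, mul_one]
    · rw [hsI_neg h', if_neg fun hh => h' hh.2, mul_zero]
  · rw [hsI_neg h, if_neg fun hh => h hh.1, zero_mul]

private noncomputable def hsB (Q : ℕ) [NeZero Q] (y : ZMod Q) : ℝ := ∑ x : ZMod Q, hsI Q x * hsI Q (x + y)

private theorem hsB_nat (Q : ℕ) [NeZero Q] (d : ℕ) : hsB Q (d : ZMod Q) = hsA Q d := by
  classical
  unfold hsB hsA
  rw [Nat.card_eq_fintype_card, Fintype.card_subtype, Finset.card_filter]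
  push_cast
  refine Finset.sum_congr rfl fun x _ => ?_
  rw [hsI_mul]
  congr

private theorem hsB_neg (Q : ℕ) [NeZero Q] (y : ZMod Q) : hsB Q (-y) = hsB Q y := by
  unfold hsB
  rw [← Equiv.sum_comp (Equiv.addRight y)]
  refine Finset.sum_congr rfl fun x _ => ?_
  rw [Equiv.coe_addRight, add_neg_cancel_right, mul_comm]

private theorem hsB_shift (Q : ℕ) [NeZero Q] (y z : ZMod Q) :
    ∑ x : ZMod Q, hsI Q (x + y) * hsI Q (x + z) = hsB Q (z - y) := by
  unfold hsB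
  rw [← Equiv.sum_comp (Equiv.addRight y) fun x => hsI Q x * hsI Q (x + (z - y))]
  refine Finset.sum_congr rfl fun x _ => ?_
  rw [Equiv.coe_addRight]
  congr 2
  ring

private theorem hsI_sum (Q : ℕ) [NeZero Q] : ∑ x : ZMod Q, hsI Q x = Nat.totient Q := by
  classical
  have h1 : ∑ x : ZMod Q, hsI Q x = ∑ x : ZMod Q, if IsUnit x then (1 : ℝ) else 0 := by
    refine Finset.sum_congr rfl fun x _ => ?_
    by_cases h : IsUnit x
    · rw [hsI_pos h, if_pos h]
    · rw [hsI_neg h, if_neg h]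
  rw [h1, Finset.sum_boole, ← ZMod.card_units_eq_totient, ← Fintype.card_subtype]
  congr 1
  exact (Fintype.card_congr (Equiv.ofBijective
    (fun u : (ZMod Q)ˣ => (⟨(u : ZMod Q), u.isUnit⟩ : {x : ZMod Q // IsUnit x}))
    ⟨fun a b h => Units.ext (congrArg Subtype.val h), fun ⟨x, hx⟩ => ⟨hx.unit, rfl⟩⟩)).symm

private theorem hsB_zero (Q : ℕ) [NeZero Q] : hsB Q 0 = Nat.totient Q := by
  rw [← hsI_sum]
  unfold hsB
  refine Finset.sum_congr rfl fun x _ => ?_
  rw [add_zero]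
  by_cases h : IsUnit x
  · rw [hsI_pos h, mul_one]
  · rw [hsI_neg h, mul_zero]

private theorem hs_range (Q : ℕ) [NeZero Q] (G : ZMod Q → ℝ) :
    ∑ h ∈ range Q, G (h : ZMod Q) = ∑ x : ZMod Q, G x := by
  refine Finset.sum_nbij' (fun h => (h : ZMod Q)) (fun x => x.val) ?_ ?_ ?_ ?_ ?_
  · intro h _
    exact Finset.mem_univ _
  · intro x _
    exact Finset.mem_range.2 (ZMod.val_lt x)
  · intro h hh
    exact ZMod.val_natCast_of_lt (Finset.mem_range.1 hh)
  · intro x _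
    exact ZMod.natCast_zmod_val x
  · intro h _
    rfl

private theorem hs_row (Q W : ℕ) [NeZero Q] (hQ : Squarefree Q) (j : ℕ) (hj : j ∈ Icc 1 W) :
    ∑ i ∈ Icc 1 W, hsB Q ((i : ZMod Q) - (j : ZMod Q)) ≤
      Nat.totient Q + W * ((Nat.totient Q : ℝ) ^ 2 / Q) := by
  have hc : 0 ≤ (Nat.totient Q : ℝ) ^ 2 / Q := by positivity
  rw [Finset.mem_Icc] at hj
  have h0 : ∀ x : ℕ, ∑ d ∈ Ioc 0 x, (hsA Q d : ℝ) ≤ x * ((Nat.totient Q : ℝ) ^ 2 / Q) := by
    intro x
    have h1 := hsA_sum Q hQ 1 one_pos (Nat.coprime_one_left Q) x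
    have h2 : (Ioc 0 x).filter (fun d => 1 ∣ d) = Ioc 0 x :=
      Finset.filter_true_of_mem fun d _ => one_dvd d
    rw [h2, Nat.cast_one, div_one] at h1
    exact h1
  have hsplit : Icc 1 W = (Ico 1 j ∪ {j}) ∪ Ioc j W := by
    ext i
    simp only [Finset.mem_Icc, Finset.mem_union, Finset.mem_Ico, Finset.mem_singleton, Finset.mem_Ioc]
    omega
  have hd1 : Disjoint (Ico 1 j ∪ {j}) (Ioc j W) := by
    rw [Finset.disjoint_left]
    intro i hi hi'
    simp only [Finset.mem_union, Finset.mem_Ico, Finset.mem_singleton, Finset.mem_Ioc] at hi hi'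
    omega
  have hd2 : Disjoint (Ico 1 j) {j} := by
    rw [Finset.disjoint_left]
    intro i hi hi'
    simp only [Finset.mem_Ico, Finset.mem_singleton] at hi hi'
    omega
  rw [hsplit, Finset.sum_union hd1, Finset.sum_union hd2, Finset.sum_singleton, sub_self, hsB_zero]
  have e1 : ∑ i ∈ Ico 1 j, hsB Q ((i : ZMod Q) - (j : ZMod Q)) = ∑ d ∈ Ioc 0 (j - 1), (hsA Q d : ℝ) := by
    refine Finset.sum_nbij' (fun i => j - i) (fun d => j - d) ?_ ?_ ?_ ?_ ?_
    · intro i hi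
      rw [Finset.mem_Ico] at hi
      rw [Finset.mem_Ioc]
      omega
    · intro i hi
      rw [Finset.mem_Ioc] at hi
      rw [Finset.mem_Ico]
      omega
    · intro i hi
      rw [Finset.mem_Ico] at hi
      omega
    · intro i hi
      rw [Finset.mem_Ioc] at hi
      omega
    · intro i hi
      rw [Finset.mem_Ico] at hi
      rw [← hsB_nat, ← hsB_neg, neg_sub, Nat.cast_sub hi.2.le]
  have e2 : ∑ i ∈ Ioc j W, hsB Q ((i : ZMod Q) - (j : ZMod Q)) = ∑ d ∈ Ioc 0 (W - j), (hsA Q d : ℝ) := by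
    refine Finset.sum_nbij' (fun i => i - j) (fun d => d + j) ?_ ?_ ?_ ?_ ?_
    · intro i hi
      rw [Finset.mem_Ioc] at hi
      rw [Finset.mem_Ioc]
      omega
    · intro i hi
      rw [Finset.mem_Ioc] at hi
      rw [Finset.mem_Ioc]
      omega
    · intro i hi
      rw [Finset.mem_Ioc] at hi
      omega
    · intro i hi
      omega
    · intro i hi
      rw [Finset.mem_Ioc] at hi
      rw [← hsB_nat, Nat.cast_sub hi.1.le]
  rw [e1, e2]
  have h1 := h0 (j - 1)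
  have h2 := h0 (W - j)
  have h3 : ((j - 1 : ℕ) : ℝ) + ((W - j : ℕ) : ℝ) ≤ W := by
    have : (j - 1) + (W - j) ≤ W := by omega
    exact_mod_cast this
  have h4 := mul_le_mul_of_nonneg_right h3 hc
  rw [add_mul] at h4
  linarith

theorem hs (Q W : ℕ) (hQ : Squarefree Q) :
    ∑ h ∈ range Q, ((((Icc 1 W).filter fun j => Nat.Coprime (h + j) Q).card : ℝ) -
      W * ((Nat.totient Q : ℝ) / Q)) ^ 2 ≤ W * (Nat.totient Q : ℝ) := by
  classical
  have : NeZero Q := ⟨hQ.ne_zero⟩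
  have hQ0 : (0 : ℝ) < Q := by exact_mod_cast Nat.pos_of_ne_zero hQ.ne_zero
  obtain ⟨u, hu⟩ : ∃ u : ZMod Q → ℝ, u = fun x => ∑ j ∈ Icc 1 W, hsI Q (x + (j : ZMod Q)) := ⟨_, rfl⟩
  obtain ⟨c, hc⟩ : ∃ c : ℝ, c = W * ((Nat.totient Q : ℝ) / Q) := ⟨_, rfl⟩
  have h1 : ∑ h ∈ range Q, ((((Icc 1 W).filter fun j => Nat.Coprime (h + j) Q).card : ℝ) -
      W * ((Nat.totient Q : ℝ) / Q)) ^ 2 = ∑ x : ZMod Q, (u x - c) ^ 2 := by
    rw [← hs_range Q fun x => (u x - c) ^ 2]
    refine Finset.sum_congr rfl fun h _ => ?_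
    rw [hc, hu, Finset.card_filter]
    push_cast
    congr 2
    refine Finset.sum_congr rfl fun j _ => ?_
    have h2 : IsUnit ((h : ZMod Q) + (j : ZMod Q)) ↔ Nat.Coprime (h + j) Q := by
      rw [← Nat.cast_add]
      exact ZMod.isUnit_iff_coprime (h + j) Q
    by_cases h3 : Nat.Coprime (h + j) Q
    · rw [if_pos h3, hsI_pos (h2.2 h3)]
    · rw [if_neg h3, hsI_neg fun h4 => h3 (h2.1 h4)]
  have hsum : ∑ x : ZMod Q, u x = W * (Nat.totient Q : ℝ) := by
    rw [hu, Finset.sum_comm]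
    have h2 : ∀ j ∈ Icc 1 W, ∑ x : ZMod Q, hsI Q (x + (j : ZMod Q)) = Nat.totient Q := by
      intro j _
      exact (Equiv.sum_comp (Equiv.addRight (j : ZMod Q)) (hsI Q)).trans (hsI_sum Q)
    rw [Finset.sum_congr rfl h2, Finset.sum_const, Nat.card_Icc, Nat.add_sub_cancel, nsmul_eq_mul]
  have hsq : ∑ x : ZMod Q, u x ^ 2 ≤ W * (Nat.totient Q + W * ((Nat.totient Q : ℝ) ^ 2 / Q)) := by
    have h2 : ∑ x : ZMod Q, u x ^ 2 = ∑ j ∈ Icc 1 W, ∑ i ∈ Icc 1 W, hsB Q ((i : ZMod Q) - (j : ZMod Q)) := by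
      have h3 : ∀ x : ZMod Q, u x ^ 2 = ∑ j ∈ Icc 1 W, ∑ i ∈ Icc 1 W,
          hsI Q (x + (j : ZMod Q)) * hsI Q (x + (i : ZMod Q)) := by
        intro x
        rw [pow_two, hu, Finset.sum_mul_sum]
      rw [Finset.sum_congr rfl fun x _ => h3 x, Finset.sum_comm]
      refine Finset.sum_congr rfl fun j _ => ?_
      rw [Finset.sum_comm]
      exact Finset.sum_congr rfl fun i _ => hsB_shift Q _ _
    rw [h2]
    refine (Finset.sum_le_card_nsmul _ _ _ fun j hj => hs_row Q W hQ j hj).trans ?_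
    rw [Nat.card_Icc, Nat.add_sub_cancel, nsmul_eq_mul]
  rw [h1]
  have h5 : ∑ x : ZMod Q, (u x - c) ^ 2 = ∑ x : ZMod Q, u x ^ 2 - 2 * c * ∑ x : ZMod Q, u x + Q * c ^ 2 := by
    have h6 : ∀ x : ZMod Q, (u x - c) ^ 2 = u x ^ 2 - 2 * c * u x + c ^ 2 := fun x => by ring
    rw [Finset.sum_congr rfl fun x _ => h6 x, Finset.sum_add_distrib, Finset.sum_sub_distrib, Finset.mul_sum,
      Finset.sum_const, Finset.card_univ, ZMod.card, nsmul_eq_mul]
  rw [h5, hsum]
  have h7 : 2 * c * (W * (Nat.totient Q : ℝ)) - Q * c ^ 2 = W * (W * ((Nat.totient Q : ℝ) ^ 2 / Q)) := by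
    rw [hc]
    field_simp
    ring
  linarith

end Pool.Agent.Lib.MP_e3f158_nt.CL
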