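import Mathlib

/-!
# MP_e3f158_nt, project CL: the singular series on average over the pairs of a set (module CLX-Pairs)

PROOF. Let `g x = ∏_{p ∈ P, x.1 ≡ x.2 mod p} (1 + 1/(p-1))`.
(1) `(∑_{x ∈ S.offDiag} g x)^z ≤ (#offDiag)^(z-1) * ∑ (g x)^z` (Jensen / power mean, e.g.
    `inv_mul_sum_pow_le` type lemmas: `pow_sum_div_card_le_sum_pow`, `inner_le_nnorm_mul_nnorm`;
    `(∑ f)^(n+1) / card^n ≤ ∑ f^(n+1)`).
(2) for `p > z`, `p` prime: `(1 + 1/(p-1))^z ≤ exp (z/(p-1)) ≤ 1 + 2z/(p-1)` (as `z/(p-1) ≤ 1`).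
(3) `∑_{x ∈ S.offDiag} f (|x.1 - x.2|) ≤ 2 |S| ∑_{d=1}^{X} f d` for `f ≥ 0` (fix `x.1`; the map
    `x.2 ↦ |x.1 - x.2|` is injective on each side of `x.1`); `x.1 % p = x.2 % p ↔ p ∣ |x.1 - x.2|`.
(4) `∑_{d=1}^{X} ∏_{p ∈ P, p ∣ d} (1 + 2z/(p-1)) = ∑_{D ⊆ P} ∏_{p ∈ D} (2z/(p-1)) #{d ≤ X : ∀ p ∈ D, p ∣ d}
    ≤ X ∑_{D ⊆ P} ∏_{p ∈ D} 2z/(p(p-1)) = X ∏_{p ∈ P} (1 + 2z/(p(p-1))) ≤ X exp (2z ∑_{m > z} 1/(m(m-1)))
    ≤ X exp 2`.
(5) so `(∑ g)^z ≤ |S|^(2(z-1)) * 2 |S| X e^2 ≤ |S|^(2z) * e^3 X/|S|`; take the z-th root.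
-/

set_option autoImplicit false

namespace Pool.Agent.Lib.MP_e3f158_nt.CL

open Finset

/-- the factor of the larger product -/
private noncomputable def pcc (z p : ℕ) : ℝ := 2 * z / ((p : ℝ) - 1)

/-- the larger product as a function of the difference -/
private noncomputable def pFF (z : ℕ) (P : Finset ℕ) (d : ℕ) : ℝ := ∏ p ∈ P.filter (fun p => p ∣ d), (1 + pcc z p)

private theorem offDiag_le (X : ℕ) (S : Finset ℕ) (hS : S ⊆ Icc 1 X) (f : ℕ → ℝ) (hf : ∀ d, 0 ≤ f d) :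
    ∑ x ∈ S.offDiag, f (x.1 - x.2 + (x.2 - x.1)) ≤ 2 * S.card * ∑ d ∈ Icc 1 X, f d := by
  have hl : ∀ a ∈ S, ∑ b ∈ S.filter (fun b => b < a), f (a - b) ≤ ∑ d ∈ Icc 1 X, f d := by
    intro a ha
    have ha' := Finset.mem_Icc.1 (hS ha)
    have hinj : Set.InjOn (fun b => a - b) (S.filter (fun b => b < a) : Finset ℕ) := by
      intro b hb c hc hbc
      simp only [Finset.coe_filter, Set.mem_ofPred_eq] at hb hc
      simp only at hbc
      omega
    rw [← Finset.sum_image (f := f) hinj]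
    refine Finset.sum_le_sum_of_subset_of_nonneg ?_ fun d _ _ => hf d
    intro d hd
    obtain ⟨b, hb, rfl⟩ := Finset.mem_image.1 hd
    have hb' := Finset.mem_filter.1 hb
    have hb1 := Finset.mem_Icc.1 (hS hb'.1)
    rw [Finset.mem_Icc]
    omega
  have hr : ∀ a ∈ S, ∑ b ∈ S.filter (fun b => a < b), f (b - a) ≤ ∑ d ∈ Icc 1 X, f d := by
    intro a ha
    have ha' := Finset.mem_Icc.1 (hS ha)
    have hinj : Set.InjOn (fun b => b - a) (S.filter (fun b => a < b) : Finset ℕ) := by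
      intro b hb c hc hbc
      simp only [Finset.coe_filter, Set.mem_ofPred_eq] at hb hc
      simp only at hbc
      omega
    rw [← Finset.sum_image (f := f) hinj]
    refine Finset.sum_le_sum_of_subset_of_nonneg ?_ fun d _ _ => hf d
    intro d hd
    obtain ⟨b, hb, rfl⟩ := Finset.mem_image.1 hd
    have hb' := Finset.mem_filter.1 hb
    have hb1 := Finset.mem_Icc.1 (hS hb'.1)
    rw [Finset.mem_Icc]
    omega
  have h1 : ∑ x ∈ S.offDiag, f (x.1 - x.2 + (x.2 - x.1)) =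
      ∑ a ∈ S, (∑ b ∈ S.filter (fun b => b < a), f (a - b) + ∑ b ∈ S.filter (fun b => a < b), f (b - a)) := by
    have h2 : S.offDiag = (S ×ˢ S).filter (fun x => x.1 ≠ x.2) := by
      ext x
      simp only [Finset.mem_offDiag, Finset.mem_filter, Finset.mem_product]
      tauto
    rw [h2, Finset.sum_filter, Finset.sum_product]
    refine Finset.sum_congr rfl fun a _ => ?_
    rw [Finset.sum_filter, Finset.sum_filter, ← Finset.sum_add_distrib]
    refine Finset.sum_congr rfl fun b _ => ?_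
    rcases lt_trichotomy a b with h | h | h
    · rw [if_pos h.ne, if_neg (by omega), if_pos h, zero_add, Nat.sub_eq_zero_of_le h.le, zero_add]
    · subst h
      simp
    · rw [if_pos h.ne', if_pos h, if_neg (by omega), add_zero, Nat.sub_eq_zero_of_le h.le, add_zero]
  rw [h1]
  calc ∑ a ∈ S, (∑ b ∈ S.filter (fun b => b < a), f (a - b) + ∑ b ∈ S.filter (fun b => a < b), f (b - a))
      ≤ ∑ a ∈ S, (2 * ∑ d ∈ Icc 1 X, f d) := by
        refine Finset.sum_le_sum fun a ha => ?_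
        have := hl a ha
        have := hr a ha
        linarith
    _ = 2 * S.card * ∑ d ∈ Icc 1 X, f d := by
        rw [Finset.sum_const, nsmul_eq_mul]
        ring

private theorem pcc_nonneg {z p : ℕ} (hp : 1 ≤ p) : 0 ≤ pcc z p := by
  have : (1 : ℝ) ≤ p := by exact_mod_cast hp
  exact div_nonneg (by positivity) (by linarith)

private theorem tele (z : ℕ) (hz : 1 ≤ z) (M : ℕ) (hM : z ≤ M) :
    ∑ p ∈ Ioc z M, 1 / ((p : ℝ) * ((p : ℝ) - 1)) ≤ 1 / z - 1 / M := by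
  induction M, hM using Nat.le_induction with
  | base => simp
  | succ M hM ih =>
    rw [← Finset.insert_Ioc_right_eq_Ioc_add_one hM, Finset.sum_insert (by simp)]
    have hM0 : (0 : ℝ) < M := by exact_mod_cast (by omega : 0 < M)
    have h1 : 1 / (((M + 1 : ℕ) : ℝ) * (((M + 1 : ℕ) : ℝ) - 1)) = 1 / (M : ℝ) - 1 / ((M + 1 : ℕ) : ℝ) := by
      push_cast
      have h2 : (M : ℝ) + 1 ≠ 0 := by positivity
      have h3 : (M : ℝ) ≠ 0 := hM0.ne'
      rw [add_sub_cancel_right]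
      field_simp
      ring
    rw [h1]
    linarith

private theorem sum_inv (z : ℕ) (hz : 1 ≤ z) (P : Finset ℕ) (hP : ∀ p ∈ P, p.Prime ∧ z < p) :
    ∑ p ∈ P, pcc z p / p ≤ 2 := by
  have hz0 : (0 : ℝ) < z := by exact_mod_cast hz
  obtain ⟨M, hM⟩ : ∃ M, M = max z (P.sup id) := ⟨_, rfl⟩
  have hsub : P ⊆ Ioc z M := by
    intro p hp
    rw [Finset.mem_Ioc]
    refine ⟨(hP p hp).2, ?_⟩
    rw [hM]
    exact (Finset.le_sup (f := id) hp).trans (le_max_right _ _)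
  have h1 : ∑ p ∈ P, 1 / ((p : ℝ) * ((p : ℝ) - 1)) ≤ 1 / z := by
    refine (Finset.sum_le_sum_of_subset_of_nonneg hsub ?_).trans ((tele z hz M ?_).trans ?_)
    · intro p hp _
      have h2 := (Finset.mem_Ioc.1 hp).1
      have h3 : (1 : ℝ) ≤ p := by exact_mod_cast (by omega : 1 ≤ p)
      exact div_nonneg zero_le_one (mul_nonneg (by linarith) (by linarith))
    · rw [hM]
      exact le_max_left _ _
    · have : (0 : ℝ) ≤ 1 / M := by positivity
      linarith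
  have h2 : ∑ p ∈ P, pcc z p / p = 2 * z * ∑ p ∈ P, 1 / ((p : ℝ) * ((p : ℝ) - 1)) := by
    rw [Finset.mul_sum]
    refine Finset.sum_congr rfl fun p _ => ?_
    rw [pcc, div_div, mul_comm ((p : ℝ) - 1) p, mul_one_div]
  rw [h2]
  calc 2 * (z : ℝ) * ∑ p ∈ P, 1 / ((p : ℝ) * ((p : ℝ) - 1)) ≤ 2 * z * (1 / z) :=
        mul_le_mul_of_nonneg_left h1 (by positivity)
    _ = 2 := by field_simp

private theorem sum_FF (X z : ℕ) (hz : 1 ≤ z) (P : Finset ℕ) (hP : ∀ p ∈ P, p.Prime ∧ z < p) :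
    ∑ d ∈ Icc 1 X, pFF z P d ≤ X * Real.exp 2 := by
  have h1 : ∀ d, pFF z P d = ∑ t ∈ P.powerset, if (∀ p ∈ t, p ∣ d) then ∏ p ∈ t, pcc z p else 0 := by
    intro d
    have e1 : pFF z P d = ∏ p ∈ P, (1 + if p ∣ d then pcc z p else 0) := by
      rw [pFF, Finset.prod_filter]
      refine Finset.prod_congr rfl fun p _ => ?_
      by_cases h : p ∣ d <;> simp [h]
    rw [e1, Finset.prod_one_add]
    refine Finset.sum_congr rfl fun t _ => ?_
    by_cases h : ∀ p ∈ t, p ∣ d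
    · rw [if_pos h]
      exact Finset.prod_congr rfl fun p hp => if_pos (h p hp)
    · rw [if_neg h]
      push Not at h
      obtain ⟨p, hp, hpd⟩ := h
      exact Finset.prod_eq_zero hp (if_neg hpd)
  have h2 : ∀ t ∈ P.powerset, ∑ d ∈ Icc 1 X, (if (∀ p ∈ t, p ∣ d) then ∏ p ∈ t, pcc z p else 0) ≤
      X * ∏ p ∈ t, (pcc z p / p) := by
    intro t ht
    have ht' := Finset.mem_powerset.1 ht
    have hc : ∀ p ∈ t, 0 ≤ pcc z p := fun p hp => pcc_nonneg (hP p (ht' hp)).1.one_le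
    have hcard : ((((Icc 1 X).filter (fun d => ∀ p ∈ t, p ∣ d)).card : ℕ) : ℝ) ≤ X / ∏ p ∈ t, (p : ℝ) := by
      have e1 : (Icc 1 X).filter (fun d => ∀ p ∈ t, p ∣ d) ⊆ (Ioc 0 X).filter (fun d => (∏ p ∈ t, p) ∣ d) := by
        intro d hd
        rw [Finset.mem_filter, Finset.mem_Icc] at hd
        rw [Finset.mem_filter, Finset.mem_Ioc]
        refine ⟨⟨by omega, hd.1.2⟩, ?_⟩
        exact Finset.prod_primes_dvd d (fun p hp => (hP p (ht' hp)).1.prime) hd.2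
      have e2 := Finset.card_le_card e1
      rw [Nat.Ioc_filter_dvd_card_eq_div] at e2
      have e3 : ((X / ∏ p ∈ t, p : ℕ) : ℝ) ≤ (X : ℝ) / ((∏ p ∈ t, p : ℕ) : ℝ) := Nat.cast_div_le
      rw [Nat.cast_prod] at e3
      exact le_trans (by exact_mod_cast e2) e3
    rw [← Finset.sum_filter, Finset.sum_const, nsmul_eq_mul, Finset.prod_div_distrib]
    calc ((((Icc 1 X).filter (fun d => ∀ p ∈ t, p ∣ d)).card : ℕ) : ℝ) * ∏ p ∈ t, pcc z p
        ≤ (X / ∏ p ∈ t, (p : ℝ)) * ∏ p ∈ t, pcc z p :=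
          mul_le_mul_of_nonneg_right hcard (Finset.prod_nonneg hc)
      _ = X * ((∏ p ∈ t, pcc z p) / ∏ p ∈ t, (p : ℝ)) := by ring
  calc ∑ d ∈ Icc 1 X, pFF z P d
      = ∑ t ∈ P.powerset, ∑ d ∈ Icc 1 X, (if (∀ p ∈ t, p ∣ d) then ∏ p ∈ t, pcc z p else 0) := by
        rw [Finset.sum_comm]
        exact Finset.sum_congr rfl fun d _ => h1 d
    _ ≤ ∑ t ∈ P.powerset, (X : ℝ) * ∏ p ∈ t, (pcc z p / p) := Finset.sum_le_sum h2
    _ = X * ∏ p ∈ P, (1 + pcc z p / p) := by rw [← Finset.mul_sum, Finset.prod_one_add]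
    _ ≤ X * Real.exp 2 := by
        refine mul_le_mul_of_nonneg_left ?_ (Nat.cast_nonneg X)
        calc ∏ p ∈ P, (1 + pcc z p / p) ≤ ∏ p ∈ P, Real.exp (pcc z p / p) := by
              refine Finset.prod_le_prod (fun p hp => ?_) fun p _ => ?_
              · have := div_nonneg (pcc_nonneg (z := z) (hP p hp).1.one_le) (Nat.cast_nonneg (α := ℝ) p)
                linarith
              · have := Real.add_one_le_exp (pcc z p / (p : ℝ))
                linarith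
          _ = Real.exp (∑ p ∈ P, pcc z p / p) := (Real.exp_sum _ _).symm
          _ ≤ Real.exp 2 := Real.exp_le_exp.2 (sum_inv z hz P hP)

private theorem fac_pow {z p : ℕ} (hz : 1 ≤ z) (hp : z < p) :
    (1 + 1 / ((p : ℝ) - 1)) ^ z ≤ 1 + pcc z p := by
  have hp1 : (z : ℝ) + 1 ≤ p := by exact_mod_cast hp
  have hz1 : (1 : ℝ) ≤ z := by exact_mod_cast hz
  have hpos : (0 : ℝ) < (p : ℝ) - 1 := by linarith
  obtain ⟨x, hx⟩ : ∃ x : ℝ, x = z / ((p : ℝ) - 1) := ⟨_, rfl⟩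
  have hx0 : 0 ≤ x := by rw [hx]; positivity
  have hx1 : x ≤ 1 := by
    rw [hx, div_le_one hpos]
    linarith
  have h1 : (1 + 1 / ((p : ℝ) - 1)) ^ z ≤ Real.exp x := by
    have h2 : 1 + 1 / ((p : ℝ) - 1) ≤ Real.exp (1 / ((p : ℝ) - 1)) := by
      have := Real.add_one_le_exp (1 / ((p : ℝ) - 1))
      linarith
    refine (pow_le_pow_left₀ (by positivity) h2 z).trans (le_of_eq ?_)
    rw [← Real.exp_nat_mul, hx]
    congr 1
    ring
  have h3 := Real.abs_exp_sub_one_sub_id_le (x := x) (by rw [abs_of_nonneg hx0]; exact hx1)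
  have h4 := (abs_le.1 h3).2
  have h5 : pcc z p = 2 * x := by
    rw [pcc, hx]
    ring
  rw [h5]
  nlinarith

private theorem mod_iff (a b p : ℕ) : a % p = b % p ↔ p ∣ a - b + (b - a) := by
  rcases le_total a b with h | h
  · rw [Nat.sub_eq_zero_of_le h, zero_add]
    exact Nat.modEq_iff_dvd' h
  · rw [Nat.sub_eq_zero_of_le h, add_zero]
    exact ⟨fun e => (Nat.modEq_iff_dvd' h).1 e.symm, fun e => ((Nat.modEq_iff_dvd' h).2 e).symm⟩

theorem pairs (X z : ℕ) (hz : 1 ≤ z) (P : Finset ℕ) (hP : ∀ p ∈ P, p.Prime ∧ z < p)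
    (S : Finset ℕ) (hS : S ⊆ Icc 1 X) (hne : S.Nonempty) :
    ∑ x ∈ S.offDiag, ∏ p ∈ P.filter (fun p => x.1 % p = x.2 % p), (1 + 1 / ((p : ℝ) - 1)) ≤
      (S.card : ℝ) ^ 2 * Real.exp ((Real.log ((X : ℝ) / S.card) + 3) / z) := by
  obtain ⟨g, hg⟩ : ∃ g : ℕ × ℕ → ℝ, g = fun x => ∏ p ∈ P.filter (fun p => x.1 % p = x.2 % p),
    (1 + 1 / ((p : ℝ) - 1)) := ⟨_, rfl⟩
  have hz0 : (0 : ℝ) < z := by exact_mod_cast hz
  have hfac : ∀ p ∈ P, 0 ≤ 1 + 1 / ((p : ℝ) - 1) := by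
    intro p hp
    have h1 : (1 : ℝ) ≤ p := by exact_mod_cast (hP p hp).1.one_le
    have h2 : (0 : ℝ) ≤ 1 / ((p : ℝ) - 1) := div_nonneg zero_le_one (by linarith)
    linarith
  have hg0 : ∀ x, 0 ≤ g x := by
    intro x
    rw [hg]
    exact Finset.prod_nonneg fun p hp => hfac p (Finset.mem_filter.1 hp).1
  have hgz : ∀ x, g x ^ z ≤ pFF z P (x.1 - x.2 + (x.2 - x.1)) := by
    intro x
    rw [hg, pFF]
    simp only
    rw [← Finset.prod_pow, Finset.filter_congr (fun p _ => mod_iff x.1 x.2 p)]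
    refine Finset.prod_le_prod (fun p hp => pow_nonneg (hfac p (Finset.mem_filter.1 hp).1) z) fun p hp => ?_
    exact fac_pow hz (hP p (Finset.mem_filter.1 hp).1).2
  have hF0 : ∀ d, 0 ≤ pFF z P d := by
    intro d
    refine Finset.prod_nonneg fun p hp => ?_
    have := pcc_nonneg (z := z) (hP p (Finset.mem_filter.1 hp).1).1.one_le
    linarith
  have hs0 : 0 < S.card := hne.card_pos
  have hs : (0 : ℝ) < S.card := by exact_mod_cast hs0
  have hX : (0 : ℝ) < X := by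
    obtain ⟨a, ha⟩ := hne
    have := Finset.mem_Icc.1 (hS ha)
    exact_mod_cast (by omega : 0 < X)
  -- the sum of the powers
  have hsum : ∑ x ∈ S.offDiag, g x ^ z ≤ 2 * S.card * (X * Real.exp 2) := by
    refine (Finset.sum_le_sum fun x _ => hgz x).trans ?_
    refine (offDiag_le X S hS _ hF0).trans ?_
    exact mul_le_mul_of_nonneg_left (sum_FF X z hz P hP) (by positivity)
  -- power mean
  have hcard : ((S.offDiag.card : ℕ) : ℝ) ≤ (S.card : ℝ) ^ 2 := by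
    have h1 : S.offDiag.card ≤ S.card * S.card := by
      rw [Finset.offDiag_card]
      exact Nat.sub_le _ _
    rw [sq]
    exact_mod_cast h1
  obtain ⟨n, rfl⟩ : ∃ n, z = n + 1 := ⟨z - 1, by omega⟩
  have hpm : (∑ x ∈ S.offDiag, g x) ^ (n + 1) ≤ ((S.card : ℝ) ^ 2) ^ n * ∑ x ∈ S.offDiag, g x ^ (n + 1) := by
    rcases Finset.eq_empty_or_nonempty S.offDiag with h | h
    · rw [h]
      simp
    have h1 := pow_sum_div_card_le_sum_pow (s := S.offDiag) (f := g) (fun x _ => hg0 x) n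
    have h2 : (0 : ℝ) < (S.offDiag.card : ℝ) ^ n := by
      have : 0 < S.offDiag.card := h.card_pos
      positivity
    rw [div_le_iff₀ h2] at h1
    refine h1.trans ?_
    rw [mul_comm]
    refine mul_le_mul_of_nonneg_right (pow_le_pow_left₀ (Nat.cast_nonneg _) hcard n) ?_
    exact Finset.sum_nonneg fun x _ => pow_nonneg (hg0 x) _
  have hR0 : 0 ≤ (S.card : ℝ) ^ 2 * Real.exp ((Real.log ((X : ℝ) / S.card) + 3) / ((n + 1 : ℕ) : ℝ)) := by
    positivity
  have hS0 : 0 ≤ ∑ x ∈ S.offDiag, g x := Finset.sum_nonneg fun x _ => hg0 x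
  have hexp : Real.exp ((Real.log ((X : ℝ) / S.card) + 3) / ((n + 1 : ℕ) : ℝ)) ^ (n + 1) =
      (X : ℝ) / S.card * Real.exp 3 := by
    rw [← Real.exp_nat_mul, mul_div_cancel₀ _ hz0.ne', Real.exp_add, Real.exp_log (by positivity)]
  have h2e : (2 : ℝ) ≤ Real.exp 1 := by
    have := Real.add_one_le_exp (1 : ℝ)
    linarith
  have h3e : Real.exp 3 = Real.exp 2 * Real.exp 1 := by
    rw [← Real.exp_add]
    norm_num
  have hfin : (∑ x ∈ S.offDiag, g x) ^ (n + 1) ≤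
      ((S.card : ℝ) ^ 2 * Real.exp ((Real.log ((X : ℝ) / S.card) + 3) / ((n + 1 : ℕ) : ℝ))) ^ (n + 1) := by
    rw [mul_pow, hexp]
    calc (∑ x ∈ S.offDiag, g x) ^ (n + 1)
        ≤ ((S.card : ℝ) ^ 2) ^ n * (2 * S.card * (X * Real.exp 2)) :=
          hpm.trans (mul_le_mul_of_nonneg_left hsum (by positivity))
      _ = 2 * (((S.card : ℝ) ^ 2) ^ n * S.card * X * Real.exp 2) := by ring
      _ ≤ Real.exp 1 * (((S.card : ℝ) ^ 2) ^ n * S.card * X * Real.exp 2) :=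
          mul_le_mul_of_nonneg_right h2e (by positivity)
      _ = ((S.card : ℝ) ^ 2) ^ (n + 1) * ((X : ℝ) / S.card * Real.exp 3) := by
          rw [h3e]
          field_simp
          ring
  have := (pow_le_pow_iff_left₀ hS0 hR0 (Nat.succ_ne_zero n)).1 hfin
  rw [hg] at this
  exact this

end Pool.Agent.Lib.MP_e3f158_nt.CL
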