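import Pool.Agent.Lib.MP_e3f158_nt.CL.Count
import Pool.Agent.Lib.MP_e3f158_nt.CL.Pairs

/-!
# MP_e3f158_nt, project CL: variance of the sifted convolution (module CLX-Var)

PROOF. `T n = ∑_{r ∈ S} 1[∀ p ∈ P, p ∤ n - r]`, `V = VP P ∈ [0,1]`, `E = Er X Q P R`,
`N = #NC ≤ X/Q + 2 ≤ X/Q + E` (`card_NC`; `E ≥ 2`).
`∑_n (T n)^2 = ∑_{(r,r') ∈ S × S} #{n ∈ NC : ∀ p ∈ P, p ∤ n - r, p ∤ n - r'}`. By `count2`
(S ⊆ [1,X]) the term is at most `X/Q * ∏ (1 - ν_p/p) + E`, `ν_p = 1` if `r ≡ r' mod p`, else `2`.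
`1 - 2/p ≤ (1-1/p)^2` and `1 - 1/p = (1-1/p)^2 (1 + 1/(p-1))`, so
`∏ (1 - ν_p/p) ≤ V^2 ∏_{p ∈ P, r ≡ r' (p)} (1 + 1/(p-1))`; for `r = r'` use `∏ = V ≤ 1` instead.
With `pairs`: `∑ T^2 ≤ X/Q V^2 |S|^2 e^t + X/Q |S| + |S|^2 E`, `t = (log (X/|S|) + 3)/z`.
`∑_n T n = ∑_r #{..} ≥ |S| (X/Q V - E)` (`count2` with `r' = r`).
`∑ (T - |S| V)^2 = ∑ T^2 - 2 |S| V ∑ T + N |S|^2 V^2 ≤ X/Q V^2 |S|^2 (e^t - 2 + 1) + X/Q |S|
 + |S|^2 E (1 + 2V + V^2)`, and `1 + 2V + V^2 ≤ 4`.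
-/

set_option autoImplicit false

namespace Pool.Agent.Lib.MP_e3f158_nt.CL

open Finset

private theorem cast_TT (P S : Finset ℕ) (n : ℕ) :
    (TT P S n : ℝ) = ∑ r ∈ S, if (∀ p ∈ P, ¬ p ∣ n - r) then (1 : ℝ) else 0 := by
  rw [TT, Finset.natCast_card_filter]

private theorem sum_TT (X Q h : ℕ) (P S : Finset ℕ) :
    ∑ n ∈ NC X Q h, (TT P S n : ℝ) =
      ∑ r ∈ S, (((NC X Q h).filter fun n => ∀ p ∈ P, ¬ p ∣ n - r ∧ ¬ p ∣ n - r).card : ℝ) := by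
  simp_rw [cast_TT]
  rw [Finset.sum_comm]
  refine Finset.sum_congr rfl fun r _ => ?_
  rw [Finset.natCast_card_filter]
  refine Finset.sum_congr rfl fun n _ => ?_
  simp only [and_self]

private theorem sum_TT_sq (X Q h : ℕ) (P S : Finset ℕ) :
    ∑ n ∈ NC X Q h, (TT P S n : ℝ) ^ 2 =
      ∑ x ∈ S ×ˢ S,
        (((NC X Q h).filter fun n => ∀ p ∈ P, ¬ p ∣ n - x.1 ∧ ¬ p ∣ n - x.2).card : ℝ) := by
  have h0 : ∀ n, (TT P S n : ℝ) ^ 2 = ∑ x ∈ S ×ˢ S, (if (∀ p ∈ P, ¬ p ∣ n - x.1) then (1 : ℝ)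
      else 0) * (if (∀ p ∈ P, ¬ p ∣ n - x.2) then (1 : ℝ) else 0) := by
    intro n
    rw [cast_TT, sq, Finset.sum_mul_sum, ← Finset.sum_product']
  rw [Finset.sum_congr rfl fun n _ => h0 n, Finset.sum_comm]
  refine Finset.sum_congr rfl fun x _ => ?_
  rw [Finset.natCast_card_filter]
  refine Finset.sum_congr rfl fun n _ => ?_
  by_cases h1 : ∀ p ∈ P, ¬ p ∣ n - x.1
  · by_cases h2 : ∀ p ∈ P, ¬ p ∣ n - x.2
    · rw [if_pos h1, if_pos h2, if_pos fun p hp => ⟨h1 p hp, h2 p hp⟩, one_mul]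
    · rw [if_neg h2, mul_zero, if_neg fun h3 => h2 fun p hp => (h3 p hp).2]
  · rw [if_neg h1, zero_mul, if_neg fun h3 => h1 fun p hp => (h3 p hp).1]

private theorem two_le {z : ℕ} (hz : 1 ≤ z) {P : Finset ℕ} (hP : ∀ p ∈ P, p.Prime ∧ z < p)
    {p : ℕ} (hp : p ∈ P) : (2 : ℝ) ≤ p := by
  have h := (hP p hp).1.two_le
  exact_mod_cast h

private theorem VP_nonneg {z : ℕ} (hz : 1 ≤ z) {P : Finset ℕ} (hP : ∀ p ∈ P, p.Prime ∧ z < p) :
    0 ≤ VP P := by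
  refine Finset.prod_nonneg fun p hp => ?_
  have h := two_le hz hP hp
  rw [sub_nonneg, div_le_one (by linarith)]
  linarith

private theorem VP_le_one {z : ℕ} (hz : 1 ≤ z) {P : Finset ℕ} (hP : ∀ p ∈ P, p.Prime ∧ z < p) :
    VP P ≤ 1 := by
  refine Finset.prod_le_one (fun p hp => ?_) fun p hp => ?_
  · have h := two_le hz hP hp
    rw [sub_nonneg, div_le_one (by linarith)]
    linarith
  · have h := two_le hz hP hp
    have : (0 : ℝ) ≤ 1 / (p : ℝ) := by positivity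
    linarith

private theorem prod_le {z : ℕ} (hz : 1 ≤ z) {P : Finset ℕ} (hP : ∀ p ∈ P, p.Prime ∧ z < p)
    (r r' : ℕ) : ∏ p ∈ P, (1 - (if r % p = r' % p then (1 : ℝ) else 2) / (p : ℝ)) ≤
      VP P ^ 2 * ∏ p ∈ P.filter (fun p => r % p = r' % p), (1 + 1 / ((p : ℝ) - 1)) := by
  rw [VP, ← Finset.prod_pow, Finset.prod_filter, ← Finset.prod_mul_distrib]
  refine Finset.prod_le_prod (fun p hp => ?_) fun p hp => ?_
  · have h := two_le hz hP hp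
    rw [sub_nonneg, div_le_one (by linarith)]
    split_ifs <;> linarith
  · have h := two_le hz hP hp
    have h0 : (p : ℝ) ≠ 0 := by
      intro h0
      rw [h0] at h
      linarith
    have h1 : (p : ℝ) - 1 ≠ 0 := by
      intro h1
      linarith
    split_ifs with hr
    · apply le_of_eq
      field_simp
      ring
    · have h2 : (1 - 1 / (p : ℝ)) ^ 2 * 1 = 1 - 2 / p + (1 / (p : ℝ)) ^ 2 := by ring
      rw [h2]
      have h3 : 0 ≤ (1 / (p : ℝ)) ^ 2 := sq_nonneg _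
      linarith

theorem variance (X z Q h R : ℕ) (hX : 1 ≤ X) (hz : 1 ≤ z) (hQ : 0 < Q) (P : Finset ℕ)
    (hP : ∀ p ∈ P, p.Prime ∧ z < p) (hcop : ∀ p ∈ P, Nat.Coprime Q p) (S : Finset ℕ)
    (hS : S ⊆ Icc 1 X) (hne : S.Nonempty) :
    ∑ n ∈ NC X Q h, ((TT P S n : ℝ) - S.card * VP P) ^ 2 ≤
      (X : ℝ) / Q * ((S.card : ℝ) * VP P) ^ 2 *
        (Real.exp ((Real.log ((X : ℝ) / S.card) + 3) / z) - 1) +
      (X : ℝ) / Q * S.card + 4 * (S.card : ℝ) ^ 2 * Er X Q P R := by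
  obtain ⟨a, ha⟩ : ∃ a : ℝ, a = (X : ℝ) / Q := ⟨_, rfl⟩
  obtain ⟨s, hs⟩ : ∃ s : ℝ, s = (S.card : ℝ) := ⟨_, rfl⟩
  obtain ⟨E, hEd⟩ : ∃ E : ℝ, E = Er X Q P R := ⟨_, rfl⟩
  obtain ⟨V, hVd⟩ : ∃ V : ℝ, V = VP P := ⟨_, rfl⟩
  obtain ⟨t, ht⟩ : ∃ t : ℝ, t = Real.exp ((Real.log ((X : ℝ) / S.card) + 3) / z) := ⟨_, rfl⟩
  have hV0 : 0 ≤ V := by rw [hVd]; exact VP_nonneg hz hP
  have hV1 : V ≤ 1 := by rw [hVd]; exact VP_le_one hz hP
  have hPp : ∀ p ∈ P, p.Prime := fun p hp => (hP p hp).1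
  have ha0 : 0 ≤ a := by rw [ha]; positivity
  have hs0 : 0 ≤ s := by rw [hs]; positivity
  have hE2 : 2 ≤ E := by
    rw [hEd, Er]
    have h1 : (0 : ℝ) ≤ (X : ℝ) / Q * (10 * Real.exp (6 * (∑ p ∈ P, (1 : ℝ) / p) - R)) := by
      positivity
    have h2 : (1 : ℝ) ≤ (1 + 2 * (P.card : ℝ)) ^ R := by
      apply one_le_pow₀
      have : (0 : ℝ) ≤ P.card := Nat.cast_nonneg _
      linarith
    linarith
  have hSX : ∀ r ∈ S, r ≤ X := fun r hr => (Finset.mem_Icc.1 (hS hr)).2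
  -- the number of `n`
  have hN : ((NC X Q h).card : ℝ) ≤ a + E := by
    have h1 := (abs_le.1 (card_NC X Q h hQ)).2
    rw [← ha] at h1
    linarith
  -- the first moment
  have hT : s * (a * V - E) ≤ ∑ n ∈ NC X Q h, (TT P S n : ℝ) := by
    rw [sum_TT, hs]
    rw [← nsmul_eq_mul]
    refine Finset.card_nsmul_le_sum S _ _ fun r hr => ?_
    have h1 := (abs_le.1 (count2 X Q h hQ hX P hPp hcop r r (hSX r hr) (hSX r hr) R)).1
    simp only [if_true] at h1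
    rw [← ha, ← hEd] at h1
    have h2 : ∏ p ∈ P, (1 - 1 / (p : ℝ)) = V := by rw [hVd]; rfl
    rw [h2] at h1
    linarith
  -- the second moment
  have hT2 : ∑ n ∈ NC X Q h, (TT P S n : ℝ) ^ 2 ≤ a * V ^ 2 * s ^ 2 * t + a * s + s ^ 2 * E := by
    rw [sum_TT_sq]
    have h1 : ∀ x ∈ S ×ˢ S,
        (((NC X Q h).filter fun n => ∀ p ∈ P, ¬ p ∣ n - x.1 ∧ ¬ p ∣ n - x.2).card : ℝ) ≤
          a * ∏ p ∈ P, (1 - (if x.1 % p = x.2 % p then (1 : ℝ) else 2) / (p : ℝ)) + E := by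
      intro x hx
      rw [Finset.mem_product] at hx
      have h2 := (abs_le.1 (count2 X Q h hQ hX P hPp hcop x.1 x.2 (hSX _ hx.1) (hSX _ hx.2) R)).2
      rw [← ha, ← hEd] at h2
      linarith
    refine (Finset.sum_le_sum h1).trans ?_
    rw [Finset.sum_add_distrib, Finset.sum_const, Finset.card_product, ← Finset.mul_sum,
      nsmul_eq_mul, Nat.cast_mul, ← hs, ← Finset.diag_union_offDiag,
      Finset.sum_union (Finset.disjoint_diag_offDiag S)]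
    have h3 : ∑ x ∈ S.diag, ∏ p ∈ P, (1 - (if x.1 % p = x.2 % p then (1 : ℝ) else 2) / (p : ℝ)) ≤
        s := by
      have h4 : ∀ x ∈ S.diag,
          ∏ p ∈ P, (1 - (if x.1 % p = x.2 % p then (1 : ℝ) else 2) / (p : ℝ)) ≤ 1 := by
        intro x hx
        rw [Finset.mem_diag] at hx
        rw [hx.2]
        simp only [if_true]
        have h5 : ∏ p ∈ P, (1 - 1 / (p : ℝ)) = V := by rw [hVd]; rfl
        rw [h5]
        exact hV1
      refine (Finset.sum_le_sum h4).trans ?_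
      rw [Finset.sum_const, Finset.diag_card, nsmul_eq_mul, mul_one, hs]
    have h6 : ∑ x ∈ S.offDiag,
        ∏ p ∈ P, (1 - (if x.1 % p = x.2 % p then (1 : ℝ) else 2) / (p : ℝ)) ≤
          V ^ 2 * (s ^ 2 * t) := by
      have h7 := pairs X z hz P hP S hS hne
      rw [← hs] at h7
      have ht2 : Real.exp ((Real.log ((X : ℝ) / s) + 3) / z) = t := by rw [ht, hs]
      rw [ht2] at h7
      refine (Finset.sum_le_sum fun x _ => prod_le hz hP x.1 x.2).trans ?_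
      rw [← Finset.mul_sum, ← hVd]
      exact mul_le_mul_of_nonneg_left h7 (sq_nonneg V)
    have h8 := mul_le_mul_of_nonneg_left (add_le_add h3 h6) ha0
    nlinarith [h8]
  -- the variance
  have hexp : ∑ n ∈ NC X Q h, ((TT P S n : ℝ) - S.card * VP P) ^ 2 =
      ∑ n ∈ NC X Q h, (TT P S n : ℝ) ^ 2 - 2 * (s * V) * ∑ n ∈ NC X Q h, (TT P S n : ℝ) +
        ((NC X Q h).card : ℝ) * (s * V) ^ 2 := by
    have hc : ((NC X Q h).card : ℝ) * (s * V) ^ 2 = ∑ _n ∈ NC X Q h, (s * V) ^ 2 := by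
      rw [Finset.sum_const, nsmul_eq_mul]
    rw [hc, Finset.mul_sum, ← Finset.sum_sub_distrib, ← Finset.sum_add_distrib]
    refine Finset.sum_congr rfl fun n _ => ?_
    rw [hs, hVd]
    ring
  rw [hexp, ← ha, ← hs, ← hVd, ← hEd]
  have hst : Real.exp ((Real.log ((X : ℝ) / s) + 3) / z) = t := by rw [ht, hs]
  rw [hst]
  have hsV : 0 ≤ s * V := mul_nonneg hs0 hV0
  have k1 : 2 * (s * V) * (s * (a * V - E)) ≤ 2 * (s * V) * ∑ n ∈ NC X Q h, (TT P S n : ℝ) :=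
    mul_le_mul_of_nonneg_left hT (by linarith)
  have k2 : ((NC X Q h).card : ℝ) * (s * V) ^ 2 ≤ (a + E) * (s * V) ^ 2 :=
    mul_le_mul_of_nonneg_right hN (sq_nonneg _)
  have k3 : s ^ 2 * E * (2 * V + V ^ 2) ≤ s ^ 2 * E * 3 := by
    refine mul_le_mul_of_nonneg_left ?_ (mul_nonneg (sq_nonneg s) (by linarith))
    nlinarith
  nlinarith [k1, k2, k3, hT2]

end Pool.Agent.Lib.MP_e3f158_nt.CL
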