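import Pool.Agent.Lib.MP_e3f158_nt.CL.Hs
import Pool.Agent.Lib.MP_e3f158_nt.CL.Cls

/-!
# MP_e3f158_nt, project CL: good classes in short windows (module CLX-Win)

PROOF. `U k = #{j ∈ [1,W] : gcd (k+j, Q) = 1}` is periodic mod `Q`; `m = W φ(Q)/Q`.
`∑_{j=1}^{W} |Sh R Q (h+j)| = ∑_{r ∈ R} U(h - r)` (with `h - r` taken mod `Q`, e.g. `U (h + (Q-1) r)`).
By Cauchy-Schwarz `∑_h (∑_{r ∈ R} (U(h-r) - m))^2 ≤ |R| ∑_{r ∈ R} ∑_h (U(h-r) - m)^2
 = |R|^2 ∑_h (U h - m)^2 ≤ |R|^2 W φ(Q)` (`hs`).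
If `h` is in the set then `∑_j |Sh R Q (h+j)| ≤ W φ(Q) |R| / (2Q) = m |R| / 2`, so the square is
`≥ (m |R|/2)^2`. Hence `# * m^2/4 ≤ W φ(Q)`, i.e. `# * W φ(Q) ≤ 4 Q^2`.
-/

set_option autoImplicit false

namespace Pool.Agent.Lib.MP_e3f158_nt.CL

open Finset

private def Win_U (Q W k : ℕ) : ℕ := ((Icc 1 W).filter fun j => Nat.Coprime (k + j) Q).card

private theorem Win_per (Q W k : ℕ) : Win_U Q W (k + Q) = Win_U Q W k := by
  unfold Win_U
  congr 1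
  refine Finset.filter_congr fun j _ => ?_
  rw [show k + Q + j = k + j + Q by ring, Nat.coprime_add_self_left]

private theorem Win_shift {f : ℕ → ℝ} {Q : ℕ} (hf : ∀ k, f (k + Q) = f k) (c : ℕ) :
    ∑ h ∈ range Q, f (h + c) = ∑ h ∈ range Q, f h := by
  induction c with
  | zero => rfl
  | succ c ih =>
    rw [← ih]
    have h1 := Finset.sum_range_succ (fun h => f (h + c)) Q
    have h2 := Finset.sum_range_succ' (fun h => f (h + c)) Q
    have h3 : f (Q + c) = f (0 + c) := by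
      rw [add_comm Q c, hf, zero_add]
    have h4 : ∑ h ∈ range Q, f (h + (c + 1)) = ∑ h ∈ range Q, f (h + 1 + c) := by
      refine Finset.sum_congr rfl fun h _ => ?_
      congr 1
      ring
    rw [h4]
    linarith

private theorem Win_cop (Q h j r : ℕ) (hQ : 0 < Q) :
    Int.gcd (((h + j : ℕ) : ℤ) - r) Q = 1 ↔ Nat.Coprime (h + (Q - 1) * r + j) Q := by
  rw [← Int.isCoprime_iff_gcd_eq_one, ← Nat.isCoprime_iff_coprime]
  have e1 : ((h + (Q - 1) * r + j : ℕ) : ℤ) = (((h + j : ℕ) : ℤ) - r) + (Q : ℤ) * r := by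
    have e2 : ((Q - 1 : ℕ) : ℤ) = (Q : ℤ) - 1 := by
      rw [Nat.cast_sub hQ, Nat.cast_one]
    push_cast [e2]
    ring
  rw [e1, IsCoprime.add_mul_left_left_iff]

private theorem Win_sum (R : Finset ℕ) (Q W h : ℕ) (hQ : 0 < Q) :
    ∑ j ∈ Icc 1 W, (Sh R Q (h + j)).card = ∑ r ∈ R, Win_U Q W (h + (Q - 1) * r) := by
  unfold Sh Win_U
  simp only [Finset.card_filter]
  rw [Finset.sum_comm]
  refine Finset.sum_congr rfl fun r _ => Finset.sum_congr rfl fun j _ => ?_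
  by_cases hc : Nat.Coprime (h + (Q - 1) * r + j) Q
  · rw [if_pos hc, if_pos ((Win_cop Q h j r hQ).2 hc)]
  · rw [if_neg hc, if_neg fun h' => hc ((Win_cop Q h j r hQ).1 h')]

theorem win (R : Finset ℕ) (hR : R.Nonempty) (Q W : ℕ) (hQ : Squarefree Q) :
    (((range Q).filter fun h => ∀ j ∈ Icc (1 : ℕ) W,
      2 * Q * (Sh R Q (h + j)).card < Nat.totient Q * R.card).card : ℝ) *
      (W * (Nat.totient Q : ℝ)) ≤ 4 * (Q : ℝ) ^ 2 := by
  have hQ0 : 0 < Q := Nat.pos_of_ne_zero hQ.ne_zero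
  set A := (range Q).filter fun h => ∀ j ∈ Icc (1 : ℕ) W,
    2 * Q * (Sh R Q (h + j)).card < Nat.totient Q * R.card with hA
  have hQR : (0 : ℝ) < Q := by exact_mod_cast hQ0
  have hRc : (0 : ℝ) < R.card := by exact_mod_cast hR.card_pos
  set m : ℝ := W * ((Nat.totient Q : ℝ) / Q) with hm
  have hm0 : 0 ≤ m := by positivity
  have hhs := hs Q W hQ
  -- the sum over the residues
  have h1 : ∑ h ∈ range Q, (∑ r ∈ R, ((Win_U Q W (h + (Q - 1) * r) : ℝ) - m)) ^ 2 ≤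
      (R.card : ℝ) ^ 2 * (W * (Nat.totient Q : ℝ)) := by
    calc ∑ h ∈ range Q, (∑ r ∈ R, ((Win_U Q W (h + (Q - 1) * r) : ℝ) - m)) ^ 2
        ≤ ∑ h ∈ range Q, (R.card : ℝ) * ∑ r ∈ R, ((Win_U Q W (h + (Q - 1) * r) : ℝ) - m) ^ 2 :=
          Finset.sum_le_sum fun h _ => sq_sum_le_card_mul_sum_sq
      _ = (R.card : ℝ) * ∑ r ∈ R, ∑ h ∈ range Q, ((Win_U Q W (h + (Q - 1) * r) : ℝ) - m) ^ 2 := by
          rw [← Finset.mul_sum, Finset.sum_comm]
      _ ≤ (R.card : ℝ) * ∑ _r ∈ R, W * (Nat.totient Q : ℝ) := by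
          refine mul_le_mul_of_nonneg_left (Finset.sum_le_sum fun r _ => ?_) hRc.le
          rw [Win_shift (f := fun k => ((Win_U Q W k : ℝ) - m) ^ 2) (fun k => by
            simp only [Win_per]) ((Q - 1) * r)]
          exact hhs
      _ = (R.card : ℝ) ^ 2 * (W * (Nat.totient Q : ℝ)) := by
          rw [Finset.sum_const, nsmul_eq_mul]
          ring
  -- the lower bound on `A`
  have h2 : ∀ h ∈ A, (m * R.card / 2) ^ 2 ≤ (∑ r ∈ R, ((Win_U Q W (h + (Q - 1) * r) : ℝ) - m)) ^ 2 := by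
    intro h hh
    have h3 := (Finset.mem_filter.1 hh).2
    have h4 : ∑ j ∈ Icc 1 W, ((Sh R Q (h + j)).card : ℝ) ≤
        ∑ _j ∈ Icc 1 W, (Nat.totient Q : ℝ) * R.card / (2 * Q) := by
      refine Finset.sum_le_sum fun j hj => ?_
      rw [le_div_iff₀ (by positivity)]
      have h5 : (2 * Q * (Sh R Q (h + j)).card : ℝ) < Nat.totient Q * R.card := by
        exact_mod_cast h3 j hj
      linarith
    rw [Finset.sum_const, Nat.card_Icc, Nat.add_sub_cancel, nsmul_eq_mul, ← Nat.cast_sum,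
      Win_sum R Q W h hQ0, Nat.cast_sum] at h4
    have h5 : (W : ℝ) * ((Nat.totient Q : ℝ) * R.card / (2 * Q)) = m * R.card / 2 := by
      rw [hm]
      field_simp
    rw [h5] at h4
    have h6 : ∑ r ∈ R, ((Win_U Q W (h + (Q - 1) * r) : ℝ) - m) =
        ∑ r ∈ R, (Win_U Q W (h + (Q - 1) * r) : ℝ) - m * R.card := by
      rw [Finset.sum_sub_distrib, Finset.sum_const, nsmul_eq_mul, mul_comm m]
    rw [h6]
    have h7 : 0 ≤ m * R.card / 2 := by positivity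
    have h8 : m * R.card / 2 ≤ m * R.card - ∑ r ∈ R, (Win_U Q W (h + (Q - 1) * r) : ℝ) := by
      linarith
    calc (m * R.card / 2) ^ 2 ≤ (m * R.card - ∑ r ∈ R, (Win_U Q W (h + (Q - 1) * r) : ℝ)) ^ 2 :=
          pow_le_pow_left₀ h7 h8 2
      _ = _ := by ring
  have h3 : (A.card : ℝ) * (m * R.card / 2) ^ 2 ≤ (R.card : ℝ) ^ 2 * (W * (Nat.totient Q : ℝ)) := by
    refine le_trans ?_ h1
    calc (A.card : ℝ) * (m * R.card / 2) ^ 2 = ∑ _h ∈ A, (m * R.card / 2) ^ 2 := by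
          rw [Finset.sum_const, nsmul_eq_mul]
      _ ≤ ∑ h ∈ A, (∑ r ∈ R, ((Win_U Q W (h + (Q - 1) * r) : ℝ) - m)) ^ 2 := Finset.sum_le_sum h2
      _ ≤ _ := Finset.sum_le_sum_of_subset_of_nonneg (Finset.filter_subset _ _)
          fun _ _ _ => sq_nonneg _
  set T : ℝ := W * (Nat.totient Q : ℝ) with hT
  have hT0 : 0 ≤ T := by positivity
  rcases hT0.eq_or_lt with h0 | h0
  · rw [← h0, mul_zero]
    positivity
  have h4 : m = T / Q := by
    rw [hm, hT]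
    ring
  rw [h4] at h3
  have h5 : (A.card : ℝ) * (T / Q * R.card / 2) ^ 2 =
      ((A.card : ℝ) * T) * ((R.card : ℝ) ^ 2 * T / (4 * (Q : ℝ) ^ 2)) := by
    field_simp
    ring
  rw [h5] at h3
  have h6 : (0 : ℝ) < (R.card : ℝ) ^ 2 * T := by positivity
  rw [mul_div_assoc', div_le_iff₀ (by positivity)] at h3
  by_contra hlt
  rw [not_le] at hlt
  have h7 := mul_lt_mul_of_pos_right hlt h6
  linarith

end Pool.Agent.Lib.MP_e3f158_nt.CL
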