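import Pool.Agent.Lib.MP_e3f158_nt.CL.Core
import Pool.Agent.Lib.MP_e3f158_nt.CL.Win
import Pool.Agent.Lib.MP_e3f158_nt.G.Mert

/-!
# MP_e3f158_nt, project CL: short windows, arbitrary set (module CLX-WinMain)
-/

set_option autoImplicit false

namespace Pool.Agent.Lib.MP_e3f158_nt.CL

open Finset Filter U Pool.MP_dd84fd_nt.E2

theorem win_fin (X Q W : ℕ) (hQ : 0 < Q) (hQX : (Q : ℝ) ≤ X) (f : ℕ → Prop) (H : Finset ℕ)
    (e : ℝ) (he : 0 ≤ e)
    (hE : ∀ h ∈ range Q, h ∉ H → ∃ j : ℕ, 1 ≤ j ∧ j ≤ W ∧ ∃ T : Finset ℕ, (T.card : ℝ) ≤ e ∧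
      ∀ n ∈ NC X Q h, n + j ≤ 2 * X → n + j ∉ T → f (n + j)) (S : Finset ℕ)
    (hS : S ⊆ Ioc X (2 * X)) (hSf : ∀ n ∈ S, ∀ m : ℕ, n < m → m ≤ n + W → ¬ f m) :
    (S.card : ℝ) ≤ H.card * (3 * ((X : ℝ) / Q)) + Q * e + W := by
  classical
  choose! j hj1 hj2 T hT hf using hE
  have hsub : S ⊆ (H.biUnion fun h => NC X Q h) ∪ (((range Q) \ H).biUnion fun h =>
      (NC X Q h).filter fun n => n + j h ∈ T h) ∪ Ioc (2 * X - W) (2 * X) := by
    intro n hn
    have hnI := mem_Ioc.1 (hS hn)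
    rw [mem_union, mem_union]
    by_cases hnW : n + W ≤ 2 * X
    · left
      have hh : n % Q ∈ range Q := mem_range.2 (Nat.mod_lt _ hQ)
      have hnNC : n ∈ NC X Q (n % Q) := mem_filter.2 ⟨hS hn, (Nat.mod_modEq n Q).symm⟩
      by_cases hH : n % Q ∈ H
      · left
        exact mem_biUnion.2 ⟨_, hH, hnNC⟩
      · right
        refine mem_biUnion.2 ⟨_, Finset.mem_sdiff.2 ⟨hh, hH⟩, mem_filter.2 ⟨hnNC, ?_⟩⟩
        by_contra hnT
        have h1 := hj1 _ hh hH
        have h2 := hj2 _ hh hH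
        exact hSf n hn (n + j (n % Q)) (by omega) (by omega)
          (hf _ hh hH n hnNC (by omega) hnT)
    · right
      rw [mem_Ioc]
      omega
  have h1 := card_le_card hsub
  have h2 : ((H.biUnion fun h => NC X Q h).card : ℝ) ≤ H.card * (3 * ((X : ℝ) / Q)) := by
    calc ((H.biUnion fun h => NC X Q h).card : ℝ) ≤ ((∑ h ∈ H, (NC X Q h).card : ℕ) : ℝ) := by
          exact_mod_cast card_biUnion_le
      _ = ∑ h ∈ H, ((NC X Q h).card : ℝ) := by push_cast; rfl
      _ ≤ ∑ h ∈ H, 3 * ((X : ℝ) / Q) := sum_le_sum fun h _ => card_NC_le X Q h hQ hQX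
      _ = _ := by rw [sum_const, nsmul_eq_mul]
  have h3 : ((((range Q) \ H).biUnion fun h =>
      (NC X Q h).filter fun n => n + j h ∈ T h).card : ℝ) ≤ Q * e := by
    calc ((((range Q) \ H).biUnion fun h =>
      (NC X Q h).filter fun n => n + j h ∈ T h).card : ℝ)
        ≤ ((∑ h ∈ (range Q) \ H, ((NC X Q h).filter fun n => n + j h ∈ T h).card : ℕ) : ℝ) := by
          exact_mod_cast card_biUnion_le
      _ = ∑ h ∈ (range Q) \ H, (((NC X Q h).filter fun n => n + j h ∈ T h).card : ℝ) := by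
          push_cast; rfl
      _ ≤ ∑ h ∈ (range Q) \ H, e := by
          refine sum_le_sum fun h hh => ?_
          rw [Finset.mem_sdiff] at hh
          refine le_trans ?_ (hT h hh.1 hh.2)
          have : ((NC X Q h).filter fun n => n + j h ∈ T h).card ≤ (T h).card := by
            refine card_le_card_of_injOn (fun n => n + j h) ?_ ?_
            · intro n hn
              exact (mem_filter.1 hn).2
            · intro a _ b _ hab
              exact Nat.add_right_cancel hab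
          exact_mod_cast this
      _ = (((range Q) \ H).card : ℝ) * e := by rw [sum_const, nsmul_eq_mul]
      _ ≤ Q * e := by
          apply mul_le_mul_of_nonneg_right _ he
          have : ((range Q) \ H).card ≤ Q := by
            have := card_le_card (sdiff_subset (s := range Q) (t := H))
            rwa [card_range] at this
          exact_mod_cast this
  have h4 : ((Ioc (2 * X - W) (2 * X)).card : ℝ) ≤ W := by
    rw [Nat.card_Ioc]
    exact_mod_cast (by omega : 2 * X - (2 * X - W) ≤ W)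
  have h5 : (S.card : ℝ) ≤ ((H.biUnion fun h => NC X Q h).card : ℝ) +
      ((((range Q) \ H).biUnion fun h => (NC X Q h).filter fun n => n + j h ∈ T h).card : ℝ) +
      ((Ioc (2 * X - W) (2 * X)).card : ℝ) := by
    have h6 := card_union_le ((H.biUnion fun h => NC X Q h) ∪ (((range Q) \ H).biUnion fun h =>
      (NC X Q h).filter fun n => n + j h ∈ T h)) (Ioc (2 * X - W) (2 * X))
    have h7 := card_union_le (H.biUnion fun h => NC X Q h) (((range Q) \ H).biUnion fun h =>
      (NC X Q h).filter fun n => n + j h ∈ T h)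
    exact_mod_cast (by omega : S.card ≤ (H.biUnion fun h => NC X Q h).card +
      (((range Q) \ H).biUnion fun h => (NC X Q h).filter fun n => n + j h ∈ T h).card +
      (Ioc (2 * X - W) (2 * X)).card)
  linarith

theorem shift_bad (Q W : ℕ) (Bad : Finset ℕ) :
    (((range Q).filter fun h => ∃ j ∈ Icc (1 : ℕ) W, (h + j) % Q ∈ Bad).card : ℝ) ≤
      W * Bad.card := by
  classical
  have hsub : ((range Q).filter fun h => ∃ j ∈ Icc (1 : ℕ) W, (h + j) % Q ∈ Bad) ⊆
      (Icc (1 : ℕ) W).biUnion fun j => (range Q).filter fun h => (h + j) % Q ∈ Bad := by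
    intro h hh
    obtain ⟨h1, j, h2, h3⟩ := mem_filter.1 hh
    exact mem_biUnion.2 ⟨j, h2, mem_filter.2 ⟨h1, h3⟩⟩
  have h1 : ((Icc (1 : ℕ) W).biUnion fun j => (range Q).filter fun h => (h + j) % Q ∈ Bad).card ≤
      (Icc (1 : ℕ) W).card * Bad.card := by
    refine card_biUnion_le_card_mul _ _ _ fun j _ => ?_
    refine card_le_card_of_injOn (fun h => (h + j) % Q) ?_ ?_
    · intro h hh
      exact (mem_filter.1 hh).2
    · intro a ha b hb hab
      have ha' := mem_range.1 (mem_filter.1 ha).1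
      have hb' := mem_range.1 (mem_filter.1 hb).1
      have h3 : a + j ≡ b + j [MOD Q] := hab
      have h4 := Nat.ModEq.add_right_cancel' j h3
      rw [Nat.ModEq, Nat.mod_eq_of_lt ha', Nat.mod_eq_of_lt hb'] at h4
      exact h4
  rw [Nat.card_Icc, Nat.add_sub_cancel] at h1
  exact_mod_cast (card_le_card hsub).trans h1

theorem log_small (c : ℝ) (hc : 0 < c) : ∀ᶠ x : ℝ in atTop, Real.log x ≤ c * x := by
  filter_upwards [Real.isLittleO_log_id_atTop.bound hc, eventually_ge_atTop (0 : ℝ)] with x h1 h2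
  rw [Real.norm_eq_abs, id, Real.norm_of_nonneg h2] at h1
  exact (le_abs_self _).trans h1

/-- Facts about large `X` for the windows. -/
theorem large2 (K C : ℝ) (hK : 0 < K) (hC : 0 < C) : ∃ X0 : ℕ, ∀ X : ℕ, X0 ≤ X →
    K + 1 ≤ Real.log (Real.log X) ∧ 1 ≤ Real.log (Real.log (Real.log X)) ∧
    2 / C ≤ Real.log (Real.log (Real.log X)) ∧
    K * Real.log (Real.log X) ^ 2 + 1 ≤ Real.log X / 3 ∧
    C * Real.log (Real.log X) * Real.log (Real.log (Real.log X)) ≤ Real.log X ∧
    16 * Real.log (Real.log X) ≤ Real.log X ∧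
    Real.log X * Real.log (Real.log X) ≤ 3 / 16 * X := by
  have hL : Tendsto (fun X : ℕ => Real.log X) atTop atTop :=
    Real.tendsto_log_atTop.comp tendsto_natCast_atTop_atTop
  have hl : Tendsto (fun X : ℕ => Real.log (Real.log X)) atTop atTop :=
    Real.tendsto_log_atTop.comp hL
  have hl3 : Tendsto (fun X : ℕ => Real.log (Real.log (Real.log X))) atTop atTop :=
    Real.tendsto_log_atTop.comp hl
  have hsq : ∀ c : ℝ, 0 < c → ∀ᶠ x : ℝ in atTop, c * Real.log x ^ 2 ≤ x := by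
    intro c hc
    filter_upwards [(Real.isLittleO_pow_log_id_atTop (n := 2)).bound (inv_pos.2 hc),
      eventually_ge_atTop (0 : ℝ)] with x h1 h2
    rw [Real.norm_eq_abs, id, Real.norm_of_nonneg h2] at h1
    have h3 := (le_abs_self _).trans h1
    have h4 := mul_le_mul_of_nonneg_left h3 hc.le
    rwa [mul_inv_cancel_left₀ hc.ne'] at h4
  have e1 := hL.eventually (hsq (6 * K) (by positivity))
  have e2 := hL.eventually (hsq C hC)
  have e3 := hl.eventually (log_small 1 one_pos)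
  have e4 : ∀ᶠ X : ℕ in atTop, 16 / 3 * Real.log X ^ 2 ≤ X :=
    tendsto_natCast_atTop_atTop.eventually (hsq (16 / 3) (by norm_num))
  have e5 := hL.eventually (log_small (1 / 16) (by norm_num))
  obtain ⟨X0, hX0⟩ := eventually_atTop.1 ((hl.eventually_ge_atTop (K + 1)).and
    ((hl3.eventually_ge_atTop 1).and ((hl3.eventually_ge_atTop (2 / C)).and
    ((hL.eventually_ge_atTop 6).and (e1.and (e2.and (e3.and (e4.and e5))))))))
  refine ⟨X0, fun X hX => ?_⟩
  obtain ⟨h1, h2, h3, h5, h6, h7, h8, h9, h10⟩ := hX0 X hX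
  have hl0 : 0 < Real.log (Real.log X) := by linarith
  refine ⟨h1, h2, h3, by linarith, ?_, by linarith, ?_⟩
  · rw [one_mul] at h8
    calc C * Real.log (Real.log X) * Real.log (Real.log (Real.log X))
        ≤ C * Real.log (Real.log X) * Real.log (Real.log X) := by gcongr
      _ = C * Real.log (Real.log X) ^ 2 := by ring
      _ ≤ Real.log X := h7
  · have h11 : Real.log (Real.log X) ≤ Real.log X := by linarith
    have h12 : Real.log X * Real.log (Real.log X) ≤ Real.log X * Real.log X :=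
      mul_le_mul_of_nonneg_left h11 (by linarith)
    nlinarith

theorem waux1 (K l δ : ℝ) (hK : 3120 ≤ K) (hl : 3 ≤ l) (hδ1 : δ < 1) : 2 * δ ≤ K * l := by
  have h1 : 3120 * 3 ≤ K * l := mul_le_mul hK hl (by norm_num) (by linarith)
  linarith

theorem waux2 (K l : ℝ) (hl : 3 ≤ l) : K * l ^ 2 + 1 ≤ (K + 1) * l ^ 2 := by
  have h1 : 3 * 3 ≤ l * l := mul_le_mul hl hl (by norm_num) (by linarith)
  have h2 : (K + 1) * l ^ 2 = K * l ^ 2 + l * l := by ring
  rw [h2]
  linarith

theorem waux3 (C c δ : ℝ) (hδ : 0 < δ) (h : 64 ≤ C * (c / 3)) :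
    32 / δ ≤ C * (c / 3) / (2 * δ) := by
  rw [div_le_div_iff₀ hδ (by positivity)]
  have h1 : 64 * δ ≤ C * (c / 3) * δ := mul_le_mul_of_nonneg_right h hδ.le
  linarith

theorem waux4 (K l z δ : ℝ) (h : K * l ≤ z * δ) :
    K * l / 16 ≤ δ / 4 * ((1 / 2) ^ 2 * z) := by
  have h1 : δ / 4 * ((1 / 2) ^ 2 * z) = z * δ / 16 := by ring
  rw [h1]
  linarith

theorem windows : ∃ C : ℝ, 0 < C ∧ ∀ A : ℕ, ∃ X0 : ℕ, ∀ X : ℕ, X0 ≤ X →
    ∀ δ : ℝ, 0 < δ → 1 ≤ δ * Real.log (Real.log X) → δ < 1 →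
    ∀ R : Finset ℕ, R ⊆ Icc 1 (X / 2) → (X : ℝ) / (Real.log X) ^ A ≤ R.card →
    ∀ S : Finset ℕ, S ⊆ Ioc X (2 * X) →
    (∀ n ∈ S, ∀ m : ℕ, n < m →
      (m : ℝ) ≤ n + C / δ * Real.log (Real.log (Real.log X)) → ¬ 0 < RA R m) →
    (S.card : ℝ) ≤ δ * X := by
  classical
  obtain ⟨c, hc, hmert⟩ := G.mert_one
  refine ⟨192 / c + 2, by positivity, fun A => ?_⟩
  obtain ⟨C, hCdef⟩ : ∃ C : ℝ, C = 192 / c + 2 := ⟨_, rfl⟩
  obtain ⟨K, hKdef⟩ : ∃ K : ℝ, K = 1040 * (A + 3) := ⟨_, rfl⟩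
  have hCpos : 0 < C := by rw [hCdef]; positivity
  have hKpos : 0 < K := by rw [hKdef]; positivity
  rw [← hCdef]
  obtain ⟨X1, hX1⟩ := core (A + 2) 3
  obtain ⟨X2, hX2⟩ := large A
  obtain ⟨X3, hX3⟩ := large2 K C hKpos hCpos
  refine ⟨max X1 (max X2 X3), fun X hX δ hδ hδl hδ1 R hR hRc S hS hSf => ?_⟩
  have hX1' : X1 ≤ X := (le_max_left _ _).trans hX
  have hX2' : X2 ≤ X := (le_max_left _ _).trans ((le_max_right _ _).trans hX)
  have hX3' : X3 ≤ X := (le_max_right _ _).trans ((le_max_right _ _).trans hX)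
  obtain ⟨h16, hL100, hl3, -, hXA, hX2r⟩ := hX2 X hX2'
  obtain ⟨g1, g2, g3, g4, g5, g6, g7⟩ := hX3 X hX3'
  set L : ℝ := Real.log X with hL
  set l : ℝ := Real.log L with hl
  set l3 : ℝ := Real.log l with hl3d
  have hL0 : 0 < L := by linarith
  have hl0 : 0 < l := by linarith
  have hXp : (0 : ℝ) < X := by linarith
  have hKlδ : 0 < K * l / δ := by positivity
  have hinv : 1 / δ ≤ l := by
    rw [div_le_iff₀ hδ]
    linarith
  have hKl2 : K * l / δ ≤ K * l ^ 2 := by
    calc K * l / δ = K * l * (1 / δ) := by ring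
      _ ≤ K * l * l := mul_le_mul_of_nonneg_left hinv (by positivity)
      _ = _ := by ring
  -- the parameter z
  set z : ℕ := ⌈K * l / δ⌉₊ with hz
  have hz1 : 1 ≤ z := Nat.one_le_ceil_iff.2 hKlδ
  have hzle : (z : ℝ) ≤ K * l / δ + 1 := (Nat.ceil_lt_add_one hKlδ.le).le
  have hzge : K * l / δ ≤ z := Nat.le_ceil _
  have hzL : (z : ℝ) ≤ L / 3 := by linarith
  have hz2 : 2 ≤ z := by
    have h1 : (2 : ℝ) ≤ K * l / δ := by
      rw [le_div_iff₀ hδ]
      have : (3120 : ℝ) ≤ K := by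
        rw [hKdef]
        have : (0 : ℝ) ≤ A := Nat.cast_nonneg _
        linarith
      exact waux1 K l δ this hl3 hδ1
    have h2 : (2 : ℝ) ≤ z := h1.trans hzge
    exact_mod_cast h2
  have hzr : (2 : ℝ) ≤ z := by exact_mod_cast hz2
  have hlogz : Real.log z ≤ 3 * l3 := by
    have h1 : (z : ℝ) ≤ l ^ 3 := by
      have h2 : K * l ^ 2 + 1 ≤ (K + 1) * l ^ 2 := waux2 K l hl3
      have h3 : (K + 1) * l ^ 2 ≤ l * l ^ 2 := mul_le_mul_of_nonneg_right g1 (by positivity)
      calc (z : ℝ) ≤ l * l ^ 2 := by linarith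
        _ = l ^ 3 := by ring
    calc Real.log z ≤ Real.log (l ^ 3) := Real.log_le_log (by linarith) h1
      _ = 3 * l3 := by rw [Real.log_pow]; push_cast; rfl
  obtain ⟨Bad, hBs, hBc, hcore⟩ := hX1 X hX1' R hR z hz1 hzL
  obtain ⟨Q, hQdef⟩ : ∃ Q : ℕ, Q = primorial z := ⟨_, rfl⟩
  have htot := tot_ge z hz1
  have hQX0 := primorial_le X z (by omega) hzL
  have hQ0' := primorial_pos z
  have hmz := hmert 0 z hz2
  have htm := tot_mul 0 z (by omega)
  have hp0 : primorial 0 = 1 := by decide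
  rw [hp0, Nat.totient_one, Nat.cast_one, div_one, one_mul] at htm
  have hQsq : Squarefree (primorial z) := by
    rw [G.primorial_eq]
    apply Finset.squarefree_prod_of_pairwise_isCoprime
    · intro p hp q hq hpq
      have h1 := (G.mem_prs.1 hp).2.2
      have h2 := (G.mem_prs.1 hq).2.2
      exact Nat.coprime_iff_isRelPrime.1 ((Nat.coprime_primes h1 h2).2 hpq)
    · intro p hp
      exact (G.mem_prs.1 hp).2.2.prime.squarefree
  rw [← hQdef] at hBs hBc hcore htot hQX0 hQ0' htm hQsq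
  set φ : ℝ := (Nat.totient Q : ℝ) with hφdef
  have hQr : (0 : ℝ) < Q := by exact_mod_cast hQ0'
  have hφ : 0 < φ := by rw [hφdef]; exact_mod_cast Nat.totient_pos.2 hQ0'
  have hRp : 0 < (R.card : ℝ) := lt_of_lt_of_le (by positivity) hRc
  have hRne : R.Nonempty := by
    rw [← card_pos]
    exact_mod_cast hRp
  have hφQ : c / (3 * l3) ≤ φ / Q := by
    rw [htm]
    refine le_trans ?_ hmz
    have : 0 < Real.log z := Real.log_pos (by linarith)
    exact div_le_div_of_nonneg_left hc.le this hlogz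
  -- the parameter W
  set W : ℕ := ⌊C / δ * l3⌋₊ with hW
  have hCl3 : 0 ≤ C / δ * l3 := by positivity
  have hWle : (W : ℝ) ≤ C / δ * l3 := Nat.floor_le hCl3
  have hWge : C / (2 * δ) * l3 ≤ W := by
    have h1 : C / δ * l3 < W + 1 := Nat.lt_floor_add_one _
    have h2 : 1 ≤ C / (2 * δ) * l3 := by
      have h3 : 2 / C * (C / (2 * δ)) ≤ l3 * (C / (2 * δ)) :=
        mul_le_mul_of_nonneg_right g3 (by positivity)
      have h4 : 2 / C * (C / (2 * δ)) = 1 / δ := by field_simp
      have h5 : 1 ≤ 1 / δ := by rw [le_div_iff₀ hδ]; linarith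
      linarith
    have h3 : C / δ * l3 = 2 * (C / (2 * δ) * l3) := by field_simp
    linarith
  have hWpos : 0 < (W : ℝ) := lt_of_lt_of_le (by positivity) hWge
  have hWL : (W : ℝ) ≤ L := by
    refine hWle.trans (le_trans ?_ g5)
    calc C / δ * l3 = C * (1 / δ) * l3 := by ring
      _ ≤ C * l * l3 := by gcongr
  -- the classes without a good class nearby
  set H1 := (range Q).filter fun h => ∀ j ∈ Icc (1 : ℕ) W,
      2 * Q * (Sh R Q (h + j)).card < Nat.totient Q * R.card with hH1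
  set H2 := (range Q).filter fun h => ∃ j ∈ Icc (1 : ℕ) W, (h + j) % Q ∈ Bad with hH2
  have hH1c : (H1.card : ℝ) ≤ δ / 8 * Q := by
    have h1 : (H1.card : ℝ) * (W * φ) ≤ 4 * (Q : ℝ) ^ 2 := win R hRne Q W hQsq
    have h2 : 32 * Q ≤ δ * (W * φ) := by
      have h3 : 192 / c * (c / 3) ≤ C * (c / 3) := by
        apply mul_le_mul_of_nonneg_right _ (by positivity)
        rw [hCdef]
        linarith
      have h4 : 192 / c * (c / 3) = 64 := by field_simp; norm_num
      have h5 : C / (2 * δ) * l3 * (c / (3 * l3)) ≤ W * (φ / Q) :=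
        mul_le_mul hWge hφQ (by positivity) hWpos.le
      have h6 : C / (2 * δ) * l3 * (c / (3 * l3)) = C * (c / 3) / (2 * δ) := by field_simp
      rw [h6] at h5
      have h7 : 32 / δ ≤ W * (φ / Q) := by
        refine le_trans ?_ h5
        exact waux3 C c δ hδ (by linarith)
      rw [div_le_iff₀ hδ] at h7
      have h8 : (W * (φ / Q) * δ) * Q = δ * (W * φ) := by field_simp
      rw [← h8]
      exact mul_le_mul_of_nonneg_right h7 hQr.le
    have hWφ : 0 < W * φ := by positivity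
    rw [← mul_le_mul_iff_left₀ hWφ]
    calc (H1.card : ℝ) * (W * φ) ≤ 4 * (Q : ℝ) ^ 2 := h1
      _ = (32 * Q) * (Q / 8) := by ring
      _ ≤ (δ * (W * φ)) * (Q / 8) := mul_le_mul_of_nonneg_right h2 (by positivity)
      _ = _ := by ring
  have hH2c : (H2.card : ℝ) ≤ δ / 16 * Q := by
    have h1 := shift_bad Q W Bad
    have h2 : (W : ℝ) * Bad.card ≤ L * (Q / L ^ 3) :=
      mul_le_mul hWL hBc (Nat.cast_nonneg _) hL0.le
    have h3 : L * (Q / L ^ 3) = 1 / L * (1 / L) * Q := by field_simp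
    have h4 : 1 / L ≤ δ / 16 := by
      rw [div_le_div_iff₀ hL0 (by norm_num)]
      have h6 : δ * (16 * l) ≤ δ * L := mul_le_mul_of_nonneg_left g6 hδ.le
      linarith
    have h5 : 1 / L * (1 / L) ≤ δ / 16 * 1 := by
      apply mul_le_mul h4 _ (by positivity) (by positivity)
      rw [div_le_one hL0]
      linarith
    calc (H2.card : ℝ) ≤ W * Bad.card := h1
      _ ≤ 1 / L * (1 / L) * Q := by rw [← h3]; exact h2
      _ ≤ δ / 16 * 1 * Q := mul_le_mul_of_nonneg_right h5 hQr.le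
      _ = _ := by ring
  have hfin := win_fin X Q W hQ0' hQX0 (fun m => 0 < RA R m) (H1 ∪ H2) (δ / 4 * ((X : ℝ) / Q))
    (by positivity) ?_ S hS ?_
  · have h1 : ((H1 ∪ H2).card : ℝ) ≤ H1.card + H2.card := by exact_mod_cast card_union_le _ _
    have h2 : ((H1 ∪ H2).card : ℝ) * (3 * ((X : ℝ) / Q)) ≤ (3 * δ / 16 * Q) * (3 * ((X : ℝ) / Q)) := by
      apply mul_le_mul_of_nonneg_right _ (by positivity)
      linarith
    have h3 : (3 * δ / 16 * Q) * (3 * ((X : ℝ) / Q)) = 9 * δ / 16 * X := by field_simp; ring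
    have h4 : (Q : ℝ) * (δ / 4 * ((X : ℝ) / Q)) = δ / 4 * X := by field_simp
    have h5 : (W : ℝ) ≤ 3 / 16 * δ * X := by
      refine hWL.trans ?_
      have h6 : δ * (L * l) ≤ δ * (3 / 16 * X) := mul_le_mul_of_nonneg_left g7 hδ.le
      have h7 : L * 1 ≤ L * (δ * l) := mul_le_mul_of_nonneg_left hδl hL0.le
      linarith
    rw [h3] at h2
    rw [h4] at hfin
    linarith
  · intro h hh hhH
    rw [Finset.mem_union, not_or] at hhH
    obtain ⟨hn1, hn2⟩ := hhH
    have h1 : ∃ j ∈ Icc (1 : ℕ) W, Nat.totient Q * R.card ≤ 2 * Q * (Sh R Q (h + j)).card := by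
      by_contra hcon
      push Not at hcon
      exact hn1 (mem_filter.2 ⟨hh, hcon⟩)
    obtain ⟨j, hj, hjN⟩ := h1
    have hjI := mem_Icc.1 hj
    have h2 : (h + j) % Q ∉ Bad := fun hb => hn2 (mem_filter.2 ⟨hh, j, hj, hb⟩)
    have h3 : (h + j) % Q ∈ range Q := mem_range.2 (Nat.mod_lt _ hQ0')
    have h4 : Sh R Q (h + j) = Sh R Q ((h + j) % Q) :=
      Sh_modEq R Q _ _ (Nat.mod_modEq (h + j) Q).symm
    rw [h4] at hjN
    obtain ⟨h', hh'⟩ : ∃ h', h' = (h + j) % Q := ⟨_, rfl⟩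
    rw [← hh'] at h2 h3 hjN
    have hjN' : φ * R.card ≤ 2 * Q * ((Sh R Q h').card : ℝ) := by
      have hc : ((Nat.totient Q * R.card : ℕ) : ℝ) ≤ ((2 * Q * (Sh R Q h').card : ℕ) : ℝ) := by
        exact_mod_cast hjN
      push_cast at hc
      exact hc
    have h5 : (X : ℝ) / L ^ (A + 2) ≤ ((Sh R Q h').card : ℝ) := by
      have e1 : (Q : ℝ) ≤ L / 3 * φ := htot.trans (mul_le_mul_of_nonneg_right hzL hφ.le)
      have e2 : φ * R.card ≤ φ * (2 * (L / 3) * ((Sh R Q h').card : ℝ)) := by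
        calc φ * R.card ≤ 2 * Q * ((Sh R Q h').card : ℝ) := hjN'
          _ ≤ 2 * (L / 3 * φ) * ((Sh R Q h').card : ℝ) := by
              apply mul_le_mul_of_nonneg_right _ (Nat.cast_nonneg _)
              linarith
          _ = _ := by ring
      have e3 : (R.card : ℝ) ≤ 2 * (L / 3) * ((Sh R Q h').card : ℝ) := le_of_mul_le_mul_left e2 hφ
      have e4 : (0 : ℝ) ≤ ((Sh R Q h').card : ℝ) := Nat.cast_nonneg _
      generalize ((Sh R Q h').card : ℝ) = s at e3 e4 ⊢
      generalize (R.card : ℝ) = r at e3 hRc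
      rw [div_le_iff₀ (by positivity)] at hRc ⊢
      calc (X : ℝ) ≤ r * L ^ A := hRc
        _ ≤ (2 * (L / 3) * s) * L ^ A := mul_le_mul_of_nonneg_right e3 (by positivity)
        _ = (2 / 3) * s * L ^ A * L := by ring
        _ ≤ (2 / 3) * s * L ^ A * (L * L) := by
            apply mul_le_mul_of_nonneg_left _ (by positivity)
            have := mul_le_mul_of_nonneg_left (by linarith : (1 : ℝ) ≤ L) hL0.le
            linarith
        _ ≤ 1 * s * L ^ A * (L * L) := by
            apply mul_le_mul_of_nonneg_right _ (by positivity)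
            apply mul_le_mul_of_nonneg_right _ (by positivity)
            apply mul_le_mul_of_nonneg_right _ e4
            norm_num
        _ = _ := by ring
    have h6 := hcore h' h3 h2 h5 (1 / 2) (by norm_num) (by norm_num)
    refine ⟨j, hjI.1, hjI.2, (NC X Q h').filter fun n => ¬ |RA R n - Mh R X Q h'| ≤
      1 / 2 * Mh R X Q h', ?_, ?_⟩
    · refine h6.trans ?_
      apply mul_le_mul_of_nonneg_right _ (by positivity)
      rw [div_le_iff₀ (by positivity)]
      have e1 : K * l ≤ z * δ := by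
        rw [div_le_iff₀ hδ] at hzge
        exact hzge
      have e2 : (65 : ℝ) * (((A + 2 : ℕ) : ℝ) + 1) * l = K * l / 16 := by
        rw [hKdef]
        push_cast
        ring
      rw [e2]
      exact waux4 K l z δ e1
    · intro n hn hn2X hnT
      have hnI := mem_filter.1 hn
      have hnI2 := mem_Ioc.1 hnI.1
      have e1 : n + j ∈ NC X Q h' := by
        refine mem_filter.2 ⟨mem_Ioc.2 (by omega), ?_⟩
        rw [hh']
        exact (Nat.ModEq.add_right j hnI.2).trans (Nat.mod_modEq (h + j) Q).symm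
      have e2 : |RA R (n + j) - Mh R X Q h'| ≤ 1 / 2 * Mh R X Q h' := by
        by_contra h7
        exact hnT (mem_filter.2 ⟨e1, h7⟩)
      have e3 : 0 < Mh R X Q h' := by
        unfold Mh
        have hs : 0 < ((Sh R Q h').card : ℝ) := lt_of_lt_of_le (by positivity) h5
        rw [← hφdef, ← hL]
        exact div_pos (mul_pos hQr hs) (mul_pos hφ hL0)
      have e4 := (abs_le.1 e2).1
      show 0 < RA R (n + j)
      linarith
  · intro n hn m hm1 hm2
    apply hSf n hn m hm1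
    have : (m : ℝ) ≤ n + W := by exact_mod_cast hm2
    linarith

end Pool.Agent.Lib.MP_e3f158_nt.CL
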